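import Pool.Agent.MWB.Defs
import Pool.Agent.MWS.StmtsW

/-!
The identities of the final statement give the classes `ClW` and `ClB` of block MWS.
-/

namespace Pool.Agent.Helper44_MVT

open Pool.Agent.Helper14_MV Pool.Agent.Helper2_MV Pool.Agent.MWB

/-- an occurrence of a multiple letter may be doubled -/
theorem one_dbl {β : FIC} (h : B0 β) {p q : List ℕ} {c : ℕ} (hc : c ∈ p ∨ c ∈ q) :
    RR β (p ++ c :: q) (p ++ c :: c :: q) := by
  have h1 : ∀ a : MM β, a * a = a * a * a := by
    intro a
    have := ev_eq h.1 (fun _ => a)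
    simpa [ev, mul_assoc] using this
  have h2 : ∀ a b : MM β, a * b * a = a * a * b * a * a := by
    intro a b
    have := ev_eq h.2 (fun c => if c = 0 then a else b)
    simpa [ev, mul_assoc] using this
  have hR : ∀ a b : MM β, a * b * a = a * b * a * a := by
    intro a b
    have e : a * b * a * a = a * a * b * (a * a * a) := by
      rw [h2 a b]; simp only [mul_assoc]
    rw [e, ← h1, ← mul_assoc]
    exact h2 a b
  have hL : ∀ a b : MM β, a * b * a = a * a * b * a := by
    intro a b
    have e : a * a * b * a = (a * a * a) * b * (a * a) := by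
      have : a * a * b * a = a * (a * b * a) := by simp only [mul_assoc]
      rw [this, h2 a b]; simp only [mul_assoc]
    rw [e, ← h1, ← mul_assoc]
    exact h2 a b
  rw [rr_iff]
  rcases hc with hc | hc
  · obtain ⟨p1, p2, rfl⟩ := List.append_of_mem hc
    simp only [ev_append, ev_cons]
    calc ev (cn β) p1 * (cn β c * ev (cn β) p2) * (cn β c * ev (cn β) q)
        = ev (cn β) p1 * (cn β c * ev (cn β) p2 * cn β c) * ev (cn β) q := by
          simp only [mul_assoc]
      _ = ev (cn β) p1 * (cn β c * ev (cn β) p2 * cn β c * cn β c) * ev (cn β) q := by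
          rw [← hR]
      _ = ev (cn β) p1 * (cn β c * ev (cn β) p2) * (cn β c * (cn β c * ev (cn β) q)) := by
          simp only [mul_assoc]
  · obtain ⟨q1, q2, rfl⟩ := List.append_of_mem hc
    simp only [ev_append, ev_cons]
    calc ev (cn β) p * (cn β c * (ev (cn β) q1 * (cn β c * ev (cn β) q2)))
        = ev (cn β) p * (cn β c * ev (cn β) q1 * cn β c) * ev (cn β) q2 := by
          simp only [mul_assoc]
      _ = ev (cn β) p * (cn β c * cn β c * ev (cn β) q1 * cn β c) * ev (cn β) q2 := by
          rw [← hL]
      _ = ev (cn β) p * (cn β c * (cn β c * (ev (cn β) q1 * (cn β c * ev (cn β) q2)))) := by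
          simp only [mul_assoc]

/-- a factor of multiple letters may be doubled -/
theorem mid_dbl {β : FIC} (h : B0 β) (q : List ℕ) : ∀ (w p : List ℕ),
    (∀ c ∈ w, 2 ≤ (p ++ (w ++ q)).count c) → RR β (p ++ (w ++ q)) (p ++ (dbl w ++ q)) := by
  intro w
  induction w with
  | nil => intro p _; exact RR.refl _
  | cons c w ih =>
    intro p hw
    have hc : c ∈ p ∨ c ∈ w ++ q := by
      by_contra hcon
      rw [not_or] at hcon
      have h1 := hw c (by simp)
      rw [List.cons_append, List.count_append, List.count_cons_self,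
        List.count_eq_zero_of_not_mem hcon.1, List.count_eq_zero_of_not_mem hcon.2] at h1
      omega
    have h1 : RR β (p ++ (c :: w ++ q)) (p ++ c :: c :: (w ++ q)) := one_dbl h hc
    have h2 := ih (p ++ [c, c]) (by
      intro d hd
      have h3 := hw d (by simp [hd])
      simp only [List.count_append, List.cons_append, List.count_cons, List.count_nil] at h3 ⊢
      omega)
    rw [dbl_cons]
    refine rr_trans h1 ?_
    have e1 : p ++ c :: c :: (w ++ q) = p ++ [c, c] ++ (w ++ q) := by simp
    have e2 : p ++ (c :: c :: dbl w ++ q) = p ++ [c, c] ++ (dbl w ++ q) := by simp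
    rw [e1, e2]
    exact h2

theorem bw_clW {β : FIC} (h0 : B0 β) (h : BW β) : MWS.ClW β := by
  have d4 : ∀ a b : ℕ, RR β [a, b, a, b] [a, a, b, b, a, a, b, b] := by
    intro a b
    have := mid_dbl h0 [] [a, b, a, b] [] (by
      intro c hc
      simp only [List.nil_append, List.append_nil]
      have : c = a ∨ c = b := by
        simp only [List.mem_cons, List.not_mem_nil, or_false] at hc
        tauto
      rcases this with rfl | rfl
      · simp only [List.count_cons, List.count_nil, beq_self_eq_true, if_true]
        omega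
      · simp only [List.count_cons, List.count_nil, beq_self_eq_true, if_true]
        omega)
    simpa [dbl] using this
  have hic : RR β [0, 1, 0, 1] [1, 0, 1, 0] :=
    rr_trans (d4 0 1) (rr_trans h.1 (d4 1 0).symm)
  refine { ap := h0.1, ic := hic, be := h0.2, e0 := ?_ }
  have a1 : RR β [0, 1, 1, 2, 0] [0, 0, 1, 1, 2, 0] := by
    have := one_dbl h0 (p := []) (q := [1, 1, 2, 0]) (c := 0) (Or.inr (by simp))
    simpa using this
  have a2 : RR β [0, 1, 1, 0, 2, 0] [0, 0, 1, 1, 0, 0, 2, 0] := by
    have b1 := one_dbl h0 (p := []) (q := [1, 1, 0, 2, 0]) (c := 0) (Or.inr (by simp))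
    have b2 := one_dbl h0 (p := [0, 0, 1, 1]) (q := [2, 0]) (c := 0) (Or.inr (by simp))
    exact rr_trans (by simpa using b1) (by simpa using b2)
  exact rr_trans a1 (rr_trans h.2 a2.symm)

/-- the identities `tau` for arbitrary letters -/
theorem tau_let {β : FIC} (h : BB β) (x : ℕ) (l : List ℕ) :
    RR β ([x, x] ++ (dbl l ++ [x, x])) ([x, x] ++ l.flatMap (fun c => [c, c, x, x])) := by
  have h1 := (h.2.2 (l.map (fun c => c + 1))).sub (fun c => if c = 0 then [x] else [c - 1])
  have e1 : ∀ l : List ℕ, (dbl (l.map (fun c => c + 1))).flatMap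
      (fun c => if c = 0 then [x] else [c - 1]) = dbl l := by
    intro l
    induction l with
    | nil => rfl
    | cons c l ih =>
      rw [List.map_cons, dbl_cons, List.flatMap_cons, List.flatMap_cons, ih, dbl_cons]
      simp
  have e2 : ∀ l : List ℕ, ((l.map (fun c => c + 1)).flatMap (fun c => [c, c, 0, 0])).flatMap
      (fun c => if c = 0 then [x] else [c - 1]) = l.flatMap (fun c => [c, c, x, x]) := by
    intro l
    induction l with
    | nil => rfl
    | cons c l ih =>
      rw [List.map_cons, List.flatMap_cons, List.flatMap_append, ih, List.flatMap_cons]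
      simp
  rw [List.flatMap_append, List.flatMap_append, e1, List.flatMap_append, e2] at h1
  simpa using h1

/-- insertion in the doubled word -/
theorem tau_ins {β : FIC} (h0 : B0 β) (h : BB β) (x : ℕ) (w w' : List ℕ) :
    RR β ([x, x] ++ (dbl w ++ (dbl w' ++ [x, x])))
      ([x, x] ++ (dbl w ++ ([x, x] ++ (dbl w' ++ [x, x])))) := by
  have h1 : ∀ a : MM β, a * a = a * a * a := by
    intro a
    have := ev_eq h0.1 (fun _ => a)
    simpa [ev, mul_assoc] using this
  set X := cn β x * cn β x with hX
  have hXX : X * X = X := by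
    rw [hX, ← mul_assoc, ← h1, ← h1]
  have eX : ev (cn β) [x, x] = X := by simp [ev, hX]
  set F : List ℕ → MM β := fun l => ev (cn β) (l.flatMap (fun c => [c, c, x, x])) with hF
  have t : ∀ l, X * ev (cn β) (dbl l) * X = X * F l := by
    intro l
    have := rr_iff.1 (tau_let h x l)
    rw [ev_append, ev_append, ev_append, eX, ← mul_assoc] at this
    exact this
  have tX : ∀ l, X * F l * X = X * F l := by
    intro l
    rw [← t l, mul_assoc _ X X, hXX]
  have Fapp : F (w ++ w') = F w * F w' := by
    simp only [hF, List.flatMap_append, ev_append]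
  rw [rr_iff]
  simp only [ev_append, eX]
  calc X * (ev (cn β) (dbl w) * (ev (cn β) (dbl w') * X))
      = X * ev (cn β) (dbl (w ++ w')) * X := by
        rw [dbl_append, ev_append]; simp only [mul_assoc]
    _ = X * F w * F w' := by rw [t, Fapp, ← mul_assoc]
    _ = X * F w * X * F w' := by rw [tX]
    _ = (X * ev (cn β) (dbl w) * X) * (X * ev (cn β) (dbl w') * X) := by
        rw [t w, t w']; simp only [mul_assoc]
    _ = X * (ev (cn β) (dbl w) * ((X * X) * (ev (cn β) (dbl w') * X))) := by
        simp only [mul_assoc]
    _ = X * (ev (cn β) (dbl w) * (X * (ev (cn β) (dbl w') * X))) := by rw [hXX]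

theorem bb_itr {β : FIC} (h0 : B0 β) (h : BB β) : MWS.Itr β := by
  intro p w w' q x hw
  -- double everything
  have a1 : RR β (p ++ x :: (w ++ (w' ++ x :: q)))
      (p ++ (dbl (x :: (w ++ (w' ++ [x]))) ++ q)) := by
    have := mid_dbl h0 q (x :: (w ++ (w' ++ [x]))) p (by
      intro c hc
      have e : p ++ (x :: (w ++ (w' ++ [x])) ++ q) = p ++ x :: (w ++ (w' ++ x :: q)) := by simp
      rw [e]
      rcases List.mem_cons.1 hc with h | h
      · subst h
        simp only [List.count_append, List.count_cons_self]
        omega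
      · rcases List.mem_append.1 h with h | h
        · exact hw c (Or.inl h)
        · rcases List.mem_append.1 h with h | h
          · exact hw c (Or.inr h)
          · have : c = x := by simpa using h
            subst this
            simp only [List.count_append, List.count_cons_self]
            omega)
    simpa using this
  have a2 : RR β (p ++ x :: (w ++ x :: (w' ++ x :: q)))
      (p ++ (dbl (x :: (w ++ x :: (w' ++ [x]))) ++ q)) := by
    have := mid_dbl h0 q (x :: (w ++ x :: (w' ++ [x]))) p (by
      intro c hc
      have e : p ++ (x :: (w ++ x :: (w' ++ [x])) ++ q) = p ++ x :: (w ++ x :: (w' ++ x :: q)) := by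
        simp
      rw [e]
      have hge : ∀ c, (c ∈ w ∨ c ∈ w') → 2 ≤ (p ++ x :: (w ++ x :: (w' ++ x :: q))).count c := by
        intro c hc
        have := hw c hc
        simp only [List.count_append, List.count_cons] at this ⊢
        omega
      have hgx : 2 ≤ (p ++ x :: (w ++ x :: (w' ++ x :: q))).count x := by
        simp only [List.count_append, List.count_cons_self]
        omega
      rcases List.mem_cons.1 hc with h | h
      · exact h ▸ hgx
      · rcases List.mem_append.1 h with h | h
        · exact hge c (Or.inl h)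
        · rcases List.mem_cons.1 h with h | h
          · exact h ▸ hgx
          · rcases List.mem_append.1 h with h | h
            · exact hge c (Or.inr h)
            · have : c = x := by simpa using h
              exact this ▸ hgx)
    simpa using this
  have a3 : RR β (p ++ (dbl (x :: (w ++ (w' ++ [x]))) ++ q))
      (p ++ (dbl (x :: (w ++ x :: (w' ++ [x]))) ++ q)) := by
    have e1 : dbl (x :: (w ++ (w' ++ [x]))) = [x, x] ++ (dbl w ++ (dbl w' ++ [x, x])) := by
      rw [dbl_cons, dbl_append, dbl_append]; rfl
    have e2 : dbl (x :: (w ++ x :: (w' ++ [x]))) =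
        [x, x] ++ (dbl w ++ ([x, x] ++ (dbl w' ++ [x, x]))) := by
      rw [dbl_cons, dbl_append, dbl_cons, dbl_append]; rfl
    rw [e1, e2]
    exact (RR.refl p).append ((tau_ins h0 h x w w').append (RR.refl q))
  exact rr_trans a1 (rr_trans a3 a2.symm)

/-- renaming of the letters of the identities `D_v` -/
theorem dv_right {β : FIC} (h : BB β) (x y : ℕ) (m s : List ℕ) :
    RR β (x :: (dbl m ++ y :: (s ++ [x, y]))) (x :: (dbl m ++ y :: (s ++ [y, x]))) := by
  set φ : ℕ → List ℕ := fun c => if c = 0 then [x] else if c = 1 then [y] else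
    if c = 2 then s else [m.getD (c - 3) 0] with hφ
  have h1 := (h.1 (List.range' 3 m.length) (fun c hc => (mem_rg.1 hc).1)).sub φ
  have e : (dbl (List.range' 3 m.length)).flatMap φ = dbl m := by
    rw [dbl_flatMap]
    have e1 : (List.range' 3 m.length).flatMap (fun c => φ c ++ φ c) =
        dbl ((List.range' 3 m.length).map (fun c => m.getD (c - 3) 0)) := by
      unfold dbl
      rw [List.flatMap_map]
      apply List.flatMap_congr
      intro c hc
      have := (mem_rg.1 hc).1
      have q0 : c ≠ 0 := by omega
      have q1 : c ≠ 1 := by omega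
      have q2 : c ≠ 2 := by omega
      simp only [hφ, q0, q1, q2, if_false]
      rfl
    rw [e1]
    congr 1
    apply List.ext_getElem
    · simp
    · intro i h1 h2
      rw [List.getElem_map, List.getElem_range']
      rw [show 3 + 1 * i - 3 = i by omega, List.getD_eq_getElem _ _ h2]
  rw [List.flatMap_append, List.flatMap_append, e, List.flatMap_append, List.flatMap_append, e]
    at h1
  simpa [hφ] using h1

theorem dv_left {β : FIC} (h : BB β) (x y : ℕ) (m s : List ℕ) :
    RR β (x :: y :: (s ++ x :: (dbl m ++ [y]))) (y :: x :: (s ++ x :: (dbl m ++ [y]))) := by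
  set φ : ℕ → List ℕ := fun c => if c = 0 then [x] else if c = 1 then [y] else
    if c = 2 then s else [m.getD (c - 3) 0] with hφ
  have h1 := (h.2.1 (List.range' 3 m.length) (fun c hc => (mem_rg.1 hc).1)).sub φ
  have e : (dbl (List.range' 3 m.length)).flatMap φ = dbl m := by
    rw [dbl_flatMap]
    have e1 : (List.range' 3 m.length).flatMap (fun c => φ c ++ φ c) =
        dbl ((List.range' 3 m.length).map (fun c => m.getD (c - 3) 0)) := by
      unfold dbl
      rw [List.flatMap_map]
      apply List.flatMap_congr
      intro c hc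
      have := (mem_rg.1 hc).1
      have q0 : c ≠ 0 := by omega
      have q1 : c ≠ 1 := by omega
      have q2 : c ≠ 2 := by omega
      simp only [hφ, q0, q1, q2, if_false]
      rfl
    rw [e1]
    congr 1
    apply List.ext_getElem
    · simp
    · intro i h1 h2
      rw [List.getElem_map, List.getElem_range']
      rw [show 3 + 1 * i - 3 = i by omega, List.getD_eq_getElem _ _ h2]
  rw [List.flatMap_append, List.flatMap_append, e, List.flatMap_append, List.flatMap_append, e]
    at h1
  simpa [hφ] using h1

/-- `x m y s xy ≈ x m y s yx` in context -/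
theorem swR {β : FIC} (h0 : B0 β) (h : BB β) {P m s q : List ℕ} {x y : ℕ}
    (hm : ∀ z ∈ m, 2 ≤ (P ++ x :: (m ++ y :: (s ++ x :: y :: q))).count z) :
    RR β (P ++ x :: (m ++ y :: (s ++ x :: y :: q))) (P ++ x :: (m ++ y :: (s ++ y :: x :: q))) := by
  have a1 := mid_dbl h0 (y :: (s ++ x :: y :: q)) m (P ++ [x]) (by
    intro c hc
    have := hm c hc
    simpa using this)
  have a2 := mid_dbl h0 (y :: (s ++ y :: x :: q)) m (P ++ [x]) (by
    intro c hc
    have := hm c hc
    simp only [List.append_assoc, List.count_append, List.count_cons, List.cons_append,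
      List.nil_append] at this ⊢
    omega)
  have a3 := (RR.refl (β := β) P).append ((dv_right h x y m s).append (RR.refl q))
  have e1 : P ++ [x] ++ (m ++ y :: (s ++ x :: y :: q)) =
      P ++ x :: (m ++ y :: (s ++ x :: y :: q)) := by simp
  have e2 : P ++ [x] ++ (m ++ y :: (s ++ y :: x :: q)) =
      P ++ x :: (m ++ y :: (s ++ y :: x :: q)) := by simp
  have e3 : P ++ [x] ++ (dbl m ++ y :: (s ++ x :: y :: q)) =
      P ++ (x :: (dbl m ++ y :: (s ++ [x, y])) ++ q) := by simp
  have e4 : P ++ [x] ++ (dbl m ++ y :: (s ++ y :: x :: q)) =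
      P ++ (x :: (dbl m ++ y :: (s ++ [y, x])) ++ q) := by simp
  rw [e1, e3] at a1
  rw [e2, e4] at a2
  exact rr_trans a1 (rr_trans a3 a2.symm)

theorem swL {β : FIC} (h0 : B0 β) (h : BB β) {P m s q : List ℕ} {x y : ℕ}
    (hm : ∀ z ∈ m, 2 ≤ (P ++ x :: y :: (s ++ x :: (m ++ y :: q))).count z) :
    RR β (P ++ x :: y :: (s ++ x :: (m ++ y :: q))) (P ++ y :: x :: (s ++ x :: (m ++ y :: q))) := by
  have a1 := mid_dbl h0 (y :: q) m (P ++ x :: y :: (s ++ [x])) (by
    intro c hc
    have := hm c hc
    simpa using this)
  have a2 := mid_dbl h0 (y :: q) m (P ++ y :: x :: (s ++ [x])) (by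
    intro c hc
    have := hm c hc
    simp only [List.append_assoc, List.count_append, List.count_cons, List.cons_append,
      List.nil_append] at this ⊢
    omega)
  have a3 := (RR.refl (β := β) P).append ((dv_left h x y m s).append (RR.refl q))
  have e1 : P ++ x :: y :: (s ++ [x]) ++ (m ++ y :: q) =
      P ++ x :: y :: (s ++ x :: (m ++ y :: q)) := by simp
  have e2 : P ++ y :: x :: (s ++ [x]) ++ (m ++ y :: q) =
      P ++ y :: x :: (s ++ x :: (m ++ y :: q)) := by simp
  have e3 : P ++ x :: y :: (s ++ [x]) ++ (dbl m ++ y :: q) =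
      P ++ (x :: y :: (s ++ x :: (dbl m ++ [y])) ++ q) := by simp
  have e4 : P ++ y :: x :: (s ++ [x]) ++ (dbl m ++ y :: q) =
      P ++ (y :: x :: (s ++ x :: (dbl m ++ [y])) ++ q) := by simp
  rw [e1, e3] at a1
  rw [e2, e4] at a2
  exact rr_trans a1 (rr_trans a3 a2.symm)

theorem bb_ic {β : FIC} (h : BB β) : RR β [0, 1, 0, 1] [1, 0, 1, 0] := by
  have r : ∀ x y : ℕ, RR β [x, y, x, y] [x, y, y, x] := by
    intro x y
    have := dv_right h x y [] []
    simpa [dbl] using this
  have l : ∀ x y : ℕ, RR β [x, y, x, y] [y, x, x, y] := by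
    intro x y
    have := dv_left h x y [] []
    simpa [dbl] using this
  exact rr_trans (l 0 1) (r 1 0).symm

theorem bb_clB {β : FIC} (h0 : B0 β) (h : BB β) : MWS.ClB β := by
  refine { ap := h0.1, ic := bb_ic h, be := h0.2, itr := bb_itr h0 h, dd := ?_ }
  intro p q x y c hpq hx hy hc
  by_cases hxy : x = y
  · subst hxy
    exact RR.refl _
  -- the order of `x`, `y` in the factor
  rcases p2_total hxy hx hy with h2 | h2
  · obtain ⟨A, C, rfl, hyC⟩ := p2_iff.1 h2
    obtain ⟨m, B, rfl⟩ := List.append_of_mem hyC
    rcases hpq with ⟨r, s, rfl⟩ | ⟨r, s, rfl⟩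
    · have key := swR h0 h (P := r ++ A) (m := m) (s := B ++ s) (q := q) (x := x) (y := y) (by
        intro z hz
        have := hc z (by simp [hz])
        simpa using this)
      simpa using key
    · have key := swL h0 h (P := p) (m := m) (s := r ++ A) (q := B ++ s) (x := x) (y := y) (by
        intro z hz
        have := hc z (by simp [hz])
        simpa using this)
      simpa using key
  · obtain ⟨A, C, rfl, hyC⟩ := p2_iff.1 h2
    obtain ⟨m, B, rfl⟩ := List.append_of_mem hyC
    rcases hpq with ⟨r, s, rfl⟩ | ⟨r, s, rfl⟩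
    · have key := swR h0 h (P := r ++ A) (m := m) (s := B ++ s) (q := q) (x := y) (y := x) (by
        intro z hz
        have := hc z (by simp [hz])
        simp only [List.append_assoc, List.count_append, List.count_cons, List.cons_append] at this ⊢
        omega)
      have key' := key.symm
      simpa using key'
    · have key := swL h0 h (P := p) (m := m) (s := r ++ A) (q := B ++ s) (x := y) (y := x) (by
        intro z hz
        have := hc z (by simp [hz])
        simp only [List.append_assoc, List.count_append, List.count_cons, List.cons_append] at this ⊢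
        omega)
      have key' := key.symm
      simpa using key'

end Pool.Agent.Helper44_MVT
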