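import Pool.Agent.Helper44_MVT.Key

/-!
The closed sets of the pentagon.
-/

namespace Pool.Agent.Helper44_MVT

open Pool.Agent.Helper14_MV Pool.Agent.Helper2_MV

/-- words with the two letter patterns of `CC k` in which `0` is not between two letters of `S` -/
def KS (k : ℕ) (S : ℕ → Prop) (u : List ℕ) : Prop :=
  (∀ y z, y ≤ 2 * k + 2 → z ≤ 2 * k + 2 → (P2 y z u ↔ P2 y z (CC k))) ∧
    ∀ y z, S y → S z → ¬ P3 y 0 z u

/-- all letters except `0`, `1` -/
def Sc (k y : ℕ) : Prop := 2 ≤ y ∧ y ≤ 2 * k + 2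
/-- all letters except `0`, `2` -/
def Sb (k y : ℕ) : Prop := 1 ≤ y ∧ y ≠ 2 ∧ y ≤ 2 * k + 2
/-- all letters except `0` -/
def Sk (k y : ℕ) : Prop := 1 ≤ y ∧ y ≤ 2 * k + 2

theorem cc_eq (k : ℕ) (φ : ℕ → List ℕ) (q : List ℕ) :
    (CC k).flatMap φ ++ q = RW ((List.range' 3 k).flatMap (sf φ) ++ sf φ 2)
      ((List.range' (3 + k) k).flatMap (sf φ) ++ sf φ 2) q (φ 1) (φ 0) := by
  unfold CC
  rw [dbl_flatMap]
  unfold cw ww RW
  simp only [List.flatMap_cons, List.flatMap_append, List.flatMap_nil, List.append_assoc,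
    List.nil_append, List.cons_append, sf]
  rfl

theorem rw_eq (k : ℕ) (φ : ℕ → List ℕ) (q : List ℕ) :
    RW ((List.range' 3 k).flatMap (sf φ) ++ sf φ 2)
      ((List.range' (3 + k) k).flatMap (sf φ) ++ sf φ 2) q (φ 1) (φ 0) =
      sf φ 0 ++ MW k φ (sf φ 0 ++ q) := by
  unfold RW MW
  simp only [List.append_assoc, sf]

theorem ks_step {k : ℕ} {S : ℕ → Prop} {φ : ℕ → List ℕ} {p q : List ℕ}
    (key : KS k S (p ++ ((CC k).flatMap φ ++ q)) → 0 ∈ φ 0 → ∀ y, S y → y ∈ φ 1 → False) :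
    KS k S (p ++ ((CC k).flatMap φ ++ q)) ↔
      KS k S (p ++ (sf φ 1 ++ ((CC k).flatMap φ ++ q))) := by
  have e2 : ∀ y z, P2 y z (p ++ (sf φ 1 ++ ((CC k).flatMap φ ++ q))) ↔
      P2 y z (p ++ ((CC k).flatMap φ ++ q)) := by
    intro y z
    rw [cc_eq]
    exact pat2 y z p _ _ q (φ 1) (φ 0)
  constructor
  · intro h
    refine ⟨fun y z hy hz => (e2 y z).trans (h.1 y z hy hz), ?_⟩
    intro y z hy hz h3
    rw [cc_eq] at h3
    rcases pat3 y z p _ _ q (φ 1) (φ 0) h3 with h4 | h4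
    · rw [← cc_eq] at h4
      exact h.2 y z hy hz h4
    · exact key h h4.2 y hy h4.1
  · intro h
    refine ⟨fun y z hy hz => (e2 y z).symm.trans (h.1 y z hy hz), ?_⟩
    intro y z hy hz h3
    refine h.2 y z hy hz (p3_sub h3 ?_)
    exact List.Sublist.append (List.Sublist.refl _) (List.sublist_append_right _ _)

/-- letters of `S` are not outside of the image of the middle part -/
theorem out {k : ℕ} {S : ℕ → Prop} {φ : ℕ → List ℕ} {p q : List ℕ}
    (h : KS k S (p ++ ((CC k).flatMap φ ++ q))) (h0 : 0 ∈ φ 0) {y0 : ℕ} (hS : S y0)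
    (hy0 : y0 ∈ φ 1) {y : ℕ} (hy : S y) : y ∉ p ++ sf φ 0 ∧ y ∉ sf φ 0 ++ q := by
  rw [cc_eq, rw_eq] at h
  have hM : y0 ∈ MW k φ (sf φ 0 ++ q) := by
    unfold MW
    simp [mem_sf, hy0]
  constructor
  · intro hc
    apply h.2 y y0 hy hS
    rcases List.mem_append.1 hc with hc | hc
    · rw [p3_append]
      right; right; left
      refine ⟨hc, ?_⟩
      rw [p2_append]
      right; left
      exact ⟨mem_sf.2 h0, hM⟩
    · rw [p3_append]
      right; right; right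
      rw [p3_append]
      right; left
      refine ⟨?_, hM⟩
      unfold sf
      rw [p2_append]
      exact Or.inr (Or.inl ⟨mem_sf.1 hc, h0⟩)
  · intro hc
    apply h.2 y0 y hS hy
    have h1 : P3 y0 0 y (sf φ 1 ++ (sf φ 0 ++ q)) := by
      rcases List.mem_append.1 hc with hc | hc
      · rw [p3_append]
        right; right; left
        refine ⟨mem_sf.2 hy0, ?_⟩
        rw [p2_append]
        left
        unfold sf
        rw [p2_append]
        exact Or.inr (Or.inl ⟨h0, mem_sf.1 hc⟩)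
      · rw [p3_append]
        right; right; left
        refine ⟨mem_sf.2 hy0, ?_⟩
        rw [p2_append]
        exact Or.inr (Or.inl ⟨mem_sf.2 h0, hc⟩)
    refine p3_sub h1 ?_
    refine List.Sublist.trans ?_ (List.sublist_append_right _ _)
    refine List.Sublist.trans ?_ (List.sublist_append_right _ _)
    unfold MW
    refine List.Sublist.append (List.Sublist.refl _) ?_
    refine List.Sublist.trans ?_ (List.sublist_append_right _ _)
    refine List.Sublist.trans ?_ (List.sublist_append_right _ _)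
    refine List.Sublist.trans ?_ (List.sublist_append_right _ _)
    refine List.Sublist.trans ?_ (List.sublist_append_right _ _)
    exact List.sublist_append_right _ _

theorem stc {k : ℕ} (hk : 1 ≤ k) (φ : ℕ → List ℕ) (p q : List ℕ) :
    KS k (Sc k) (p ++ ((CC k).flatMap φ ++ q)) ↔
      KS k (Sc k) (p ++ (sf φ 1 ++ ((CC k).flatMap φ ++ q))) := by
  apply ks_step
  intro h h0 y0 hS hy0
  have ho := fun y hy => out h h0 hS hy0 (y := y) hy
  have hu : p ++ ((CC k).flatMap φ ++ q) = (p ++ sf φ 0) ++ MW k φ (sf φ 0 ++ q) := by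
    rw [cc_eq, rw_eq, List.append_assoc]
  have h3 : 3 ∈ φ 1 := by
    by_contra h3
    have hne : y0 ≠ 3 := fun e => h3 (e ▸ hy0)
    have hn : ¬ P2 y0 3 (p ++ ((CC k).flatMap φ ++ q)) := by
      rw [h.1 y0 3 hS.2 (by omega)]
      by_cases h2 : y0 = 2
      · subst h2
        exact cc_a_b (by omega) (by omega)
      · exact cc_chain (by omega) (by have := hS.1; omega)
    apply hn
    have h3u : 3 ∈ p ++ ((CC k).flatMap φ ++ q) :=
      (p2_mem ((h.1 3 3 (by omega) (by omega)).2 (cc_self (by omega)))).1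
    rw [hu] at h3u ⊢
    rw [p2_append]
    right; right
    unfold MW at h3u ⊢
    rw [p2_append]
    right; left
    refine ⟨mem_sf.2 hy0, ?_⟩
    rcases List.mem_append.1 h3u with q1 | q1
    · exact absurd q1 (ho 3 ⟨by omega, by omega⟩).1
    · rcases List.mem_append.1 q1 with q1 | q1
      · exact absurd (mem_sf.1 q1) h3
      · exact q1
  exact kb1 hk φ hu h.1 (fun y h1 h2 => (ho y ⟨h1, h2⟩).2) h3

theorem sta {k : ℕ} (hk : 1 ≤ k) (φ : ℕ → List ℕ) (p q : List ℕ) :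
    KS k (Sk k) (p ++ ((CC k).flatMap φ ++ (sf φ 2 ++ q))) ↔
      KS k (Sk k) (p ++ (sf φ 1 ++ ((CC k).flatMap φ ++ (sf φ 2 ++ q)))) := by
  apply ks_step
  intro h h0 y0 hS hy0
  have ho := fun y hy => out h h0 hS hy0 (y := y) hy
  have hu : p ++ ((CC k).flatMap φ ++ (sf φ 2 ++ q)) =
      (p ++ sf φ 0) ++ MW k φ (sf φ 0 ++ (sf φ 2 ++ q)) := by
    rw [cc_eq, rw_eq, List.append_assoc]
  by_cases h3 : 3 ∈ φ 1
  · exact kb1 hk φ hu h.1 (fun y h1 h2 => (ho y ⟨by omega, h2⟩).2) h3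
  · refine kbi hk φ hu h.1 (fun y h1 h2 => (ho y ⟨h1, h2⟩).1) (fun y h1 h2 => (ho y ⟨h1, h2⟩).2)
      ?_ h3
    intro y h1 h2 hm
    exact (ho y ⟨h1, h2⟩).2 (by simp [mem_sf, hm])

/-- `K` is the intersection -/
theorem ks_inter {k : ℕ} (hk : 1 ≤ k) (u : List ℕ) :
    KS k (Sk k) u ↔ KS k (Sb k) u ∧ KS k (Sc k) u := by
  constructor
  · rintro ⟨h1, h2⟩
    exact ⟨⟨h1, fun y z hy hz => h2 y z ⟨hy.1, hy.2.2⟩ ⟨hz.1, hz.2.2⟩⟩,
      ⟨h1, fun y z hy hz => h2 y z ⟨by have := hy.1; omega, hy.2⟩ ⟨by have := hz.1; omega, hz.2⟩⟩⟩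
  · rintro ⟨⟨h1, hb⟩, ⟨_, hc⟩⟩
    refine ⟨h1, ?_⟩
    intro y z hy hz h3
    have h3u : 3 ∈ u := (p2_mem ((h1 3 3 (by omega) (by omega)).2 (cc_self (by omega)))).1
    obtain ⟨A, B, rfl, hA, hB⟩ := p3_iff.1 h3
    have hS3b : Sb k 3 := ⟨by omega, by omega, by omega⟩
    have hS3c : Sc k 3 := ⟨by omega, by omega⟩
    have key : ∀ t, Sk k t → ¬ P3 3 0 t (A ++ 0 :: B) ∧ ¬ P3 t 0 3 (A ++ 0 :: B) := by
      intro t ht
      by_cases h : t = 2
      · have : Sc k t := ⟨by omega, ht.2⟩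
        exact ⟨hc 3 t hS3c this, hc t 3 this hS3c⟩
      · have : Sb k t := ⟨ht.1, h, ht.2⟩
        exact ⟨hb 3 t hS3b this, hb t 3 this hS3b⟩
    rcases List.mem_append.1 h3u with h | h
    · exact (key z hz).1 (p3_iff.2 ⟨A, B, rfl, h, hB⟩)
    · rcases List.mem_cons.1 h with h | h
      · exact absurd h (by omega)
      · exact (key y hy).2 (p3_iff.2 ⟨A, B, rfl, hA, h⟩)

end Pool.Agent.Helper44_MVT
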