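import Pool.Agent.Helper44_MVT.Sat
import Pool.Agent.Helper4_MV.Iso

/-!
The final form: modular lattice, `x² ≈ x³`, `xyx ≈ x²yx²`.
-/

namespace Pool.Agent.Helper44_MVT

open Pool.Agent.Helper14_MV Pool.Agent.Helper2_MV

/-- doubling of letters as a homomorphism -/
def DD : Word →* Word := FreeMonoid.lift (fun c => FreeMonoid.of c * FreeMonoid.of c)

theorem DD_of (c : ℕ) : DD (FreeMonoid.of c) = FreeMonoid.of c * FreeMonoid.of c := by
  simp [DD, FreeMonoid.lift_eval_of]

/-- the square of the doubled word -/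
def SS (w : Word) : Word := DD w * DD w

/-- words are compared by the squares of their doubled forms -/
def sgm (β : FIC) : FIC where
  r := fun u v => ∀ (φ : Word →* Word) (m q : Word),
    β.r (SS (m * φ u * q)) (SS (m * φ v * q))
  refl := fun _ _ _ _ => β.refl _
  symm := fun h φ m q => β.symm (h φ m q)
  trans := fun h k φ m q => β.trans (h φ m q) (k φ m q)
  mul := by
    intro a b c d h k φ m q
    rw [map_mul, map_mul]
    have h1 := h φ m (φ c * q)
    have h2 := k φ (m * φ b) q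
    simp only [mul_assoc] at h1 h2 ⊢
    exact β.trans h1 h2
  sub := fun ψ _ _ h φ m q => h (φ.comp ψ) m q

theorem le_sgm (β : FIC) : β ≤ sgm β := by
  intro u v h φ m q
  have h1 : β.r (m * φ u * q) (m * φ v * q) := β.mul (β.mul (β.refl m) (β.sub φ h)) (β.refl q)
  exact β.mul (β.sub DD h1) (β.sub DD h1)

theorem sgm_sq {β : FIC} (h2 : RR β [0, 1, 0] [0, 0, 1, 0, 0]) :
    (sgm β).r (lx ^ (1 + 1)) lx := by
  intro φ m q
  have hM : ∀ a b : MM β, a * b * a = a * a * b * a * a := by
    intro a b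
    have := ev_eq h2 (fun c => if c = 0 then a else b)
    simpa [ev, mul_assoc] using this
  have key : ∀ P A Q : Word, β.r (P * (A * A) * Q * (P * (A * A) * Q)) (P * A * Q * (P * A * Q)) := by
    intro P A Q
    apply (Con.eq β.con).1
    have := hM (β.con.mk' A) (β.con.mk' Q * β.con.mk' P)
    have e1 : β.con.mk' P * (β.con.mk' A * (β.con.mk' Q * β.con.mk' P) * β.con.mk' A) *
        β.con.mk' Q = β.con.mk' (P * A * Q * (P * A * Q)) := by
      simp only [map_mul, mul_assoc]
    have e2 : β.con.mk' P * (β.con.mk' A * β.con.mk' A * (β.con.mk' Q * β.con.mk' P) *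
        β.con.mk' A * β.con.mk' A) * β.con.mk' Q =
        β.con.mk' (P * (A * A) * Q * (P * (A * A) * Q)) := by
      simp only [map_mul, mul_assoc]
    show β.con.mk' (P * (A * A) * Q * (P * (A * A) * Q)) = β.con.mk' (P * A * Q * (P * A * Q))
    rw [← e1, ← e2, this]
  have h4 := key (DD m) (DD (φ lx)) (DD q)
  have e3 : DD (m * φ (lx ^ (1 + 1)) * q) = DD m * (DD (φ lx) * DD (φ lx)) * DD q := by
    rw [map_mul, map_mul, map_pow, map_pow, pow_succ, pow_one]
  have e4 : DD (m * φ lx * q) = DD m * DD (φ lx) * DD q := by rw [map_mul, map_mul]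
  unfold SS
  rw [e3, e4]
  exact h4

/-- `(x²y²)² ≈ (y²x²)²` -/
theorem h3_of {β : FIC} (hm : ModF β) (hcr : ∀ n : ℕ, 1 ≤ n → ¬ β.r (lx ^ (n + 1)) lx)
    (h2 : RR β [0, 1, 0] [0, 0, 1, 0, 0]) :
    RR β [0, 0, 1, 1, 0, 0, 1, 1] [1, 1, 0, 0, 1, 1, 0, 0] := by
  have h := Pool.Agent.Helper14_MV.B1 β hm hcr (sgm β) (le_sgm β) 1 (le_refl 1) (sgm_sq h2)
    (MonoidHom.id Word) 1 1
  simp only [SS, MonoidHom.id_apply, one_mul, mul_one, map_mul, lx, ly, DD_of] at h
  exact h

/-- **words in idempotent letters are interval orders** -/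
theorem sato {β : FIC} (hm : ModF β) (hcr : ∀ n : ℕ, 1 ≤ n → ¬ β.r (lx ^ (n + 1)) lx)
    (h1 : RR β [0, 0] [0, 0, 0]) (h2 : RR β [0, 1, 0] [0, 0, 1, 0, 0]) {u v : List ℕ}
    (hc : ∀ a, a ∈ u ↔ a ∈ v) (hp : ∀ a b, a ≠ b → (P2 a b u ↔ P2 a b v)) :
    RR β (dbl u) (dbl v) := by
  have h3 := h3_of hm hcr h2
  by_cases h4 : RR β [0, 0, 1, 1] [1, 1, 0, 0]
  · -- commuting squares
    have hcom : ∀ a b : MM β, a * a * (b * b) = b * b * (a * a) := by
      intro a b
      have := ev_eq h4 (fun c => if c = 0 then a else b)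
      simpa [ev, mul_assoc] using this
    have hid : ∀ a : MM β, a * a * (a * a) = a * a := by
      intro a
      have h5 : ∀ a : MM β, a * a = a * a * a := by
        intro a
        have := ev_eq h1 (fun _ => a)
        simpa [ev, mul_assoc] using this
      rw [← mul_assoc, ← h5, ← h5]
    have habs : ∀ (g : ℕ → MM β) (l : List ℕ) (c : ℕ), c ∈ l →
        ev (sq g) l * sq g c = ev (sq g) l ∧ sq g c * ev (sq g) l = ev (sq g) l := by
      intro g l c
      have hmv : ∀ l : List ℕ, ev (sq g) l * sq g c = sq g c * ev (sq g) l := by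
        intro l
        induction l with
        | nil => rw [ev_nil, one_mul, mul_one]
        | cons d l ih =>
          rw [ev_cons, mul_assoc, ih, ← mul_assoc, ← mul_assoc]
          congr 1
          exact hcom _ _
      intro hc
      have hl : sq g c * ev (sq g) l = ev (sq g) l := by
        obtain ⟨A, B, rfl⟩ := List.append_of_mem hc
        rw [ev_append, ev_cons, ← mul_assoc, ← hmv A, mul_assoc, ← mul_assoc (sq g c) (sq g c)]
        have : sq g c * sq g c = sq g c := hid _
        rw [this]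
      exact ⟨by rw [hmv, hl], hl⟩
    rw [rr_iff, ev_dbl, ev_dbl]
    have a1 : ev (sq (cn β)) u * ev (sq (cn β)) v = ev (sq (cn β)) u :=
      ev_absR (fun c h => (habs _ u c ((hc c).2 h)).1)
    have a2 : ev (sq (cn β)) u * ev (sq (cn β)) v = ev (sq (cn β)) v :=
      ev_absL (fun c h => (habs _ v c ((hc c).1 h)).2)
    exact a1.symm.trans a2
  · exact sato' ⟨h1, h2, h3, h4⟩ hm hc hp

end Pool.Agent.Helper44_MVT
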