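import Pool.Agent.Helper44_MVT.Mir
import Pool.Agent.Helper14_MV.B2

/-!
The pentagon.
-/

namespace Pool.Agent.Helper44_MVT

open Pool.Agent.Helper14_MV Pool.Agent.Helper2_MV

theorem le_gam {β : FIC} {P : Word → Prop} (h : ∀ u v, β.r u v → P u → P v) : β ≤ gam P := by
  intro u v huv φ m q
  have h3 : β.r (m * φ u * q) (m * φ v * q) := β.mul (β.mul (β.refl m) (β.sub φ huv)) (β.refl q)
  exact ⟨h _ _ h3, h _ _ (β.symm h3)⟩

/-- the closed sets as sets of words -/
def KW (k : ℕ) (S : ℕ → Prop) (w : Word) : Prop := KS k S w.toList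

theorem gam_KW {k : ℕ} {S : ℕ → Prop} {u v : List ℕ}
    (h : ∀ (φ : ℕ → List ℕ) (p q : List ℕ), KS k S (p ++ (u.flatMap φ ++ q)) ↔
      KS k S (p ++ (v.flatMap φ ++ q))) : RR (gam (KW k S)) u v := by
  intro φ m q
  have h1 := h (fun i => (φ (FreeMonoid.of i)).toList) m.toList q.toList
  unfold KW
  rw [FreeMonoid.toList_mul, FreeMonoid.toList_mul, toList_hom, FreeMonoid.toList_mul,
    FreeMonoid.toList_mul, toList_hom, List.append_assoc, List.append_assoc]
  exact h1

theorem ks_CC {k : ℕ} : KS k (Sk k) (CC k) := by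
  refine ⟨fun _ _ _ _ => Iff.rfl, ?_⟩
  intro y z hy hz h
  have e : CC k = [0, 0] ++ (dbl (ww k) ++ [0, 0]) := by
    unfold CC cw
    rw [dbl_cons, dbl_append]
    rfl
  have h0 : 0 ∉ dbl (ww k) := by
    rw [mem_dbl]
    unfold ww
    simp only [List.mem_cons, List.mem_append, mem_rg, List.not_mem_nil, or_false]
    omega
  have hy1 := hy.1
  have hz1 := hz.1
  rw [e, p3_append, p3_append] at h
  rcases h with h | ⟨h, _⟩ | ⟨h, _⟩ | h | ⟨h, _⟩ | ⟨_, h⟩ | h
  · have := (p3_mem h).1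
    simp at this
    omega
  · have := (p2_mem h).1
    simp at this
    omega
  · simp at h
    omega
  · exact h0 (p3_mem h).2.1
  · exact h0 (p2_mem h).2
  · have := (p2_mem h).2
    simp at this
    omega
  · have := (p3_mem h).1
    simp at this
    omega

theorem not_ks_dCC {k : ℕ} : ¬ KS k (Sk k) ([1, 1] ++ CC k) := by
  intro h
  refine h.2 1 1 ⟨by omega, by omega⟩ ⟨by omega, by omega⟩ ?_
  have h1 : P2 0 1 (CC k) := by
    unfold CC
    rw [p2_dbl (by omega)]
    unfold cw ww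
    simp only [p2_append, p2_cons, List.mem_cons, List.mem_append]
    tauto
  rw [p3_append]
  exact Or.inr (Or.inr (Or.inl ⟨by simp, h1⟩))

/-- **the pentagon** -/
theorem pen {β : FIC} {k : ℕ} (hk : 1 ≤ k) (hm : ModF β)
    (hb : ∀ u v, RR β u v → KS k (Sb k) u → KS k (Sb k) v)
    (hc : ∀ u v, RR β u v → KS k (Sc k) u → KS k (Sc k) v) : False := by
  have hbW : ∀ u v : Word, β.r u v → KW k (Sb k) u → KW k (Sb k) v := fun u v h =>
    hb u.toList v.toList h
  have hcW : ∀ u v : Word, β.r u v → KW k (Sc k) u → KW k (Sc k) v := fun u v h =>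
    hc u.toList v.toList h
  have hkW : ∀ u v : Word, β.r u v → KW k (Sk k) u → KW k (Sk k) v := by
    intro u v h h1
    unfold KW at h1 ⊢
    rw [ks_inter hk] at h1 ⊢
    exact ⟨hbW u v h h1.1, hcW u v h h1.2⟩
  have rc : RR (gam (KW k (Sc k))) (CC k) ([1, 1] ++ CC k) := by
    apply gam_KW
    intro φ p q
    have := stc hk φ p q
    rw [this, List.flatMap_append, List.append_assoc]
    simp [sf]
  have rb : RR (gam (KW k (Sb k))) (CC k) (CC k ++ [2, 2]) := by
    apply gam_KW
    intro φ p q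
    have := stb hk φ p q
    rw [this, List.flatMap_append]
    simp [sf]
  have rk : RR (gam (KW k (Sk k))) (CC k ++ [2, 2]) ([1, 1] ++ (CC k ++ [2, 2])) := by
    apply gam_KW
    intro φ p q
    have := sta hk φ p q
    rw [List.flatMap_append, List.flatMap_append, List.flatMap_append]
    simpa [sf] using this
  have rb' : RR (gam (KW k (Sb k))) ([1, 1] ++ CC k) ([1, 1] ++ (CC k ++ [2, 2])) :=
    (RR.refl [1, 1]).append rb
  have rc' : RR (gam (KW k (Sc k))) (CC k ++ [2, 2]) ([1, 1] ++ (CC k ++ [2, 2])) := by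
    have := rc.append (RR.refl [2, 2])
    rwa [List.append_assoc] at this
  set a : FIC := FIC.inf (gam (KW k (Sk k))) (gam (KW k (Sc k))) with ha
  set b : FIC := gam (KW k (Sb k)) with hb'
  set c : FIC := gam (KW k (Sc k)) with hc'
  have ra : RR a (CC k ++ [2, 2]) ([1, 1] ++ (CC k ++ [2, 2])) := ⟨rk, rc'⟩
  have hac : a ≤ c := FIC.inf_le_right _ _
  have hβb : β ≤ b := le_gam hbW
  have hβc : β ≤ c := le_gam hcW
  have hβa : β ≤ a := FIC.le_inf (le_gam hkW) hβc
  have hsup : (FIC.sup a b).r (FreeMonoid.ofList (CC k)) (FreeMonoid.ofList ([1, 1] ++ CC k)) :=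
    FIC.trans _ (FIC.trans _ (FIC.le_sup_right a b _ _ rb) (FIC.le_sup_left a b _ _ ra))
      (FIC.le_sup_right a b _ _ rb'.symm)
  have hfin := hm a b c hβa hβb hβc hac _ _ hsup rc
  have hinv : ∀ w w' : Word, (FIC.sup a (FIC.inf b c)).r w w' →
      KW k (Sk k) w → KW k (Sk k) w' := by
    intro w w' h
    induction h with
    | refl => exact id
    | tail _ h3 ih =>
      intro hw
      have hw' := ih hw
      rcases h3 with h3 | h3
      · exact (gam_self h3.1).1 hw'
      · unfold KW at hw' ⊢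
        rw [ks_inter hk] at hw' ⊢
        exact ⟨(gam_self h3.1).1 hw'.1, (gam_self h3.2).1 hw'.2⟩
  exact not_ks_dCC (hinv _ _ hfin ks_CC)

end Pool.Agent.Helper44_MVT
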