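import Pool.Agent.Helper44_MVT.Mon
import Pool.Agent.Helper44_MVT.Pen

/-!
What is kept by the identities of `β`.
-/

namespace Pool.Agent.Helper44_MVT

open Pool.Agent.Helper14_MV Pool.Agent.Helper2_MV

theorem p2_split {z y : ℕ} (hzy : z ≠ y) : ∀ {u : List ℕ}, ¬ P2 z y u →
    ∃ A B, u = A ++ B ∧ z ∉ A ∧ y ∉ B := by
  intro u
  induction u with
  | nil => intro _; exact ⟨[], [], rfl, by simp, by simp⟩
  | cons c l ih =>
    intro h
    rw [p2_cons] at h
    push Not at h
    by_cases hc : z = c
    · refine ⟨[], c :: l, rfl, by simp, ?_⟩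
      intro hy
      rcases List.mem_cons.1 hy with hy | hy
      · exact hzy (hc.trans hy.symm)
      · exact h.1 hc hy
    · obtain ⟨A, B, rfl, hA, hB⟩ := ih h.2
      exact ⟨c :: A, B, rfl, by simp [hc, hA], hB⟩

theorem Beta.ncom {β : FIC} (H : Beta β) :
    ¬ cn β 0 * cn β 0 * (cn β 1 * cn β 1) = cn β 1 * cn β 1 * (cn β 0 * cn β 0) := by
  intro h
  apply H.h4
  rw [rr_iff]
  simpa [ev, mul_assoc] using h

/-- the order is kept -/
theorem inv2 {β : FIC} (H : Beta β) {u v : List ℕ} (h : RR β u v) {y z : ℕ} (hyz : y ≠ z)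
    (hn : ¬ P2 z y u) (hy : y ∈ u) (hz : z ∈ u) : ¬ P2 z y v := by
  intro hv
  have key : ∀ X Y : MM β, ZP X Y → X * Y = X * Y * X * Y := by
    intro X Y hZ
    set g : ℕ → MM β := fun c => if c = y then X else if c = z then Y else 1 with hg
    have gy : g y = X := by simp [hg]
    have gz : g z = Y := by simp [hg, Ne.symm hyz]
    have go : ∀ c, g c = X ∨ g c = Y ∨ g c = 1 := by
      intro c
      by_cases h1 : c = y
      · left; rw [h1, gy]
      · by_cases h2 : c = z
        · right; left; rw [h2, gz]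
        · right; right; simp [hg, h1, h2]
    have e0 := ev_eq h g
    have e1 : X * ev g u * Y = X * Y := by
      obtain ⟨A, B, rfl, hA, hB⟩ := p2_split (Ne.symm hyz) hn
      have a1 : X * ev g A = X := by
        apply ev_absR
        intro c hc
        have : c ≠ z := fun e => hA (e ▸ hc)
        by_cases h1 : c = y
        · rw [h1, gy, hZ.hX]
        · simp [hg, h1, this]
      have a2 : ev g B * Y = Y := by
        apply ev_absL
        intro c hc
        have : c ≠ y := fun e => hB (e ▸ hc)
        by_cases h1 : c = z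
        · rw [h1, gz, hZ.hY]
        · simp [hg, h1, this]
      rw [ev_append, mul_assoc, mul_assoc, a2, ← mul_assoc, a1]
    have e2 : X * ev g v * Y = X * Y * X * Y := by
      obtain ⟨A, B, rfl, hB⟩ := p2_iff.1 hv
      obtain ⟨B1, B2, rfl⟩ := List.append_of_mem hB
      have hw : ∀ l : List ℕ, ∀ m ∈ l.map g, m = X ∨ m = Y ∨ m = 1 := by
        intro l m hm
        obtain ⟨c, _, rfl⟩ := List.mem_map.1 hm
        exact go c
      have h4 := hZ.four (hw A) (hw B1) (hw B2)
      rw [← h4, ev_append, ev_cons, ev_append, ev_cons, gz, gy]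
      simp only [ev, mul_assoc]
    calc X * Y = X * ev g u * Y := e1.symm
      _ = X * ev g v * Y := by rw [e0]
      _ = X * Y * X * Y := e2
  have hZ := H.mb.zp (cn β 0) (cn β 1)
  apply H.ncom
  have k1 := key _ _ hZ
  have k2 := key _ _ hZ.symm
  rw [k1, k2]
  exact hZ.hz

theorem ev_single {M : Type*} [Monoid M] (a : M) (y : ℕ) (l : List ℕ) :
    ev (fun c => if c = y then a else 1) l = a ^ l.count y := by
  induction l with
  | nil => simp [ev_nil]
  | cons c l ih =>
    rw [ev_cons, ih]
    by_cases h : c = y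
    · subst h
      simp [pow_succ']
    · rw [List.count_cons_of_ne h]
      simp [h]

theorem p2_self {y : ℕ} {l : List ℕ} : P2 y y l ↔ 2 ≤ l.count y := by
  unfold P2
  exact List.replicate_sublist_iff (n := 2)

/-- multiple letters stay multiple -/
theorem inv1 {β : FIC} (H : Beta β) {u v : List ℕ} (h : RR β u v) {y : ℕ}
    (hy : P2 y y u) : P2 y y v := by
  rw [p2_self] at hy ⊢
  by_contra hcon
  have hp : ∀ (a : MM β) (m : ℕ), 2 ≤ m → a ^ m = a * a := by
    intro a m hm
    obtain ⟨k, rfl⟩ : ∃ k, m = k + 2 := ⟨m - 2, by omega⟩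
    clear hm hcon hy
    induction k with
    | zero => rw [zero_add, pow_two]
    | succ k ih =>
      have e : k + 1 + 2 = (k + 2) + 1 := by omega
      rw [e, pow_succ, ih]
      exact (H.mb.h1 a).symm
  have key : ∀ a : MM β, a * a = a ^ v.count y := by
    intro a
    have := ev_eq h (fun c => if c = y then a else 1)
    rw [ev_single, ev_single, hp a _ hy] at this
    exact this
  have hZ := H.mb.zp (cn β 0) (cn β 1)
  apply H.ncom
  have hc : v.count y = 0 ∨ v.count y = 1 := by omega
  rcases hc with hc | hc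
  · rw [hc] at key
    simp only [pow_zero] at key
    rw [key, key]
  · rw [hc] at key
    simp only [pow_one] at key
    have h1 := key (cn β 0 * cn β 0 * (cn β 1 * cn β 1))
    have h2 := key (cn β 1 * cn β 1 * (cn β 0 * cn β 0))
    rw [← h1, ← h2, ← mul_assoc, ← mul_assoc]
    exact hZ.hz

theorem ev_rep {M : Type*} [Monoid M] {h : ℕ → M} (hi : h 0 * h 0 = h 0) {l : List ℕ}
    (hl : ∀ c ∈ l, c = 0) (hne : l ≠ []) : ev h l = h 0 := by
  induction l with
  | nil => exact absurd rfl hne
  | cons c l ih =>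
    have hc : c = 0 := hl c (by simp)
    subst hc
    rw [ev_cons]
    by_cases h0 : l = []
    · subst h0
      rw [ev_nil, mul_one]
    · rw [ih (fun c hc => hl c (by simp [hc])) h0, hi]

theorem ev_dedup {M : Type*} [Monoid M] {h : ℕ → M} (hi : ∀ c, h c * h c = h c) {l : List ℕ}
    (hl : l.Pairwise (fun a b => a ≤ b)) : ev h l = ev h l.dedup := by
  induction l with
  | nil => rfl
  | cons c l ih =>
    rw [List.pairwise_cons] at hl
    have ih' := ih hl.2
    rw [ev_cons, ih']
    by_cases hc : c ∈ l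
    · rw [List.dedup_cons_of_mem hc, ← ih']
      match l, hc, hl with
      | [], hc, _ => simp at hc
      | d :: l', hc, hl =>
        have h1 : c ≤ d := hl.1 d (by simp)
        have h2 : d ≤ c := by
          rcases List.mem_cons.1 hc with h | h
          · omega
          · exact (List.pairwise_cons.1 hl.2).1 c h
        have h3 : c = d := by omega
        subst h3
        rw [ev_cons, ← mul_assoc, hi]
    · rw [List.dedup_cons_of_notMem hc, ev_cons]

theorem sorted_eq {R : ℕ} {m : List ℕ} (hs : m.Pairwise (fun a b => a ≤ b))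
    (hm : ∀ c, c ∈ m ↔ 1 ≤ c ∧ c ≤ R) : m.dedup = List.range' 1 R := by
  have h1 : m.dedup.Pairwise (fun a b => a ≤ b) := hs.sublist (List.dedup_sublist m)
  have h2 : (List.range' 1 R).Pairwise (fun a b => a ≤ b) :=
    (List.pairwise_lt_range' (s := 1) (n := R)).imp (fun h => le_of_lt h)
  refine List.Perm.eq_of_pairwise (fun a b _ _ q1 q2 => le_antisymm q1 q2) h1 h2 ?_
  rw [List.perm_ext_iff_of_nodup (List.nodup_dedup m) List.nodup_range']
  intro a
  rw [List.mem_dedup, hm, mem_rg]
  omega

theorem pw_of {m : List ℕ} (h : ∀ i j, i < j → ¬ P2 j i m) :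
    m.Pairwise (fun a b => a ≤ b) := by
  induction m with
  | nil => exact List.Pairwise.nil
  | cons c l ih =>
    rw [List.pairwise_cons]
    refine ⟨?_, ih (fun i j hij hp => h i j hij (p2_cons.2 (Or.inr hp)))⟩
    intro a ha
    by_contra hlt
    exact h a c (by omega) (p2_cons.2 (Or.inl ⟨rfl, ha⟩))

/-- normal form -/
theorem nf {M : Type*} [Monoid M] {h : ℕ → M} (hi : ∀ c, h c * h c = h c) {R : ℕ}
    (hR : 1 ≤ R) {L : List ℕ} (hL : ∀ c ∈ L, c ≤ R) (hm : ∀ c, c ≤ R → c ∈ L)
    (hs : ∀ i j, 1 ≤ i → i < j → ¬ P2 j i L) (hz : ∀ i j, 1 ≤ i → 1 ≤ j → ¬ P3 i 0 j L)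
    (h0 : P2 0 1 L) (h0' : P2 1 0 L) : ev h L = ev h (0 :: (List.range' 1 R ++ [0])) := by
  have hA0 : ∀ c ∈ L.takeWhile (fun c => decide (c = 0)), c = 0 := by
    intro c hc
    simpa using List.mem_takeWhile_imp hc
  have eL : L.takeWhile (fun c => decide (c = 0)) ++ L.dropWhile (fun c => decide (c = 0)) = L :=
    List.takeWhile_append_dropWhile
  set A := L.takeWhile (fun c => decide (c = 0)) with hA
  set L1 := L.dropWhile (fun c => decide (c = 0)) with hL1
  have em : L1.takeWhile (fun c => decide (c ≠ 0)) ++ L1.dropWhile (fun c => decide (c ≠ 0)) = L1 :=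
    List.takeWhile_append_dropWhile
  have hm0 : ∀ c ∈ L1.takeWhile (fun c => decide (c ≠ 0)), c ≠ 0 := by
    intro c hc
    simpa using List.mem_takeWhile_imp hc
  set m := L1.takeWhile (fun c => decide (c ≠ 0)) with hmdef
  set C := L1.dropWhile (fun c => decide (c ≠ 0)) with hC
  have hLe : L = A ++ (m ++ C) := by rw [em, eL]
  -- head of L1
  have h1L : 1 ∈ L := hm 1 hR
  have h1A : 1 ∉ A := fun hc => absurd (hA0 1 hc) (by omega)
  have h1L1 : 1 ∈ L1 := by
    rw [← eL] at h1L
    rcases List.mem_append.1 h1L with q | q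
    · exact absurd q h1A
    · exact q
  obtain ⟨i0, t, ht⟩ : ∃ i0 t, L1 = i0 :: t := by
    cases hh : L1 with
    | nil => rw [hh] at h1L1; simp at h1L1
    | cons a b => exact ⟨a, b, rfl⟩
  have hi0 : i0 ≠ 0 := by
    have := List.head?_dropWhile_not (fun c => decide (c = 0)) L
    rw [← hL1, ht] at this
    simpa using this
  have hi0m : i0 ∈ m := by
    rw [hmdef, ht, List.takeWhile_cons_of_pos (by simpa using hi0)]
    simp
  have hC0 : ∀ c ∈ C, c = 0 := by
    intro c hc
    by_contra hne
    cases hh : C with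
    | nil => rw [hh] at hc; simp at hc
    | cons a b =>
      have ha : a = 0 := by
        have := List.head?_dropWhile_not (fun c => decide (c ≠ 0)) L1
        rw [← hC, hh] at this
        simpa using this
      rw [hh] at hc
      rcases List.mem_cons.1 hc with q | q
      · exact hne (q.trans ha)
      · refine hz i0 c (by omega) (by omega) ?_
        rw [hLe, hh, ha]
        refine p3_iff.2 ⟨A ++ m, b, by simp, by simp [hi0m], q⟩
  have h1C : 1 ∉ C := fun hc => absurd (hC0 1 hc) (by omega)
  have h0m : 0 ∉ m := fun hc => hm0 0 hc rfl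
  have hAne : A ≠ [] := by
    intro hc
    rw [hLe, hc, List.nil_append] at h0
    exact ns h0m h1C h0
  have hCne : C ≠ [] := by
    intro hc
    rw [hLe, hc, List.append_nil] at h0'
    exact ns h1A h0m h0'
  have hmm : ∀ c, c ∈ m ↔ 1 ≤ c ∧ c ≤ R := by
    intro c
    constructor
    · intro hc
      refine ⟨Nat.one_le_iff_ne_zero.2 (hm0 c hc), hL c ?_⟩
      rw [hLe]
      simp [hc]
    · rintro ⟨q1, q2⟩
      have := hm c q2
      rw [hLe] at this
      rcases List.mem_append.1 this with q | q
      · exact absurd (hA0 c q) (by omega)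
      · rcases List.mem_append.1 q with q | q
        · exact q
        · exact absurd (hC0 c q) (by omega)
  have hpw : m.Pairwise (fun a b => a ≤ b) := by
    apply pw_of
    intro i j hij hp
    have hi1 : 1 ≤ i := ((hmm i).1 (p2_mem hp).2).1
    refine hs i j hi1 hij (p2_sub hp ?_)
    rw [hLe]
    exact (List.sublist_append_left m C).trans (List.sublist_append_right A _)
  rw [hLe, ev_append, ev_append, ev_rep (hi 0) hA0 hAne, ev_rep (hi 0) hC0 hCne,
    ev_dedup hi hpw, sorted_eq hpw hmm, ev_cons, ev_append, ev_cons, ev_nil, mul_one]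

end Pool.Agent.Helper44_MVT
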