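import Pool.Agent.Helper44_MVT.Wds

/-!
The two counting lemmas.
-/

namespace Pool.Agent.Helper44_MVT

open Pool.Agent.Helper14_MV Pool.Agent.Helper2_MV

/-- the square of the image of a letter -/
def sf (φ : ℕ → List ℕ) (c : ℕ) : List ℕ := φ c ++ φ c

theorem mem_sf {φ : ℕ → List ℕ} {c y : ℕ} : y ∈ sf φ c ↔ y ∈ φ c := by simp [sf]

/-- the image of the middle part -/
def MW (k : ℕ) (φ : ℕ → List ℕ) (Q : List ℕ) : List ℕ :=
  sf φ 1 ++ ((List.range' 3 k).flatMap (sf φ) ++ (sf φ 2 ++ (sf φ 1 ++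
    ((List.range' (3 + k) k).flatMap (sf φ) ++ (sf φ 2 ++ Q)))))

theorem p2_total {a b : ℕ} (hab : a ≠ b) : ∀ {l : List ℕ}, a ∈ l → b ∈ l →
    P2 a b l ∨ P2 b a l := by
  intro l
  induction l with
  | nil => intro h; simp at h
  | cons c l ih =>
    intro ha hb
    rw [p2_cons, p2_cons]
    rcases List.mem_cons.1 ha with ha | ha
    · rcases List.mem_cons.1 hb with hb | hb
      · exact absurd (ha.trans hb.symm) hab
      · exact Or.inl (Or.inl ⟨ha, hb⟩)
    · rcases List.mem_cons.1 hb with hb | hb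
      · exact Or.inr (Or.inl ⟨hb, ha⟩)
      · rcases ih ha hb with h | h
        · exact Or.inl (Or.inr h)
        · exact Or.inr (Or.inr h)

theorem p2_rg {s n g g' : ℕ} (h1 : s ≤ g') (h2 : g' < g) (h3 : g < s + n) :
    P2 g' g (List.range' s n) := by
  rcases p2_total (a := g') (b := g) (by omega) (l := List.range' s n)
    (mem_rg.2 ⟨by omega, by omega⟩) (mem_rg.2 ⟨by omega, by omega⟩) with h | h
  · exact h
  · have := p2_range' h
    omega

theorem p2_flatMap {φ : ℕ → List ℕ} {c c' g g' : ℕ} {l : List ℕ} (h : P2 g' g l)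
    (hc' : c' ∈ φ g') (hc : c ∈ φ g) : P2 c' c (l.flatMap (sf φ)) := by
  obtain ⟨A, B, rfl, hg⟩ := p2_iff.1 h
  rw [List.flatMap_append, List.flatMap_cons, p2_append]
  right; right
  rw [p2_append]
  right; left
  exact ⟨mem_sf.2 hc', List.mem_flatMap.2 ⟨g, hg, mem_sf.2 hc⟩⟩

/-- the image of a factor is before the image of a later one, a square has both orders -/
theorem p2_fac {φ : ℕ → List ℕ} {s n c c' g g' : ℕ} (h1 : s ≤ g') (h2 : g' ≤ g)
    (h3 : g < s + n) (hc' : c' ∈ φ g') (hc : c ∈ φ g) :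
    P2 c' c ((List.range' s n).flatMap (sf φ)) := by
  rcases Nat.lt_or_ge g' g with h | h
  · exact p2_flatMap (p2_rg h1 h h3) hc' hc
  · have : g' = g := by omega
    subst this
    have hm : g' ∈ List.range' s n := mem_rg.2 ⟨h1, h3⟩
    obtain ⟨A, B, hAB⟩ := List.append_of_mem hm
    rw [hAB, List.flatMap_append, List.flatMap_cons, p2_append]
    right; right
    rw [p2_append]
    left
    unfold sf
    rw [p2_append]
    exact Or.inr (Or.inl ⟨hc', hc⟩)

theorem mem_fm {φ : ℕ → List ℕ} {s n c : ℕ} (h : c ∈ (List.range' s n).flatMap (sf φ)) :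
    ∃ g, s ≤ g ∧ g < s + n ∧ c ∈ φ g := by
  obtain ⟨g, hg, hc⟩ := List.mem_flatMap.1 h
  exact ⟨g, (mem_rg.1 hg).1, (mem_rg.1 hg).2, mem_sf.1 hc⟩

/-- first counting lemma -/
theorem kb1 {k : ℕ} (hk : 1 ≤ k) (φ : ℕ → List ℕ) {P Q u : List ℕ} (hu : u = P ++ MW k φ Q)
    (H2 : ∀ y z, y ≤ 2 * k + 2 → z ≤ 2 * k + 2 → (P2 y z u ↔ P2 y z (CC k)))
    (hQ : ∀ y, 2 ≤ y → y ≤ 2 * k + 2 → y ∉ Q)
    (h3 : 3 ∈ φ 1) : False := by
  have hmem : ∀ c, c ≤ 2 * k + 2 → c ∈ u := fun c hc =>
    (p2_mem ((H2 c c hc hc).2 (cc_self hc))).1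
  have hE : ∀ c, 2 ≤ c → c ≤ 2 * k + 2 → c ≠ 3 → c ∉ P ++ (sf φ 1 ++
      ((List.range' 3 k).flatMap (sf φ) ++ (sf φ 2 ++ sf φ 1))) ∧
        ∃ g, 3 + k ≤ g ∧ g < 3 + k + k ∧ c ∈ φ g := by
    intro c hc1 hc2 hc3
    have hn : ¬ P2 c 3 u := by
      rw [H2 c 3 hc2 (by omega)]
      by_cases h2 : c = 2
      · subst h2
        exact cc_a_b (by omega) (by omega)
      · exact cc_chain (by omega) (by omega)
    have e1 : u = (P ++ (sf φ 1 ++ ((List.range' 3 k).flatMap (sf φ) ++ (sf φ 2 ++ φ 1)))) ++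
        (φ 1 ++ ((List.range' (3 + k) k).flatMap (sf φ) ++ (sf φ 2 ++ Q))) := by
      rw [hu]
      unfold MW
      simp only [sf, List.append_assoc]
    have hL : c ∉ P ++ (sf φ 1 ++ ((List.range' 3 k).flatMap (sf φ) ++ (sf φ 2 ++ φ 1))) := by
      intro h
      apply hn
      rw [e1, p2_append]
      exact Or.inr (Or.inl ⟨h, by simp [h3]⟩)
    have h1 : c ∉ φ 1 := fun h => hL (by simp [h])
    have h2 : c ∉ φ 2 := fun h => hL (by simp [mem_sf, h])
    have hcu := hmem c hc2
    rw [e1, List.mem_append] at hcu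
    refine ⟨?_, ?_⟩
    · intro h
      apply hL
      simp only [List.mem_append, mem_sf] at h ⊢
      exact h
    · rcases hcu with h | h
      · exact absurd h hL
      · simp only [List.mem_append, mem_sf] at h
        rcases h with h | h | h | h
        · exact absurd h h1
        · exact mem_fm h
        · exact absurd h h2
        · exact absurd h (hQ c hc1 hc2)
  have hEu : ((List.range' (3 + k) k).flatMap (sf φ)).Sublist u := by
    rw [hu]
    unfold MW
    refine List.Sublist.trans ?_ (List.sublist_append_right _ _)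
    refine List.Sublist.trans ?_ (List.sublist_append_right _ _)
    refine List.Sublist.trans ?_ (List.sublist_append_right _ _)
    refine List.Sublist.trans ?_ (List.sublist_append_right _ _)
    refine List.Sublist.trans ?_ (List.sublist_append_right _ _)
    exact List.sublist_append_left _ _
  -- two chain letters are never in the same factor
  have hinj : ∀ c c' g, 3 ≤ c → c < c' → c' ≤ 2 * k + 2 → 3 + k ≤ g → g < 3 + k + k →
      c ∈ φ g → c' ∈ φ g → False := by
    intro c c' g hc hcc hc' hg1 hg2 hm hm'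
    have h1 : P2 c' c u := p2_sub (p2_fac hg1 (le_refl g) hg2 hm' hm) hEu
    exact cc_chain hc hcc ((H2 c' c hc' (by omega)).1 h1)
  by_cases hk2 : 2 ≤ k
  · have hch : ∀ c, c ∈ Finset.Icc 4 (2 * k + 2) → ∃ g ∈ Finset.Ico (3 + k) (3 + k + k),
        c ∈ φ g := by
      intro c hc
      rw [Finset.mem_Icc] at hc
      obtain ⟨g, h1, h2, h3'⟩ := (hE c (by omega) hc.2 (by omega)).2
      exact ⟨g, Finset.mem_Ico.2 ⟨h1, h2⟩, h3'⟩
    choose! g hg using hch
    obtain ⟨c, hc, c', hc', hne, heq⟩ := Finset.exists_ne_map_eq_of_card_lt_of_maps_to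
      (s := Finset.Icc 4 (2 * k + 2)) (t := Finset.Ico (3 + k) (3 + k + k)) (f := g)
      (by simp only [Nat.card_Ico, Nat.card_Icc]; omega) (fun c hc => (hg c hc).1)
    have h1 := hg c hc
    have h2 := hg c' hc'
    rw [Finset.mem_Icc] at hc hc'
    rw [Finset.mem_Ico] at h1 h2
    rcases Nat.lt_or_gt_of_ne hne with h | h
    · exact hinj c c' (g c) (by omega) h (by omega) h1.1.1 h1.1.2 h1.2 (heq ▸ h2.2)
    · exact hinj c' c (g c') (by omega) h (by omega) h2.1.1 h2.1.2 h2.2 (heq ▸ h1.2)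
  · have hk1 : k = 1 := by omega
    subst hk1
    obtain ⟨g4, g41, g42, h4⟩ := (hE 4 (by omega) (by omega) (by omega)).2
    have e4 : g4 = 4 := by omega
    subst e4
    have h2E := hE 2 (by omega) (by omega) (by omega)
    have e1 : u = (P ++ (sf φ 1 ++ ((List.range' 3 1).flatMap (sf φ) ++ (sf φ 2 ++ sf φ 1)))) ++
        (φ 4 ++ (φ 4 ++ (sf φ 2 ++ Q))) := by
      rw [hu]
      unfold MW
      have : (List.range' (3 + 1) 1).flatMap (sf φ) = φ 4 ++ φ 4 := by
        simp [sf, List.range'_one]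
      rw [this]
      simp only [List.append_assoc]
    have h41 : ¬ P2 4 1 u := by
      rw [H2 4 1 (by omega) (by omega)]
      exact cc_e_d (by omega)
    have h21 : P2 2 1 u := (H2 2 1 (by omega) (by omega)).2 cc_a_d
    rw [e1] at h21
    refine ns h2E.1 ?_ h21
    intro h
    apply h41
    rw [e1, p2_append]
    right; right
    rcases List.mem_append.1 h with h | h
    · rw [p2_append]
      right; left
      exact ⟨h4, by simp [h]⟩
    · rw [p2_append]
      right; left
      exact ⟨h4, h⟩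

/-- a strictly increasing map of an interval into itself -/
theorem mono_id {n : ℕ} {g : ℕ → ℕ} (h1 : ∀ c, 3 ≤ c → c ≤ n → 3 ≤ g c ∧ g c ≤ n)
    (h2 : ∀ c c', 3 ≤ c → c < c' → c' ≤ n → g c < g c') : ∀ c, 3 ≤ c → c ≤ n → g c = c := by
  have hle : ∀ d, 3 + d ≤ n → 3 + d ≤ g (3 + d) := by
    intro d
    induction d with
    | zero => intro h; exact (h1 3 (by omega) h).1
    | succ d ih =>
      intro h
      have := ih (by omega)
      have := h2 (3 + d) (3 + (d + 1)) (by omega) (by omega) h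
      omega
  have hge : ∀ d, 3 + d ≤ n → g (n - d) + d ≤ n := by
    intro d
    induction d with
    | zero => intro h; exact (h1 n (by omega) (le_refl n)).2
    | succ d ih =>
      intro h
      have := ih (by omega)
      have := h2 (n - (d + 1)) (n - d) (by omega) (by omega) (by omega)
      omega
  intro c hc1 hc2
  have q1 := hle (c - 3) (by omega)
  have q2 := hge (n - c) (by omega)
  have e1 : 3 + (c - 3) = c := by omega
  have e2 : n - (n - c) = c := by omega
  rw [e1] at q1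
  rw [e2] at q2
  omega

/-- second counting lemma -/
theorem kbi {k : ℕ} (hk : 1 ≤ k) (φ : ℕ → List ℕ) {P Q u : List ℕ} (hu : u = P ++ MW k φ Q)
    (H2 : ∀ y z, y ≤ 2 * k + 2 → z ≤ 2 * k + 2 → (P2 y z u ↔ P2 y z (CC k)))
    (hP : ∀ y, 1 ≤ y → y ≤ 2 * k + 2 → y ∉ P)
    (hQ : ∀ y, 1 ≤ y → y ≤ 2 * k + 2 → y ∉ Q)
    (h2 : ∀ y, 1 ≤ y → y ≤ 2 * k + 2 → y ∉ φ 2)
    (h3 : 3 ∉ φ 1) : False := by
  have hmem : ∀ c, c ≤ 2 * k + 2 → c ∈ u := fun c hc =>
    (p2_mem ((H2 c c hc hc).2 (cc_self hc))).1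
  have hBu : ((List.range' 3 k).flatMap (sf φ)).Sublist u := by
    rw [hu]
    unfold MW
    refine List.Sublist.trans ?_ (List.sublist_append_right _ _)
    refine List.Sublist.trans ?_ (List.sublist_append_right _ _)
    exact List.sublist_append_left _ _
  have hEu : ((List.range' (3 + k) k).flatMap (sf φ)).Sublist u := by
    rw [hu]
    unfold MW
    refine List.Sublist.trans ?_ (List.sublist_append_right _ _)
    refine List.Sublist.trans ?_ (List.sublist_append_right _ _)
    refine List.Sublist.trans ?_ (List.sublist_append_right _ _)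
    refine List.Sublist.trans ?_ (List.sublist_append_right _ _)
    refine List.Sublist.trans ?_ (List.sublist_append_right _ _)
    exact List.sublist_append_left _ _
  have hBE : ∀ c c' g g', 3 ≤ g' → g' < 3 + k → 3 + k ≤ g → g < 3 + k + k → c' ∈ φ g' →
      c ∈ φ g → P2 c' c u := by
    intro c c' g g' q1 q2 q3 q4 m1 m2
    rw [hu, p2_append]
    right; right
    unfold MW
    rw [p2_append]
    right; right
    rw [p2_append]
    right; left
    refine ⟨List.mem_flatMap.2 ⟨g', mem_rg.2 ⟨q1, q2⟩, mem_sf.2 m1⟩, ?_⟩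
    simp only [List.mem_append]
    right; right; left
    exact List.mem_flatMap.2 ⟨g, mem_rg.2 ⟨q3, q4⟩, mem_sf.2 m2⟩
  have hfac : ∀ c c' g g', 3 ≤ g' → g' ≤ g → g ≤ 2 * k + 2 → c' ∈ φ g' → c ∈ φ g →
      P2 c' c u := by
    intro c c' g g' q1 q2 q3 m1 m2
    by_cases r1 : g < 3 + k
    · exact p2_sub (p2_fac q1 q2 r1 m1 m2) hBu
    · by_cases r2 : g' < 3 + k
      · exact hBE c c' g g' q1 r2 (by omega) (by omega) m1 m2
      · exact p2_sub (p2_fac (by omega) q2 (by omega) m1 m2) hEu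
  -- no chain letter in `φ 1`
  have hn1 : ∀ c, 3 ≤ c → c ≤ 2 * k + 2 → c ∉ φ 1 := by
    intro c hc1 hc2 h
    by_cases hc : c = 3
    · exact h3 (hc ▸ h)
    · have hn : ¬ P2 c 3 u := by
        rw [H2 c 3 hc2 (by omega)]
        exact cc_chain (by omega) (by omega)
      apply hn
      have h3u := hmem 3 (by omega)
      rw [hu] at h3u ⊢
      unfold MW at h3u ⊢
      rw [p2_append]
      right; right
      rw [p2_append]
      right; left
      refine ⟨mem_sf.2 h, ?_⟩
      rcases List.mem_append.1 h3u with q | q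
      · exact absurd q (hP 3 (by omega) (by omega))
      · rcases List.mem_append.1 q with q | q
        · exact absurd (mem_sf.1 q) h3
        · exact q
  have hch : ∀ c, 3 ≤ c → c ≤ 2 * k + 2 → ∃ g, (3 ≤ g ∧ g ≤ 2 * k + 2) ∧ c ∈ φ g := by
    intro c hc1 hc2
    have h := hmem c hc2
    rw [hu] at h
    unfold MW at h
    simp only [List.mem_append, mem_sf] at h
    rcases h with h | h | h | h | h | h | h | h
    · exact absurd h (hP c (by omega) hc2)
    · exact absurd h (hn1 c hc1 hc2)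
    · obtain ⟨g, g1, g2, g3⟩ := mem_fm h
      exact ⟨g, ⟨by omega, by omega⟩, g3⟩
    · exact absurd h (h2 c (by omega) hc2)
    · exact absurd h (hn1 c hc1 hc2)
    · obtain ⟨g, g1, g2, g3⟩ := mem_fm h
      exact ⟨g, ⟨by omega, by omega⟩, g3⟩
    · exact absurd h (h2 c (by omega) hc2)
    · exact absurd h (hQ c (by omega) hc2)
  choose! g hg using hch
  have hid := mono_id (n := 2 * k + 2) (g := g) (fun c q1 q2 => (hg c q1 q2).1) (by
    intro c c' q1 q2 q3
    by_contra hcon
    have h1 := hg c q1 (by omega)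
    have h1' := hg c' (by omega) q3
    have := hfac c c' (g c) (g c') h1'.1.1 (by omega) h1.1.2 h1'.2 h1.2
    exact cc_chain q1 q2 ((H2 c' c q3 (by omega)).1 this))
  have hself : ∀ c, 3 ≤ c → c ≤ 2 * k + 2 → c ∈ φ c := by
    intro c q1 q2
    have := (hg c q1 q2).2
    rwa [hid c q1 q2] at this
  have hbk := hself (k + 2) (by omega) (by omega)
  have hek := hself (k + 3) (by omega) (by omega)
  have n2 : ¬ P2 2 (k + 2) u := by
    rw [H2 2 (k + 2) (by omega) (by omega)]
    exact cc_a_b (by omega) (by omega)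
  have nk : ¬ P2 (k + 3) 1 u := by
    rw [H2 (k + 3) 1 (by omega) (by omega)]
    exact cc_e_d (by omega)
  have h21 : P2 2 1 u := (H2 2 1 (by omega) (by omega)).2 cc_a_d
  have e1 : u = (P ++ (sf φ 1 ++ ((List.range' 3 k).flatMap (sf φ) ++ (sf φ 2 ++ sf φ 1)))) ++
      ((List.range' (3 + k) k).flatMap (sf φ) ++ (sf φ 2 ++ Q)) := by
    rw [hu]
    unfold MW
    simp only [List.append_assoc]
  have h21' : 2 ∉ φ 1 := by
    intro h
    apply n2
    rw [hu]
    unfold MW
    rw [p2_append]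
    right; right
    rw [p2_append]
    right; left
    refine ⟨mem_sf.2 h, ?_⟩
    rw [List.mem_append]
    left
    exact List.mem_flatMap.2 ⟨k + 2, mem_rg.2 ⟨by omega, by omega⟩, mem_sf.2 hbk⟩
  have hM : 2 ∉ P ++ (sf φ 1 ++ ((List.range' 3 k).flatMap (sf φ) ++ (sf φ 2 ++ sf φ 1))) := by
    intro h
    simp only [List.mem_append, mem_sf] at h
    rcases h with h | h | h | h | h
    · exact hP 2 (by omega) (by omega) h
    · exact h21' h
    · obtain ⟨e, q1, q2, q3⟩ := mem_fm h
      exact n2 (hfac (k + 2) 2 (k + 2) e q1 (by omega) (by omega) q3 hbk)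
    · exact h2 2 (by omega) (by omega) h
    · exact h21' h
  rw [e1] at h21
  refine ns hM ?_ h21
  intro h
  simp only [List.mem_append, mem_sf] at h
  rcases h with h | h | h
  · obtain ⟨e, q1, q2, q3⟩ := mem_fm h
    exact nk (hfac 1 (k + 3) e (k + 3) (by omega) (by omega) (by omega) hek q3)
  · exact h2 1 (by omega) (by omega) h
  · exact hQ 1 (by omega) (by omega) h

end Pool.Agent.Helper44_MVT
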