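import Pool.Agent.Helper44_MVT.Clo

/-!
The mirror image.
-/

namespace Pool.Agent.Helper44_MVT

open Pool.Agent.Helper14_MV Pool.Agent.Helper2_MV

/-- the renaming of the mirror image -/
def sg (k c : ℕ) : ℕ :=
  if c = 0 then 0 else if c = 1 then 2 else if c = 2 then 1 else
    if c ≤ 2 * k + 2 then 2 * k + 5 - c else c

theorem sg_sg (k c : ℕ) : sg k (sg k c) = c := by
  by_cases h0 : c = 0
  · subst h0; simp [sg]
  by_cases h1 : c = 1
  · subst h1; simp [sg]
  by_cases h2 : c = 2
  · subst h2; simp [sg]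
  by_cases h3 : c ≤ 2 * k + 2
  · have e : sg k c = 2 * k + 5 - c := by
      unfold sg
      rw [if_neg h0, if_neg h1, if_neg h2, if_pos h3]
    rw [e]
    unfold sg
    rw [if_neg (by omega), if_neg (by omega), if_neg (by omega), if_pos (by omega)]
    omega
  · have e : sg k c = c := by
      unfold sg
      rw [if_neg h0, if_neg h1, if_neg h2, if_neg h3]
    rw [e, e]

theorem sg_eq_iff {k a b : ℕ} : sg k a = b ↔ a = sg k b := by
  constructor
  · intro h; rw [← h, sg_sg]
  · intro h; rw [h, sg_sg]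

/-- the mirror image of a word -/
def mr (k : ℕ) (u : List ℕ) : List ℕ := (u.map (sg k)).reverse

theorem mr_append (k : ℕ) (A B : List ℕ) : mr k (A ++ B) = mr k B ++ mr k A := by
  simp [mr]

theorem mem_map_sg {k b : ℕ} {l : List ℕ} : b ∈ l.map (sg k) ↔ sg k b ∈ l := by
  rw [List.mem_map]
  constructor
  · rintro ⟨a, ha, rfl⟩
    rwa [sg_sg]
  · intro h
    exact ⟨sg k b, h, sg_sg k b⟩

theorem p2_map_sg {k a b : ℕ} {l : List ℕ} : P2 a b (l.map (sg k)) ↔ P2 (sg k a) (sg k b) l := by
  induction l with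
  | nil => exact ⟨fun h => absurd h not_p2_nil, fun h => absurd h not_p2_nil⟩
  | cons c l ih =>
    rw [List.map_cons, p2_cons, p2_cons, ih, mem_map_sg]
    have : a = sg k c ↔ sg k a = c := by rw [sg_eq_iff]
    rw [this]

theorem p3_map_sg {k a x b : ℕ} {l : List ℕ} :
    P3 a x b (l.map (sg k)) ↔ P3 (sg k a) (sg k x) (sg k b) l := by
  induction l with
  | nil => exact ⟨fun h => absurd h not_p3_nil, fun h => absurd h not_p3_nil⟩
  | cons c l ih =>
    rw [List.map_cons, p3_cons, p3_cons, ih, p2_map_sg]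
    have : a = sg k c ↔ sg k a = c := by rw [sg_eq_iff]
    rw [this]

theorem p2_mr {k a b : ℕ} {l : List ℕ} : P2 a b (mr k l) ↔ P2 (sg k b) (sg k a) l := by
  unfold mr
  rw [p2_reverse, p2_map_sg]

theorem p3_mr {k a x b : ℕ} {l : List ℕ} :
    P3 a x b (mr k l) ↔ P3 (sg k b) (sg k x) (sg k a) l := by
  unfold mr
  rw [p3_reverse, p3_map_sg]

theorem mr_mr (k : ℕ) (l : List ℕ) : mr k (mr k l) = l := by
  unfold mr
  rw [List.map_reverse, List.reverse_reverse, List.map_map]
  have : (sg k ∘ sg k) = id := by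
    funext c
    exact sg_sg k c
  rw [this, List.map_id]

theorem mr_dbl (k : ℕ) (l : List ℕ) : mr k (dbl l) = dbl (mr k l) := by
  induction l with
  | nil => rfl
  | cons c l ih =>
    have e1 : dbl (c :: l) = [c, c] ++ dbl l := by rw [dbl_cons]; rfl
    have e2 : mr k (c :: l) = mr k l ++ mr k [c] := by
      rw [← mr_append]; rfl
    rw [e1, mr_append, ih, e2, dbl_append]
    rfl

theorem mr_rg1 (k : ℕ) : mr k (List.range' 3 k) = List.range' (3 + k) k := by
  unfold mr
  apply List.ext_getElem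
  · simp
  · intro i h1 h2
    simp only [List.length_reverse, List.length_map, List.length_range'] at h1 h2
    rw [List.getElem_reverse, List.getElem_map, List.getElem_range', List.getElem_range']
    simp only [List.length_map, List.length_range']
    unfold sg
    split_ifs <;> omega

theorem mr_rg2 (k : ℕ) : mr k (List.range' (3 + k) k) = List.range' 3 k := by
  rw [← mr_rg1, mr_mr]

theorem mr_cw (k : ℕ) : mr k (cw k) = cw k := by
  have e : cw k = [0, 1] ++ (List.range' 3 k ++ ([2, 1] ++ (List.range' (3 + k) k ++ [2, 0]))) := by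
    unfold cw ww
    simp
  have h0 : mr k [0, 1] = [2, 0] := by simp [mr, sg]
  have h1 : mr k [2, 1] = [2, 1] := by simp [mr, sg]
  have h2 : mr k [2, 0] = [0, 1] := by simp [mr, sg]
  rw [e]
  simp only [mr_append, mr_rg1, mr_rg2, h0, h1, h2, List.append_assoc]

theorem mr_CC (k : ℕ) : mr k (CC k) = CC k := by
  unfold CC
  rw [mr_dbl, mr_cw]

theorem mr_flatMap (k : ℕ) (φ : ℕ → List ℕ) (l : List ℕ) :
    mr k (l.flatMap φ) = (mr k l).flatMap (fun c => mr k (φ (sg k c))) := by
  induction l with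
  | nil => rfl
  | cons c l ih =>
    have e2 : mr k (c :: l) = mr k l ++ [sg k c] := by
      have : c :: l = [c] ++ l := rfl
      rw [this, mr_append]
      rfl
    rw [List.flatMap_cons, mr_append, ih, e2, List.flatMap_append]
    congr 1
    simp [sg_sg]

theorem sg_le {k c : ℕ} (h : c ≤ 2 * k + 2) : sg k c ≤ 2 * k + 2 := by
  unfold sg
  split_ifs <;> omega

theorem ks_mr (k : ℕ) (u : List ℕ) : KS k (Sb k) u ↔ KS k (Sc k) (mr k u) := by
  have hC : ∀ y z, P2 y z (CC k) ↔ P2 (sg k z) (sg k y) (CC k) := by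
    intro y z
    conv_lhs => rw [← mr_CC k]
    exact p2_mr
  have h0 : sg k 0 = 0 := by simp [sg]
  constructor
  · rintro ⟨h1, h2⟩
    refine ⟨?_, ?_⟩
    · intro y z hy hz
      rw [p2_mr, hC y z]
      exact h1 _ _ (sg_le hz) (sg_le hy)
    · intro y z hy hz h3
      rw [p3_mr, h0] at h3
      refine h2 _ _ ?_ ?_ h3
      · obtain ⟨q1, q2⟩ := hz
        unfold Sb sg
        split_ifs <;> omega
      · obtain ⟨q1, q2⟩ := hy
        unfold Sb sg
        split_ifs <;> omega
  · rintro ⟨h1, h2⟩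
    refine ⟨?_, ?_⟩
    · intro y z hy hz
      have := h1 _ _ (sg_le hz) (sg_le hy)
      rw [p2_mr, sg_sg, sg_sg, hC, sg_sg, sg_sg] at this
      exact this
    · intro y z hy hz h3
      refine h2 (sg k z) (sg k y) ?_ ?_ ?_
      · obtain ⟨q1, q2, q3⟩ := hz
        unfold Sc sg
        split_ifs <;> omega
      · obtain ⟨q1, q2, q3⟩ := hy
        unfold Sc sg
        split_ifs <;> omega
      · rw [p3_mr, sg_sg, sg_sg, h0]
        exact h3

theorem stb {k : ℕ} (hk : 1 ≤ k) (φ : ℕ → List ℕ) (p q : List ℕ) :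
    KS k (Sb k) (p ++ ((CC k).flatMap φ ++ q)) ↔
      KS k (Sb k) (p ++ ((CC k).flatMap φ ++ (sf φ 2 ++ q))) := by
  rw [ks_mr, ks_mr]
  have e1 : mr k (p ++ ((CC k).flatMap φ ++ q)) =
      mr k q ++ ((CC k).flatMap (fun c => mr k (φ (sg k c))) ++ mr k p) := by
    rw [mr_append, mr_append, mr_flatMap, mr_CC, List.append_assoc]
  have e2 : mr k (p ++ ((CC k).flatMap φ ++ (sf φ 2 ++ q))) =
      mr k q ++ (sf (fun c => mr k (φ (sg k c))) 1 ++
        ((CC k).flatMap (fun c => mr k (φ (sg k c))) ++ mr k p)) := by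
    have h1 : mr k (sf φ 2) = sf (fun c => mr k (φ (sg k c))) 1 := by
      unfold sf
      rw [mr_append]
      simp [sg]
    rw [mr_append, mr_append, mr_append, mr_flatMap, mr_CC, h1, List.append_assoc,
      List.append_assoc]
  rw [e1, e2]
  exact stc hk _ _ _

end Pool.Agent.Helper44_MVT
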