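import Pool.Agent.Helper44_MVT.Pat

/-!
Evaluation of words in a monoid; idempotents with a common zero.
-/

namespace Pool.Agent.Helper44_MVT

open Pool.Agent.Helper14_MV Pool.Agent.Helper2_MV

section ev

variable {M : Type*} [Monoid M]

/-- value of a list of letters -/
def ev (g : ℕ → M) (l : List ℕ) : M := (l.map g).prod

theorem ev_nil (g : ℕ → M) : ev g [] = 1 := rfl

theorem ev_cons (g : ℕ → M) (c : ℕ) (l : List ℕ) : ev g (c :: l) = g c * ev g l := by
  simp [ev]

theorem ev_append (g : ℕ → M) (l l' : List ℕ) : ev g (l ++ l') = ev g l * ev g l' := by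
  simp [ev]

theorem ev_flatMap (g : ℕ → M) (φ : ℕ → List ℕ) (l : List ℕ) :
    ev g (l.flatMap φ) = ev (fun c => ev g (φ c)) l := by
  induction l with
  | nil => rfl
  | cons c l ih => rw [List.flatMap_cons, ev_append, ih, ev_cons]

theorem ev_dbl (g : ℕ → M) (l : List ℕ) : ev g (dbl l) = ev (fun c => g c * g c) l := by
  unfold dbl
  rw [ev_flatMap]
  congr 1
  funext c
  simp [ev]

theorem ev_congr {g g' : ℕ → M} {l : List ℕ} (h : ∀ c ∈ l, g c = g' c) : ev g l = ev g' l := by
  unfold ev
  rw [List.map_congr_left h]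

theorem ev_one {g : ℕ → M} {l : List ℕ} (h : ∀ c ∈ l, g c = 1) : ev g l = 1 := by
  induction l with
  | nil => rfl
  | cons c l ih =>
    rw [ev_cons, h c (by simp), one_mul]
    exact ih (fun c hc => h c (by simp [hc]))

/-- absorption on the right of `m` -/
theorem ev_absR {g : ℕ → M} {l : List ℕ} {m : M} (h : ∀ c ∈ l, m * g c = m) :
    m * ev g l = m := by
  induction l with
  | nil => rw [ev_nil, mul_one]
  | cons c l ih =>
    rw [ev_cons, ← mul_assoc, h c (by simp)]
    exact ih (fun c hc => h c (by simp [hc]))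

/-- absorption on the left of `m` -/
theorem ev_absL {g : ℕ → M} {l : List ℕ} {m : M} (h : ∀ c ∈ l, g c * m = m) :
    ev g l * m = m := by
  induction l with
  | nil => rw [ev_nil, one_mul]
  | cons c l ih =>
    rw [ev_cons, mul_assoc, ih (fun c hc => h c (by simp [hc]))]
    exact h c (by simp)

end ev

/-- the identities hold in the monoid -/
structure MB (M : Type*) [Monoid M] : Prop where
  h1 : ∀ a : M, a * a = a * a * a
  h2 : ∀ a b : M, a * b * a = a * a * b * a * a
  h3 : ∀ a b : M, (a * a) * (b * b) * (a * a) * (b * b) = (b * b) * (a * a) * (b * b) * (a * a)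

/-- the hypotheses on the fully invariant congruence -/
structure Beta (β : FIC) : Prop where
  h1 : RR β [0, 0] [0, 0, 0]
  h2 : RR β [0, 1, 0] [0, 0, 1, 0, 0]
  h3 : RR β [0, 0, 1, 1, 0, 0, 1, 1] [1, 1, 0, 0, 1, 1, 0, 0]
  h4 : ¬ RR β [0, 0, 1, 1] [1, 1, 0, 0]

/-- the relatively free monoid -/
abbrev MM (β : FIC) : Type := β.con.Quotient

/-- the generators -/
def cn (β : FIC) (c : ℕ) : MM β := β.con.mk' (FreeMonoid.of c)

theorem ev_cn (β : FIC) (l : List ℕ) : ev (cn β) l = β.con.mk' (FreeMonoid.ofList l) := by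
  induction l with
  | nil => simp [ev_nil]
  | cons c l ih =>
    rw [ev_cons, ih, FreeMonoid.ofList_cons, map_mul]
    rfl

theorem rr_iff {β : FIC} {u v : List ℕ} : RR β u v ↔ ev (cn β) u = ev (cn β) v := by
  rw [ev_cn, ev_cn]
  exact (Con.eq β.con).symm

/-- the identities of `β` hold in the relatively free monoid -/
theorem ev_eq {β : FIC} {u v : List ℕ} (h : RR β u v) (g : ℕ → MM β) : ev g u = ev g v := by
  have h1 : Sat β.con.Quotient (FreeMonoid.ofList u) (FreeMonoid.ofList v) := quot_sat β h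
  have h2 := h1 (FreeMonoid.lift g)
  have e : ∀ l : List ℕ, (FreeMonoid.lift g : Word →* MM β) (FreeMonoid.ofList l) = ev g l := by
    intro l
    induction l with
    | nil => simp [ev_nil]
    | cons c l ih =>
      rw [ev_cons, FreeMonoid.ofList_cons, map_mul, ih, FreeMonoid.lift_eval_of]
  rw [e, e] at h2
  exact h2

theorem Beta.mb {β : FIC} (H : Beta β) : MB (MM β) := by
  refine ⟨?_, ?_, ?_⟩
  · intro a
    have := ev_eq H.h1 (fun _ => a)
    simpa [ev, mul_assoc] using this
  · intro a b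
    have := ev_eq H.h2 (fun c => if c = 0 then a else b)
    simpa [ev, mul_assoc] using this
  · intro a b
    have := ev_eq H.h3 (fun c => if c = 0 then a else b)
    simpa [ev, mul_assoc] using this

theorem MB.idem {M : Type*} [Monoid M] (H : MB M) (a : M) : a * a * (a * a) = a * a := by
  rw [← mul_assoc, ← H.h1, ← H.h1]

/-- a pair of idempotents with a zero -/
structure ZP {M : Type*} [Monoid M] (X Y : M) : Prop where
  hX : X * X = X
  hY : Y * Y = Y
  hz : X * Y * X * Y = Y * X * Y * X

theorem MB.zp {M : Type*} [Monoid M] (H : MB M) (a b : M) : ZP (a * a) (b * b) :=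
  ⟨H.idem a, H.idem b, H.h3 a b⟩

namespace ZP

variable {M : Type*} [Monoid M] {X Y : M}

theorem symm (h : ZP X Y) : ZP Y X := ⟨h.hY, h.hX, h.hz.symm⟩

theorem xz (h : ZP X Y) : X * (X * Y * X * Y) = X * Y * X * Y := by
  rw [← mul_assoc, ← mul_assoc, ← mul_assoc, h.hX]

theorem zy (h : ZP X Y) : X * Y * X * Y * Y = X * Y * X * Y := by
  rw [mul_assoc, h.hY]

theorem zx (h : ZP X Y) : X * Y * X * Y * X = X * Y * X * Y := by
  rw [h.hz, mul_assoc, h.hX]

theorem yz (h : ZP X Y) : Y * (X * Y * X * Y) = X * Y * X * Y := by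
  rw [h.hz, ← mul_assoc, ← mul_assoc, ← mul_assoc, h.hY]

theorem zz (h : ZP X Y) : X * Y * X * Y * (X * Y * X * Y) = X * Y * X * Y := by
  rw [← mul_assoc, ← mul_assoc, ← mul_assoc, h.zx, h.zy, h.zx, h.zy]

/-- products of `X` and `Y` between `Y` and `X` -/
theorem word (h : ZP X Y) (l : List M) (hl : ∀ m ∈ l, m = X ∨ m = Y ∨ m = 1) :
    (Y * l.prod * X = Y * X ∨ Y * l.prod * X = X * Y * X * Y) ∧
      (X * l.prod * X = X ∨ X * l.prod * X = X * Y * X ∨ X * l.prod * X = X * Y * X * Y) := by
  induction l with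
  | nil =>
    rw [List.prod_nil, mul_one, mul_one]
    exact ⟨Or.inl rfl, Or.inl h.hX⟩
  | cons m l ih =>
    have ih' := ih (fun m hm => hl m (by simp [hm]))
    rw [List.prod_cons]
    rcases hl m (by simp) with rfl | rfl | rfl
    · constructor
      · have e : Y * (m * l.prod) * m = Y * (m * l.prod * m) := by simp only [mul_assoc]
        rw [e]
        rcases ih'.2 with q | q | q
        · rw [q]; exact Or.inl rfl
        · right
          rw [q, ← mul_assoc, ← mul_assoc]
          exact h.hz.symm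
        · right
          rw [q, h.yz]
      · have e : m * (m * l.prod) * m = (m * m) * l.prod * m := by simp only [mul_assoc]
        rw [e, h.hX]
        exact ih'.2
    · constructor
      · have e : m * (m * l.prod) * X = (m * m) * l.prod * X := by simp only [mul_assoc]
        rw [e, h.hY]
        exact ih'.1
      · have e : X * (m * l.prod) * X = X * (m * l.prod * X) := by simp only [mul_assoc]
        rw [e]
        rcases ih'.1 with q | q
        · right; left
          rw [q, ← mul_assoc]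
        · right; right
          rw [q, h.xz]
    · rw [one_mul]
      exact ih'

theorem wordYX (h : ZP X Y) {l : List M} (hl : ∀ m ∈ l, m = X ∨ m = Y ∨ m = 1) :
    Y * l.prod * X = Y * X ∨ Y * l.prod * X = X * Y * X * Y := (h.word l hl).1

theorem wordXY (h : ZP X Y) {l : List M} (hl : ∀ m ∈ l, m = X ∨ m = Y ∨ m = 1) :
    X * l.prod * Y = X * Y ∨ X * l.prod * Y = X * Y * X * Y := by
  have := (h.symm.word l (fun m hm => by
    rcases hl m hm with q | q | q
    · exact Or.inr (Or.inl q)
    · exact Or.inl q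
    · exact Or.inr (Or.inr q))).1
  rw [← h.hz] at this
  exact this

/-- a product of the form `X … Y … X … Y` is the zero -/
theorem four (h : ZP X Y) {l1 l2 l3 : List M} (h1 : ∀ m ∈ l1, m = X ∨ m = Y ∨ m = 1)
    (h2 : ∀ m ∈ l2, m = X ∨ m = Y ∨ m = 1) (h3 : ∀ m ∈ l3, m = X ∨ m = Y ∨ m = 1) :
    X * l1.prod * Y * l2.prod * X * l3.prod * Y = X * Y * X * Y := by
  have e : X * l1.prod * Y * l2.prod * X * l3.prod * Y =
      (X * l1.prod * Y) * (Y * l2.prod * X) * (X * l3.prod * Y) := by
    have e1 : (X * l1.prod * Y) * (Y * l2.prod * X) * (X * l3.prod * Y) =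
        X * l1.prod * (Y * Y) * l2.prod * (X * X) * l3.prod * Y := by
      simp only [mul_assoc]
    rw [e1, h.hX, h.hY]
  have hz3 : X * Y * (X * Y * X * Y) = X * Y * X * Y := by
    rw [mul_assoc, h.yz, h.xz]
  have hyx : X * Y * X * Y * (Y * X) = X * Y * X * Y := by
    rw [← mul_assoc, h.zy, h.zx]
  rw [e]
  rcases h.wordXY h1 with q1 | q1 <;> rcases h.wordYX h2 with q2 | q2 <;>
    rcases h.wordXY h3 with q3 | q3 <;> rw [q1, q2, q3]
  · have : X * Y * (Y * X) * (X * Y) = X * (Y * Y) * (X * X) * Y := by simp only [mul_assoc]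
    rw [this, h.hX, h.hY]
  · have : X * Y * (Y * X) * (X * Y * X * Y) = X * (Y * (Y * (X * (X * Y * X * Y)))) := by
      simp only [mul_assoc]
    rw [this, h.xz, h.yz, h.yz, h.xz]
  · rw [hz3, ← mul_assoc, h.zx, h.zy]
  · rw [hz3, h.zz]
  · rw [hyx, ← mul_assoc, h.zx, h.zy]
  · rw [hyx, h.zz]
  · rw [h.zz, ← mul_assoc, h.zx, h.zy]
  · rw [h.zz, h.zz]

end ZP

end Pool.Agent.Helper44_MVT
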