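import Pool.Agent.Helper2_MV.Keep

/-!
Patterns of length two and three in lists of natural numbers.
-/

namespace Pool.Agent.Helper44_MVT

open Pool.Agent.Helper14_MV Pool.Agent.Helper2_MV

/-- an occurrence of `a` before an occurrence of `b` -/
def P2 (a b : ℕ) (l : List ℕ) : Prop := List.Sublist [a, b] l

/-- an occurrence of `a` before an occurrence of `x` before an occurrence of `b` -/
def P3 (a x b : ℕ) (l : List ℕ) : Prop := List.Sublist [a, x, b] l

theorem p2_append {a b : ℕ} {A B : List ℕ} :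
    P2 a b (A ++ B) ↔ P2 a b A ∨ (a ∈ A ∧ b ∈ B) ∨ P2 a b B := by
  unfold P2
  constructor
  · intro h
    obtain ⟨l1, l2, h1, h2, h3⟩ := List.sublist_append_iff.1 h
    match l1, h1, h2 with
    | [], h1, _ =>
      rw [List.nil_append] at h1
      subst h1
      exact Or.inr (Or.inr h3)
    | [c], h1, h2 =>
      simp only [List.cons_append, List.nil_append, List.cons.injEq] at h1
      obtain ⟨rfl, rfl⟩ := h1
      exact Or.inr (Or.inl ⟨List.singleton_sublist.1 h2, List.singleton_sublist.1 h3⟩)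
    | [c, d], h1, h2 =>
      simp only [List.cons_append, List.nil_append, List.cons.injEq] at h1
      obtain ⟨rfl, rfl, rfl⟩ := h1
      exact Or.inl h2
    | c :: d :: e :: t, h1, _ =>
      simp at h1
  · rintro (h | ⟨h1, h2⟩ | h)
    · exact h.trans (List.sublist_append_left A B)
    · exact (List.singleton_sublist.2 h1).append (List.singleton_sublist.2 h2)
    · exact h.trans (List.sublist_append_right A B)

theorem p3_append {a x b : ℕ} {A B : List ℕ} :
    P3 a x b (A ++ B) ↔ P3 a x b A ∨ (P2 a x A ∧ b ∈ B) ∨ (a ∈ A ∧ P2 x b B) ∨ P3 a x b B := by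
  unfold P3 P2
  constructor
  · intro h
    obtain ⟨l1, l2, h1, h2, h3⟩ := List.sublist_append_iff.1 h
    match l1, h1, h2 with
    | [], h1, _ =>
      rw [List.nil_append] at h1
      subst h1
      exact Or.inr (Or.inr (Or.inr h3))
    | [c], h1, h2 =>
      simp only [List.cons_append, List.nil_append, List.cons.injEq] at h1
      obtain ⟨rfl, rfl⟩ := h1
      exact Or.inr (Or.inr (Or.inl ⟨List.singleton_sublist.1 h2, h3⟩))
    | [c, d], h1, h2 =>
      simp only [List.cons_append, List.nil_append, List.cons.injEq] at h1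
      obtain ⟨rfl, rfl, rfl⟩ := h1
      exact Or.inr (Or.inl ⟨h2, List.singleton_sublist.1 h3⟩)
    | [c, d, e], h1, h2 =>
      simp only [List.cons_append, List.nil_append, List.cons.injEq] at h1
      obtain ⟨rfl, rfl, rfl, rfl⟩ := h1
      exact Or.inl h2
    | c :: d :: e :: f :: t, h1, _ =>
      simp at h1
  · rintro (h | ⟨h1, h2⟩ | ⟨h1, h2⟩ | h)
    · exact h.trans (List.sublist_append_left A B)
    · exact h1.append (List.singleton_sublist.2 h2)
    · exact (List.singleton_sublist.2 h1).append h2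
    · exact h.trans (List.sublist_append_right A B)

theorem p2_mem {a b : ℕ} {l : List ℕ} (h : P2 a b l) : a ∈ l ∧ b ∈ l :=
  ⟨h.subset (by simp), h.subset (by simp)⟩

theorem p3_mem {a x b : ℕ} {l : List ℕ} (h : P3 a x b l) : a ∈ l ∧ x ∈ l ∧ b ∈ l :=
  ⟨h.subset (by simp), h.subset (by simp), h.subset (by simp)⟩

theorem p3_p2 {a x b : ℕ} {l : List ℕ} (h : P3 a x b l) : P2 a x l ∧ P2 x b l ∧ P2 a b l :=
  ⟨List.Sublist.trans (by simp) h, List.Sublist.trans (by simp) h,
    List.Sublist.trans (by simp) h⟩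

theorem p2_cons {a b c : ℕ} {l : List ℕ} : P2 a b (c :: l) ↔ (a = c ∧ b ∈ l) ∨ P2 a b l := by
  have := p2_append (a := a) (b := b) (A := [c]) (B := l)
  rw [List.singleton_append] at this
  rw [this]
  have h1 : ¬ P2 a b [c] := by
    intro h
    have := h.length_le
    simp at this
  simp only [h1, List.mem_singleton, false_or]

theorem not_p2_nil {a b : ℕ} : ¬ P2 a b [] := by
  intro h
  have := h.length_le
  simp at this

theorem not_p3_nil {a x b : ℕ} : ¬ P3 a x b [] := by
  intro h
  have := h.length_le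
  simp at this

theorem p3_cons {a x b c : ℕ} {l : List ℕ} :
    P3 a x b (c :: l) ↔ (a = c ∧ P2 x b l) ∨ P3 a x b l := by
  have := p3_append (a := a) (x := x) (b := b) (A := [c]) (B := l)
  rw [List.singleton_append] at this
  rw [this]
  have h1 : ¬ P3 a x b [c] := by
    intro h
    have := h.length_le
    simp at this
  have h2 : ¬ P2 a x [c] := by
    intro h
    have := h.length_le
    simp at this
  simp only [h1, h2, List.mem_singleton, false_or, false_and]

theorem p2_sub {a b : ℕ} {l l' : List ℕ} (h : P2 a b l) (hs : l.Sublist l') : P2 a b l' :=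
  h.trans hs

theorem p3_sub {a x b : ℕ} {l l' : List ℕ} (h : P3 a x b l) (hs : l.Sublist l') : P3 a x b l' :=
  h.trans hs

theorem p3_iff {a x b : ℕ} {l : List ℕ} :
    P3 a x b l ↔ ∃ A B, l = A ++ x :: B ∧ a ∈ A ∧ b ∈ B := by
  constructor
  · intro h
    induction l with
    | nil => exact absurd h not_p3_nil
    | cons c l ih =>
      rw [p3_cons] at h
      rcases h with ⟨rfl, h⟩ | h
      · have h1 : ∀ m : List ℕ, P2 x b m → ∃ A B, m = A ++ x :: B ∧ b ∈ B := by
          intro m
          induction m with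
          | nil => intro h; exact absurd h not_p2_nil
          | cons e m ih2 =>
            intro h
            rw [p2_cons] at h
            rcases h with ⟨rfl, h⟩ | h
            · exact ⟨[], m, rfl, h⟩
            · obtain ⟨A, B, rfl, hb⟩ := ih2 h
              exact ⟨e :: A, B, rfl, hb⟩
        obtain ⟨A, B, rfl, hb⟩ := h1 l h
        exact ⟨a :: A, B, rfl, by simp, hb⟩
      · obtain ⟨A, B, rfl, ha, hb⟩ := ih h
        exact ⟨c :: A, B, rfl, by simp [ha], hb⟩
  · rintro ⟨A, B, rfl, ha, hb⟩
    rw [p3_append]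
    right; right; left
    refine ⟨ha, ?_⟩
    rw [p2_cons]
    exact Or.inl ⟨rfl, hb⟩

theorem p2_iff {a b : ℕ} {l : List ℕ} :
    P2 a b l ↔ ∃ A B, l = A ++ a :: B ∧ b ∈ B := by
  constructor
  · intro h
    induction l with
    | nil => exact absurd h not_p2_nil
    | cons c l ih =>
      rw [p2_cons] at h
      rcases h with ⟨rfl, h⟩ | h
      · exact ⟨[], l, rfl, h⟩
      · obtain ⟨A, B, rfl, hb⟩ := ih h
        exact ⟨c :: A, B, rfl, hb⟩
  · rintro ⟨A, B, rfl, hb⟩
    rw [p2_append]
    right; right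
    rw [p2_cons]
    exact Or.inl ⟨rfl, hb⟩

theorem ns {a b : ℕ} {A B : List ℕ} (ha : a ∉ A) (hb : b ∉ B) : ¬ P2 a b (A ++ B) := by
  rw [p2_append]
  rintro (h | h | h)
  · exact ha (p2_mem h).1
  · exact ha h.1
  · exact hb (p2_mem h).2

theorem p2_reverse {a b : ℕ} {l : List ℕ} : P2 a b l.reverse ↔ P2 b a l := by
  unfold P2
  rw [← List.reverse_sublist, List.reverse_reverse]
  rfl

theorem p3_reverse {a x b : ℕ} {l : List ℕ} : P3 a x b l.reverse ↔ P3 b x a l := by
  unfold P3
  rw [← List.reverse_sublist, List.reverse_reverse]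
  rfl

/-- doubling every letter -/
def dbl (l : List ℕ) : List ℕ := l.flatMap (fun c => [c, c])

theorem dbl_append (A B : List ℕ) : dbl (A ++ B) = dbl A ++ dbl B := by
  simp [dbl]

theorem dbl_cons (c : ℕ) (A : List ℕ) : dbl (c :: A) = c :: c :: dbl A := by
  simp [dbl]

theorem dbl_nil : dbl [] = [] := rfl

theorem mem_dbl {c : ℕ} {l : List ℕ} : c ∈ dbl l ↔ c ∈ l := by
  simp [dbl]

theorem dbl_flatMap (l : List ℕ) (g : ℕ → List ℕ) :
    (dbl l).flatMap g = l.flatMap (fun c => g c ++ g c) := by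
  induction l with
  | nil => rfl
  | cons c l ih =>
    rw [dbl_cons, List.flatMap_cons, List.flatMap_cons, ih, List.flatMap_cons, List.append_assoc]

theorem p2_dbl_self {c : ℕ} {l : List ℕ} (h : c ∈ l) : P2 c c (dbl l) := by
  induction l with
  | nil => simp at h
  | cons d l ih =>
    rw [dbl_cons, p2_cons, p2_cons]
    rcases List.mem_cons.1 h with rfl | h
    · exact Or.inl ⟨rfl, by simp⟩
    · exact Or.inr (Or.inr (ih h))

theorem p2_dbl {a b : ℕ} {l : List ℕ} (hab : a ≠ b) : P2 a b (dbl l) ↔ P2 a b l := by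
  induction l with
  | nil => exact Iff.rfl
  | cons d l ih =>
    rw [dbl_cons, p2_cons, p2_cons, p2_cons, ih]
    constructor
    · rintro (⟨rfl, h⟩ | ⟨rfl, h⟩ | h)
      · rcases List.mem_cons.1 h with h | h
        · exact absurd h (Ne.symm hab)
        · exact Or.inl ⟨rfl, mem_dbl.1 h⟩
      · exact Or.inl ⟨rfl, mem_dbl.1 h⟩
      · exact Or.inr h
    · rintro (⟨rfl, h⟩ | h)
      · exact Or.inl ⟨rfl, by simp [mem_dbl, h]⟩
      · exact Or.inr (Or.inr h)

end Pool.Agent.Helper44_MVT
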