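import Pool.Agent.Helper44_MVT.Inv

/-!
`β` keeps the closed sets of the pentagon if it keeps the words `x² y_1² … y_R² x²`.
-/

namespace Pool.Agent.Helper44_MVT

open Pool.Agent.Helper14_MV Pool.Agent.Helper2_MV

/-- in the words equivalent to `x² y_1² … y_R² x²` no `x` is between the letters `y_i` -/
def PR (β : FIC) (R : ℕ) : Prop :=
  ∀ v, RR β (dbl (0 :: (List.range' 1 R ++ [0]))) v →
    ∀ c c', 1 ≤ c → c ≤ R → 1 ≤ c' → c' ≤ R → ¬ P3 c 0 c' v

theorem p2_fm {r : ℕ → Option ℕ} {a b : ℕ} {l : List ℕ} :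
    P2 a b (l.filterMap r) ↔ ∃ c d, r c = some a ∧ r d = some b ∧ P2 c d l := by
  induction l with
  | nil =>
    constructor
    · intro h; exact absurd h not_p2_nil
    · rintro ⟨c, d, _, _, h⟩; exact absurd h not_p2_nil
  | cons e l ih =>
    constructor
    · intro h
      cases hr : r e with
      | none =>
        rw [List.filterMap_cons_none hr] at h
        obtain ⟨c, d, h1, h2, h3⟩ := ih.1 h
        exact ⟨c, d, h1, h2, p2_cons.2 (Or.inr h3)⟩
      | some i =>
        rw [List.filterMap_cons_some hr, p2_cons] at h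
        rcases h with ⟨rfl, h⟩ | h
        · obtain ⟨d, hd, hrd⟩ := List.mem_filterMap.1 h
          exact ⟨e, d, hr, hrd, p2_cons.2 (Or.inl ⟨rfl, hd⟩)⟩
        · obtain ⟨c, d, h1, h2, h3⟩ := ih.1 h
          exact ⟨c, d, h1, h2, p2_cons.2 (Or.inr h3)⟩
    · rintro ⟨c, d, h1, h2, h3⟩
      rw [p2_cons] at h3
      rcases h3 with ⟨rfl, h3⟩ | h3
      · rw [List.filterMap_cons_some h1, p2_cons]
        exact Or.inl ⟨rfl, List.mem_filterMap.2 ⟨d, h3, h2⟩⟩
      · have := ih.2 ⟨c, d, h1, h2, h3⟩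
        cases hr : r e with
        | none => rwa [List.filterMap_cons_none hr]
        | some i =>
          rw [List.filterMap_cons_some hr, p2_cons]
          exact Or.inr this

theorem p3_fm {r : ℕ → Option ℕ} {a x b : ℕ} {l : List ℕ} :
    P3 a x b (l.filterMap r) ↔
      ∃ c e d, r c = some a ∧ r e = some x ∧ r d = some b ∧ P3 c e d l := by
  induction l with
  | nil =>
    constructor
    · intro h; exact absurd h not_p3_nil
    · rintro ⟨c, e, d, _, _, _, h⟩; exact absurd h not_p3_nil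
  | cons f l ih =>
    constructor
    · intro h
      cases hr : r f with
      | none =>
        rw [List.filterMap_cons_none hr] at h
        obtain ⟨c, e, d, h1, h2, h3, h4⟩ := ih.1 h
        exact ⟨c, e, d, h1, h2, h3, p3_cons.2 (Or.inr h4)⟩
      | some i =>
        rw [List.filterMap_cons_some hr, p3_cons] at h
        rcases h with ⟨rfl, h⟩ | h
        · obtain ⟨e, d, he, hd, hp⟩ := p2_fm.1 h
          exact ⟨f, e, d, hr, he, hd, p3_cons.2 (Or.inl ⟨rfl, hp⟩)⟩
        · obtain ⟨c, e, d, h1, h2, h3, h4⟩ := ih.1 h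
          exact ⟨c, e, d, h1, h2, h3, p3_cons.2 (Or.inr h4)⟩
    · rintro ⟨c, e, d, h1, h2, h3, h4⟩
      rw [p3_cons] at h4
      rcases h4 with ⟨rfl, h4⟩ | h4
      · rw [List.filterMap_cons_some h1, p3_cons]
        exact Or.inl ⟨rfl, p2_fm.2 ⟨e, d, h2, h3, h4⟩⟩
      · have := ih.2 ⟨c, e, d, h1, h2, h3, h4⟩
        cases hr : r f with
        | none => rwa [List.filterMap_cons_none hr]
        | some i =>
          rw [List.filterMap_cons_some hr, p3_cons]
          exact Or.inr this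

theorem flatMap_opt (r : ℕ → Option ℕ) (l : List ℕ) :
    l.flatMap (fun c => (r c).toList) = l.filterMap r := by
  induction l with
  | nil => rfl
  | cons e l ih =>
    rw [List.flatMap_cons, ih]
    cases hr : r e with
    | none => rw [List.filterMap_cons_none hr]; rfl
    | some i => rw [List.filterMap_cons_some hr]; rfl

theorem rr_fm {β : FIC} {u v : List ℕ} (h : RR β u v) (r : ℕ → Option ℕ) :
    RR β (u.filterMap r) (v.filterMap r) := by
  rw [← flatMap_opt, ← flatMap_opt]
  exact h.sub _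

theorem rr_dbl {β : FIC} {u v : List ℕ} (h : RR β u v) : RR β (dbl u) (dbl v) := h.sub _

theorem rr_trans {β : FIC} {u v w : List ℕ} (h : RR β u v) (h' : RR β v w) : RR β u w :=
  β.trans h h'

theorem sub_dbl (l : List ℕ) : l.Sublist (dbl l) := by
  induction l with
  | nil => exact List.Sublist.refl _
  | cons c l ih =>
    rw [dbl_cons]
    exact (ih.cons_cons c).trans ((List.sublist_cons_self c _).cons_cons c)

theorem prg {β : FIC} {R : ℕ} (H : Beta β) (hR : 1 ≤ R) (hPR : PR β R) {u v : List ℕ}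
    (h : RR β u v) (r : ℕ → Option ℕ) (hL : ∀ c i, r c = some i → i ≤ R)
    (hm : ∀ i, i ≤ R → ∃ c, c ∈ u ∧ r c = some i)
    (hs : ∀ i j c d, 1 ≤ i → i < j → r c = some j → r d = some i → ¬ P2 c d u)
    (hz : ∀ c e d i j, r c = some i → r e = some 0 → r d = some j → 1 ≤ i → 1 ≤ j →
      ¬ P3 c e d u)
    (h0 : ∃ c d, r c = some 0 ∧ r d = some 1 ∧ P2 c d u)
    (h0' : ∃ c d, r c = some 1 ∧ r d = some 0 ∧ P2 c d u) (hr0 : r 0 = some 0) :
    ∀ c d i j, r c = some i → r d = some j → 1 ≤ i → 1 ≤ j → ¬ P3 c 0 d v := by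
  intro c d i j hc hd hi hj hp
  have h1 : RR β (dbl (u.filterMap r)) (dbl (v.filterMap r)) := rr_dbl (rr_fm h r)
  have h2 : RR β (dbl (u.filterMap r)) (dbl (0 :: (List.range' 1 R ++ [0]))) := by
    rw [rr_iff, ev_dbl, ev_dbl]
    refine nf (fun c => H.mb.idem _) hR ?_ ?_ ?_ ?_ ?_ ?_
    · intro a ha
      obtain ⟨b, _, hb⟩ := List.mem_filterMap.1 ha
      exact hL b a hb
    · intro a ha
      obtain ⟨b, hb, hrb⟩ := hm a ha
      exact List.mem_filterMap.2 ⟨b, hb, hrb⟩
    · intro i j q1 q2 hp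
      obtain ⟨c, d, q3, q4, q5⟩ := p2_fm.1 hp
      exact hs i j c d q1 q2 q3 q4 q5
    · intro i j q1 q2 hp
      obtain ⟨c, e, d, q3, q4, q5, q6⟩ := p3_fm.1 hp
      exact hz c e d i j q3 q4 q5 q1 q2 q6
    · exact p2_fm.2 h0
    · exact p2_fm.2 h0'
  have h3 := hPR _ (rr_trans h2.symm h1) i j hi (hL c i hc) hj (hL d j hd)
  apply h3
  exact p3_sub (p3_fm.2 ⟨c, 0, d, hc, hr0, hd, hp⟩) (sub_dbl _)

theorem cc_0y {k y : ℕ} (h1 : 1 ≤ y) (h2 : y ≤ 2 * k + 2) : P2 0 y (CC k) := by
  unfold CC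
  rw [p2_dbl (by omega)]
  have := (mem_cw (k := k)).2 h2
  unfold cw at this ⊢
  rw [p2_cons]
  rcases List.mem_cons.1 this with q | q
  · omega
  · exact Or.inl ⟨rfl, q⟩

theorem cc_y0 {k y : ℕ} (h1 : 1 ≤ y) (h2 : y ≤ 2 * k + 2) : P2 y 0 (CC k) := by
  unfold CC
  rw [p2_dbl (by omega)]
  have := (mem_cw (k := k)).2 h2
  unfold cw at this ⊢
  rw [p2_cons, p2_append]
  right; right; left
  rcases List.mem_cons.1 this with q | q
  · omega
  · rcases List.mem_append.1 q with q | q
    · exact ⟨q, by simp⟩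
    · simp at q; omega

/-- the two letter patterns are kept -/
theorem prs2 {β : FIC} (H : Beta β) {k : ℕ} {u v : List ℕ} (h : RR β u v)
    (hu : ∀ y z, y ≤ 2 * k + 2 → z ≤ 2 * k + 2 → (P2 y z u ↔ P2 y z (CC k))) :
    ∀ y z, y ≤ 2 * k + 2 → z ≤ 2 * k + 2 → (P2 y z v ↔ P2 y z (CC k)) := by
  have hself : ∀ y, y ≤ 2 * k + 2 → P2 y y u := fun y hy => (hu y y hy hy).2 (cc_self hy)
  have hself' : ∀ y, y ≤ 2 * k + 2 → P2 y y v := fun y hy => inv1 H h (hself y hy)
  intro y z hy hz
  by_cases hyz : y = z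
  · subst hyz
    exact ⟨fun _ => cc_self hy, fun _ => hself' y hy⟩
  · rw [← hu y z hy hz]
    constructor
    · intro hp
      by_contra hn
      exact inv2 H h (Ne.symm hyz) hn (p2_mem (hself z hz)).1 (p2_mem (hself y hy)).1 hp
    · intro hp
      by_contra hn
      exact inv2 H h.symm (Ne.symm hyz) hn (p2_mem (hself' z hz)).1 (p2_mem (hself' y hy)).1 hp

theorem prc {β : FIC} (H : Beta β) {k : ℕ} (hk : 1 ≤ k) (hPR : PR β (k + 1)) :
    ∀ u v, RR β u v → KS k (Sc k) u → KS k (Sc k) v := by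
  intro u v h hu
  refine ⟨prs2 H h hu.1, ?_⟩
  have hmu : ∀ c, c ≤ 2 * k + 2 → c ∈ u := fun c hc =>
    (p2_mem ((hu.1 c c hc hc).2 (cc_self hc))).1
  have hmv : 3 ∈ v := (p2_mem ((prs2 H h hu.1 3 3 (by omega) (by omega)).2
    (cc_self (by omega)))).1
  have key : ∀ t, Sc k t → ¬ P3 3 0 t v ∧ ¬ P3 t 0 3 v := by
    intro t ht
    obtain ⟨s, hs, hs'⟩ : ∃ s, (s = 2 ∨ (k + 3 ≤ s ∧ s ≤ 2 * k + 2)) ∧
        (t = s ∨ (3 ≤ t ∧ t ≤ k + 2)) := by
      have q1 := ht.1
      have q2 := ht.2
      by_cases q3 : t = 2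
      · exact ⟨2, Or.inl rfl, Or.inl q3⟩
      · by_cases q4 : t ≤ k + 2
        · exact ⟨2, Or.inl rfl, Or.inr ⟨by omega, q4⟩⟩
        · exact ⟨t, Or.inr ⟨by omega, q2⟩, Or.inl rfl⟩
    set r : ℕ → Option ℕ := fun c => if c = 0 then some 0 else
      if 3 ≤ c ∧ c ≤ k + 2 then some (c - 2) else if c = s then some (k + 1) else none with hr
    have r0 : r 0 = some 0 := by simp [hr]
    have r1 : ∀ c, 3 ≤ c → c ≤ k + 2 → r c = some (c - 2) := by
      intro c q1 q2
      have : c ≠ 0 := by omega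
      simp [hr, this, q1, q2]
    have r2 : r s = some (k + 1) := by
      have q1 : s ≠ 0 := by omega
      have q2 : ¬ (3 ≤ s ∧ s ≤ k + 2) := by omega
      simp only [hr, q1, q2, if_false, if_true]
    have rinv : ∀ c i, r c = some i → (c = 0 ∧ i = 0) ∨ (3 ≤ c ∧ c ≤ k + 2 ∧ i = c - 2) ∨
        (c = s ∧ i = k + 1) := by
      intro c i hc
      by_cases q1 : c = 0
      · subst q1
        rw [r0] at hc
        left
        exact ⟨rfl, by injection hc with hc; exact hc.symm⟩
      · by_cases q2 : 3 ≤ c ∧ c ≤ k + 2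
        · rw [r1 c q2.1 q2.2] at hc
          right; left
          exact ⟨q2.1, q2.2, by injection hc with hc; exact hc.symm⟩
        · by_cases q3 : c = s
          · subst q3
            rw [r2] at hc
            right; right
            exact ⟨rfl, by injection hc with hc; exact hc.symm⟩
          · simp only [hr, q1, q2, q3, if_false] at hc
            cases hc
    have main := prg H (R := k + 1) (by omega) hPR h r
      (by
        intro c i hc
        rcases rinv c i hc with q | q | q <;> omega)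
      (by
        intro i hi
        by_cases q1 : i = 0
        · exact ⟨0, hmu 0 (by omega), by rw [r0, q1]⟩
        · by_cases q2 : i ≤ k
          · exact ⟨i + 2, hmu _ (by omega), by rw [r1 _ (by omega) (by omega)]; simp⟩
          · exact ⟨s, hmu _ (by omega), by rw [r2]; congr 1; omega⟩)
      (by
        intro i j c d q1 q2 q3 q4 hp
        have h1 := rinv c j q3
        have h2 := rinv d i q4
        have hj : j ≤ k + 1 := by omega
        have hd : 3 ≤ d ∧ d ≤ k + 2 ∧ i = d - 2 := by omega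
        by_cases hc2 : c = 2
        · subst hc2
          rw [hu.1 2 d (by omega) (by omega)] at hp
          exact cc_a_b hd.1 hd.2.1 hp
        · have hc3 : d < c ∧ c ≤ 2 * k + 2 := by omega
          rw [hu.1 c d (by omega) (by omega)] at hp
          exact cc_chain hd.1 hc3.1 hp)
      (by
        intro c e d i j q1 q2 q3 q4 q5 hp
        have h1 := rinv c i q1
        have h2 := rinv e 0 q2
        have h3 := rinv d j q3
        have he : e = 0 := by omega
        subst he
        exact hu.2 c d ⟨by omega, by omega⟩ ⟨by omega, by omega⟩ hp)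
      ⟨0, 3, r0, r1 3 (by omega) (by omega), (hu.1 0 3 (by omega) (by omega)).2
        (cc_0y (by omega) (by omega))⟩
      ⟨3, 0, r1 3 (by omega) (by omega), r0, (hu.1 3 0 (by omega) (by omega)).2
        (cc_y0 (by omega) (by omega))⟩ r0
    have h3 := r1 3 (by omega) (by omega)
    rcases hs' with q | q
    · subst q
      exact ⟨main 3 t _ _ h3 r2 (by omega) (by omega), main t 3 _ _ r2 h3 (by omega) (by omega)⟩
    · have h4 := r1 t q.1 q.2
      exact ⟨main 3 t _ _ h3 h4 (by omega) (by omega), main t 3 _ _ h4 h3 (by omega) (by omega)⟩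
  intro y z hy hz h3
  obtain ⟨A, B, rfl, hA, hB⟩ := p3_iff.1 h3
  rcases List.mem_append.1 hmv with q | q
  · exact (key z hz).1 (p3_iff.2 ⟨A, B, rfl, q, hB⟩)
  · rcases List.mem_cons.1 q with q | q
    · exact absurd q (by omega)
    · exact (key y hy).2 (p3_iff.2 ⟨A, B, rfl, hA, q⟩)

theorem prb {β : FIC} (H : Beta β) {k : ℕ} (hk : 1 ≤ k) (hPR : PR β (k + 1)) :
    ∀ u v, RR β u v → KS k (Sb k) u → KS k (Sb k) v := by
  intro u v h hu
  refine ⟨prs2 H h hu.1, ?_⟩
  have hmu : ∀ c, c ≤ 2 * k + 2 → c ∈ u := fun c hc =>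
    (p2_mem ((hu.1 c c hc hc).2 (cc_self hc))).1
  have hmv : 2 * k + 2 ∈ v := (p2_mem ((prs2 H h hu.1 (2 * k + 2) (2 * k + 2) (by omega)
    (by omega)).2 (cc_self (by omega)))).1
  have key : ∀ t, Sb k t → ¬ P3 (2 * k + 2) 0 t v ∧ ¬ P3 t 0 (2 * k + 2) v := by
    intro t ht
    obtain ⟨s, hs, hs'⟩ : ∃ s, (s = 1 ∨ (3 ≤ s ∧ s ≤ k + 2)) ∧
        (t = s ∨ (k + 3 ≤ t ∧ t ≤ 2 * k + 2)) := by
      have q1 := ht.1
      have q2 := ht.2
      by_cases q3 : t = 1
      · exact ⟨1, Or.inl rfl, Or.inl q3⟩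
      · by_cases q4 : k + 3 ≤ t
        · exact ⟨1, Or.inl rfl, Or.inr ⟨by omega, by omega⟩⟩
        · exact ⟨t, Or.inr ⟨by omega, by omega⟩, Or.inl rfl⟩
    set r : ℕ → Option ℕ := fun c => if c = 0 then some 0 else
      if k + 3 ≤ c ∧ c ≤ 2 * k + 2 then some (c - (k + 1)) else if c = s then some 1 else none
      with hr
    have r0 : r 0 = some 0 := by simp [hr]
    have r1 : ∀ c, k + 3 ≤ c → c ≤ 2 * k + 2 → r c = some (c - (k + 1)) := by
      intro c q1 q2
      have : c ≠ 0 := by omega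
      have q3 : k + 3 ≤ c ∧ c ≤ 2 * k + 2 := ⟨q1, q2⟩
      simp only [hr, this, q3, if_false, if_true, and_self]
    have r2 : r s = some 1 := by
      have q1 : s ≠ 0 := by omega
      have q2 : ¬ (k + 3 ≤ s ∧ s ≤ 2 * k + 2) := by omega
      simp only [hr, q1, q2, if_false, if_true]
    have rinv : ∀ c i, r c = some i → (c = 0 ∧ i = 0) ∨
        (k + 3 ≤ c ∧ c ≤ 2 * k + 2 ∧ i = c - (k + 1)) ∨ (c = s ∧ i = 1) := by
      intro c i hc
      by_cases q1 : c = 0
      · subst q1
        rw [r0] at hc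
        left
        exact ⟨rfl, by injection hc with hc; exact hc.symm⟩
      · by_cases q2 : k + 3 ≤ c ∧ c ≤ 2 * k + 2
        · rw [r1 c q2.1 q2.2] at hc
          right; left
          exact ⟨q2.1, q2.2, by injection hc with hc; exact hc.symm⟩
        · by_cases q3 : c = s
          · subst q3
            rw [r2] at hc
            right; right
            exact ⟨rfl, by injection hc with hc; exact hc.symm⟩
          · simp only [hr, q1, q2, q3, if_false] at hc
            cases hc
    have main := prg H (R := k + 1) (by omega) hPR h r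
      (by
        intro c i hc
        rcases rinv c i hc with q | q | q <;> omega)
      (by
        intro i hi
        by_cases q1 : i = 0
        · exact ⟨0, hmu 0 (by omega), by rw [r0, q1]⟩
        · by_cases q2 : 2 ≤ i
          · exact ⟨i + (k + 1), hmu _ (by omega), by
              rw [r1 _ (by omega) (by omega)]; simp⟩
          · exact ⟨s, hmu _ (by omega), by rw [r2]; congr 1; omega⟩)
      (by
        intro i j c d q1 q2 q3 q4 hp
        have h1 := rinv c j q3
        have h2 := rinv d i q4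
        have hc : k + 3 ≤ c ∧ c ≤ 2 * k + 2 := by omega
        by_cases hd1 : d = 1
        · subst hd1
          rw [hu.1 c 1 (by omega) (by omega)] at hp
          exact cc_e_d hc.1 hp
        · have hd : 3 ≤ d ∧ d < c := by omega
          rw [hu.1 c d (by omega) (by omega)] at hp
          exact cc_chain hd.1 hd.2 hp)
      (by
        intro c e d i j q1 q2 q3 q4 q5 hp
        have h1 := rinv c i q1
        have h2 := rinv e 0 q2
        have h3 := rinv d j q3
        have he : e = 0 := by omega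
        subst he
        exact hu.2 c d ⟨by omega, by omega, by omega⟩ ⟨by omega, by omega, by omega⟩ hp)
      ⟨0, s, r0, r2, (hu.1 0 s (by omega) (by omega)).2
        (cc_0y (by omega) (by omega))⟩
      ⟨s, 0, r2, r0, (hu.1 s 0 (by omega) (by omega)).2
        (cc_y0 (by omega) (by omega))⟩ r0
    have h3 := r1 (2 * k + 2) (by omega) (by omega)
    rcases hs' with q | q
    · subst q
      exact ⟨main _ t _ _ h3 r2 (by omega) (by omega), main t _ _ _ r2 h3 (by omega) (by omega)⟩
    · have h4 := r1 t q.1 q.2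
      exact ⟨main _ t _ _ h3 h4 (by omega) (by omega), main t _ _ _ h4 h3 (by omega) (by omega)⟩
  intro y z hy hz h3
  obtain ⟨A, B, rfl, hA, hB⟩ := p3_iff.1 h3
  rcases List.mem_append.1 hmv with q | q
  · exact (key z hz).1 (p3_iff.2 ⟨A, B, rfl, q, hB⟩)
  · rcases List.mem_cons.1 q with q | q
    · exact absurd q (by omega)
    · exact (key y hy).2 (p3_iff.2 ⟨A, B, rfl, hA, q⟩)

/-- for modular `β` the property `PR` fails -/
theorem not_PR {β : FIC} (H : Beta β) (hm : ModF β) {R : ℕ} (hR : 2 ≤ R) : ¬ PR β R := by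
  intro h
  obtain ⟨k, rfl⟩ : ∃ k, R = k + 1 := ⟨R - 1, by omega⟩
  exact pen (k := k) (by omega) hm (prb H (by omega) h) (prc H (by omega) h)

end Pool.Agent.Helper44_MVT
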