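import Pool.Agent.Helper44_MVT.TauB

/-!
Words in idempotent letters are determined by their interval orders.
-/

namespace Pool.Agent.Helper44_MVT

open Pool.Agent.Helper14_MV Pool.Agent.Helper2_MV

section

variable {M : Type*} [Monoid M]

theorem taux (hT : ∀ r, TauM M r) (x : M) (g : ℕ → M) (l : List ℕ) :
    x * x * ev (sq g) l * (x * x) =
      x * x * ev (fun c => x * x * sq g c * (x * x) * sq g c) l := by
  set g' : ℕ → M := fun i => if i = 0 then x else g (l.getD (i - 1) 0) with hg'
  have g0 : sq g' 0 = x * x := by simp [sq, hg']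
  have gi : ∀ i, i < l.length → sq g' (i + 1) = sq g (l.getD i 0) := by
    intro i _
    simp [sq, hg']
  have zi : ∀ i, i < l.length → Zb (sq g') (i + 1) =
      (fun c => x * x * sq g c * (x * x) * sq g c) (l.getD i 0) := by
    intro i hi
    simp only [Zb, g0, gi i hi]
  have h1 := ev_range (sq g) (sq g') l gi
  have h2 := ev_range (fun c => x * x * sq g c * (x * x) * sq g c) (Zb (sq g')) l zi
  have h3 := hT l.length g' (List.range' 1 l.length) (by simp)
  rw [h1, h2, g0] at h3
  exact h3

/-- a letter may be inserted between two of its occurrences -/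
theorem ins (H : MB M) (hT : ∀ r, TauM M r) (g : ℕ → M) (c : ℕ) (l1 l2 : List ℕ) :
    sq g c * (ev (sq g) l1 * ev (sq g) l2) * sq g c =
      sq g c * (ev (sq g) l1 * (sq g c * ev (sq g) l2)) * sq g c := by
  have t : ∀ l : List ℕ, sq g c * ev (sq g) l * sq g c =
      sq g c * ev (fun d => sq g c * sq g d * sq g c * sq g d) l := fun l => taux hT (g c) g l
  have e1 : sq g c * (ev (sq g) l1 * (sq g c * ev (sq g) l2)) * sq g c =
      (sq g c * ev (sq g) l1 * sq g c) * (sq g c * ev (sq g) l2 * sq g c) := by
    have : (sq g c * ev (sq g) l1 * sq g c) * (sq g c * ev (sq g) l2 * sq g c) =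
        sq g c * (ev (sq g) l1 * ((sq g c * sq g c) * ev (sq g) l2)) * sq g c := by
      simp only [mul_assoc]
    rw [this, H.sq]
  have e2 : sq g c * ev (fun d => sq g c * sq g d * sq g c * sq g d) l1 * sq g c =
      sq g c * ev (fun d => sq g c * sq g d * sq g c * sq g d) l1 := by
    rw [← t l1, mul_assoc _ (sq g c) (sq g c), H.sq]
  calc sq g c * (ev (sq g) l1 * ev (sq g) l2) * sq g c
      = sq g c * ev (fun d => sq g c * sq g d * sq g c * sq g d) (l1 ++ l2) := by
        rw [← ev_append, t (l1 ++ l2)]
    _ = sq g c * ev (fun d => sq g c * sq g d * sq g c * sq g d) l1 *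
          ev (fun d => sq g c * sq g d * sq g c * sq g d) l2 := by rw [ev_append, mul_assoc]
    _ = sq g c * ev (fun d => sq g c * sq g d * sq g c * sq g d) l1 * sq g c *
          ev (fun d => sq g c * sq g d * sq g c * sq g d) l2 := by rw [e2]
    _ = (sq g c * ev (sq g) l1 * sq g c) * (sq g c * ev (sq g) l2 * sq g c) := by
        rw [t l1, t l2, mul_assoc _ (sq g c)]
    _ = sq g c * (ev (sq g) l1 * (sq g c * ev (sq g) l2)) * sq g c := e1.symm

theorem ins1 (H : MB M) (hT : ∀ r, TauM M r) (g : ℕ → M) {c : ℕ} {P Q : List ℕ}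
    (hP : c ∈ P) (hQ : c ∈ Q) : ev (sq g) (P ++ Q) = ev (sq g) (P ++ c :: Q) := by
  obtain ⟨P1, P2', rfl⟩ := List.append_of_mem hP
  obtain ⟨Q1, Q2, rfl⟩ := List.append_of_mem hQ
  simp only [ev_append, ev_cons]
  have h := ins H hT g c P2' Q1
  calc ev (sq g) P1 * (sq g c * ev (sq g) P2') * (ev (sq g) Q1 * (sq g c * ev (sq g) Q2))
      = ev (sq g) P1 * (sq g c * (ev (sq g) P2' * ev (sq g) Q1) * sq g c) * ev (sq g) Q2 := by
        simp only [mul_assoc]
    _ = ev (sq g) P1 * (sq g c * (ev (sq g) P2' * (sq g c * ev (sq g) Q1)) * sq g c) *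
          ev (sq g) Q2 := by rw [h]
    _ = ev (sq g) P1 * (sq g c * ev (sq g) P2') *
          (sq g c * (ev (sq g) Q1 * (sq g c * ev (sq g) Q2))) := by simp only [mul_assoc]

theorem insl (H : MB M) (hT : ∀ r, TauM M r) (g : ℕ → M) {P Q : List ℕ} :
    ∀ {L : List ℕ}, (∀ c ∈ L, c ∈ P ∧ c ∈ Q) →
      ev (sq g) (P ++ Q) = ev (sq g) (P ++ (L ++ Q)) := by
  intro L
  induction L with
  | nil => intro _; rfl
  | cons c L ih =>
    intro h
    rw [ih (fun d hd => h d (by simp [hd]))]
    exact ins1 H hT g (h c (by simp)).1 (by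
      rw [List.mem_append]
      exact Or.inr (h c (by simp)).2)

/-- the square of a product is a zero for its letters -/
theorem abs (H : MB M) (hT : ∀ r, TauM M r) (g : ℕ → M) {A : List ℕ} {c : ℕ} (hc : c ∈ A) :
    ev (sq g) A * ev (sq g) A * sq g c = ev (sq g) A * ev (sq g) A ∧
      sq g c * (ev (sq g) A * ev (sq g) A) = ev (sq g) A * ev (sq g) A := by
  set a := ev (sq g) A with ha
  have hZ : ZP (sq g c) (a * a) := H.zp (g c) a
  have key : a * a = sq g c * (a * a) * sq g c * (a * a) := by
    have h1 := insl H hT g (P := A) (Q := A) (L := c :: ((A ++ A) ++ c :: (A ++ A))) (by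
      intro d hd
      have : d ∈ A := by
        rcases List.mem_cons.1 hd with h | h
        · exact h ▸ hc
        · rcases List.mem_append.1 h with h | h
          · simpa using h
          · rcases List.mem_cons.1 h with h | h
            · exact h ▸ hc
            · simpa using h
      exact ⟨this, this⟩)
    simp only [ev_append, ev_cons, ← ha] at h1
    have h2 : a * (a * a) = a * a := by rw [← mul_assoc]; exact (H.h1 a).symm
    have h3 : a * a * a = a * a := (H.h1 a).symm
    have h5 : sq g c * (a * a) * sq g c * (a * a) * a = sq g c * (a * a) * sq g c * (a * a) := by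
      rw [mul_assoc _ (a * a) a, h3]
    have h6 : a * (sq g c * (a * a) * sq g c * (a * a)) =
        sq g c * (a * a) * sq g c * (a * a) := by
      calc a * (sq g c * (a * a) * sq g c * (a * a))
          = a * (a * a * sq g c * (a * a) * sq g c) := by rw [hZ.hz]
        _ = a * (a * a) * sq g c * (a * a) * sq g c := by simp only [mul_assoc]
        _ = a * a * sq g c * (a * a) * sq g c := by rw [h2]
        _ = sq g c * (a * a) * sq g c * (a * a) := hZ.hz.symm
    calc a * a = a * (sq g c * (a * a * (sq g c * (a * a))) * a) := h1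
      _ = a * (sq g c * (a * a) * sq g c * (a * a) * a) := by simp only [mul_assoc]
      _ = sq g c * (a * a) * sq g c * (a * a) := by rw [h5, h6]
  constructor
  · have := hZ.zx
    rw [← key] at this
    exact this
  · have := hZ.xz
    rw [← key] at this
    exact this

theorem zset (H : MB M) (hT : ∀ r, TauM M r) (g : ℕ → M) {A B : List ℕ}
    (h : ∀ c, c ∈ A ↔ c ∈ B) :
    ev (sq g) A * ev (sq g) A = ev (sq g) B * ev (sq g) B := by
  have h1 : ev (sq g) A * ev (sq g) A * ev (sq g) B = ev (sq g) A * ev (sq g) A :=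
    ev_absR (fun c hc => (abs H hT g ((h c).2 hc)).1)
  have h2 : ev (sq g) A * (ev (sq g) B * ev (sq g) B) = ev (sq g) B * ev (sq g) B :=
    ev_absL (fun c hc => (abs H hT g ((h c).1 hc)).2)
  calc ev (sq g) A * ev (sq g) A = ev (sq g) A * ev (sq g) A * ev (sq g) B * ev (sq g) B := by
        rw [h1, h1]
    _ = ev (sq g) A * (ev (sq g) A * (ev (sq g) B * ev (sq g) B)) := by simp only [mul_assoc]
    _ = ev (sq g) B * ev (sq g) B := by rw [h2, h2]

theorem fe : ∀ {u : List ℕ}, u ≠ [] → ∃ u1 z u2, u = u1 ++ z :: u2 ∧ z ∉ u2 ∧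
    ∀ c ∈ u1, c ∈ z :: u2 := by
  intro u
  induction u with
  | nil => intro h; exact absurd rfl h
  | cons a t ih =>
    intro _
    by_cases ha : a ∈ t
    · obtain ⟨u1, z, u2, rfl, h1, h2⟩ := ih (by
        intro h
        rw [h] at ha
        simp at ha)
      refine ⟨a :: u1, z, u2, rfl, h1, ?_⟩
      intro c hc
      rcases List.mem_cons.1 hc with h | h
      · subst h
        rcases List.mem_append.1 ha with h | h
        · exact h2 c h
        · exact h
      · exact h2 c h
    · exact ⟨[], a, t, rfl, ha, by simp⟩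

theorem zbk (H : MB M) (hT : ∀ r, TauM M r) (g : ℕ → M) {u1 u2 : List ℕ} {z : ℕ}
    (h : ∀ c ∈ u1, c ∈ z :: u2) : ev (sq g) (u1 ++ z :: u2) =
      ev (sq g) (u1 ++ [z]) * ev (sq g) (u1 ++ [z]) * ev (sq g) u2 := by
  have h1 : ev (sq g) (u1 ++ z :: u2) = ev (sq g) ((u1 ++ [z]) ++ (z :: u2)) := by
    simp only [ev_append, ev_cons, ev_nil, mul_one]
    rw [mul_assoc, ← mul_assoc (sq g z) (sq g z), H.sq]
  have h2 := insl H hT g (P := u1 ++ [z]) (Q := z :: u2) (L := u1) (fun c hc =>
    ⟨by simp [hc], h c hc⟩)
  rw [h1, h2]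
  simp only [ev_append, ev_cons, ev_nil, mul_one, mul_assoc]

theorem sato_core (H : MB M) (hT : ∀ r, TauM M r) (g : ℕ → M) :
    ∀ (n : ℕ) (u v : List ℕ), u.toFinset.card ≤ n → (∀ a, a ∈ u ↔ a ∈ v) →
      (∀ a b, a ≠ b → (P2 a b u ↔ P2 a b v)) → ev (sq g) u = ev (sq g) v := by
  intro n
  induction n with
  | zero =>
    intro u v hn hc _
    have hu : u = [] := by
      have := Finset.card_eq_zero.1 (Nat.le_zero.1 hn)
      rwa [List.toFinset_eq_empty_iff] at this
    have hv : v = [] := by
      rw [List.eq_nil_iff_forall_not_mem]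
      intro a ha
      have := (hc a).2 ha
      rw [hu] at this
      simp at this
    rw [hu, hv]
  | succ n ih =>
    intro u v hn hcont hpat
    by_cases hu : u = []
    · have hv : v = [] := by
        rw [List.eq_nil_iff_forall_not_mem]
        intro a ha
        have := (hcont a).2 ha
        rw [hu] at this
        simp at this
      rw [hu, hv]
    obtain ⟨u1, z, u2, eu, hz2, hu1⟩ := fe hu
    have hzu : z ∈ u := by rw [eu]; simp
    have hzv : z ∈ v := (hcont z).1 hzu
    obtain ⟨v1, v2, ev', hzv2⟩ := last_occ hzv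
    -- the letters which start before the end of `z`
    have hS : ∀ (w1 w2 : List ℕ) (c : ℕ), z ∉ w2 → (c ∈ w1 ++ [z] ↔ c = z ∨
        P2 c z (w1 ++ z :: w2)) := by
      intro w1 w2 c hw
      constructor
      · intro h
        rcases List.mem_append.1 h with h | h
        · right
          rw [p2_append]
          exact Or.inr (Or.inl ⟨h, by simp⟩)
        · left; simpa using h
      · rintro (h | h)
        · rw [h]; simp
        · rw [p2_append, p2_cons] at h
          rcases h with h | h | h | h
          · simp [(p2_mem h).1]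
          · simp [h.1]
          · rw [h.1]; simp
          · exact absurd (p2_mem h).2 hw
    have hSuv : ∀ c, c ∈ u1 ++ [z] ↔ c ∈ v1 ++ [z] := by
      intro c
      rw [hS u1 u2 c hz2, hS v1 v2 c hzv2, ← eu, ← ev']
      by_cases hcz : c = z
      · simp [hcz]
      · rw [hpat c z hcz]
    -- first end in `v`
    have hvne : v ≠ [] := by
      intro h
      rw [h] at hzv
      simp at hzv
    obtain ⟨w1, y, w2, ew, hy2, hw1⟩ := fe hvne
    have hsplit : ∃ w3, v1 ++ [z] = (w1 ++ [y]) ++ w3 ∧ w2 = w3 ++ v2 := by
      have e : (w1 ++ [y]) ++ w2 = (v1 ++ [z]) ++ v2 := by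
        have : w1 ++ y :: w2 = v1 ++ z :: v2 := by rw [← ew, ← ev']
        simpa using this
      rcases List.append_eq_append_iff.1 e with ⟨a', h1, h2⟩ | ⟨c', h1, h2⟩
      · exact ⟨a', h1, h2⟩
      · by_cases hc' : c' = []
        · subst hc'
          rw [List.append_nil] at h1
          rw [List.nil_append] at h2
          exact ⟨[], by rw [h1, List.append_nil], by rw [h2, List.nil_append]⟩
        · exfalso
          obtain ⟨c'', t, rfl⟩ : ∃ c'' t, c' = c'' ++ [t] :=
            ⟨c'.dropLast, c'.getLast hc', (List.dropLast_append_getLast hc').symm⟩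
          rw [← List.append_assoc] at h1
          have h3 := List.append_inj' h1 rfl
          have hty : y = t := by simpa using h3.2
          have hzw1 : z ∈ w1 := by rw [h3.1]; simp
          have h4 := hw1 z hzw1
          rcases List.mem_cons.1 h4 with h5 | h5
          · apply hzv2
            rw [h2, h5, hty]
            simp
          · apply hzv2
            rw [h2]
            simp [h5]
    obtain ⟨w3, hw3a, hw3b⟩ := hsplit
    have hyu : y ∈ u := (hcont y).2 (by rw [ew]; simp)
    have hsub : ∀ c, c ∈ v1 ++ [z] → c ∈ w1 ++ [y] := by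
      intro c hc
      have hc' := (hSuv c).2 hc
      by_cases hcy : c = y
      · rw [hcy]; simp
      · have hp : P2 c y u := by
          rw [eu]
          rw [eu] at hyu
          have e : u1 ++ z :: u2 = (u1 ++ [z]) ++ u2 := by simp
          by_cases hy2 : y ∈ u2
          · rw [e, p2_append]
            exact Or.inr (Or.inl ⟨hc', hy2⟩)
          · have hyz : y = z := by
              rcases List.mem_append.1 hyu with h | h
              · rcases List.mem_cons.1 (hu1 y h) with h | h
                · exact h
                · exact absurd h hy2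
              · rcases List.mem_cons.1 h with h | h
                · exact h
                · exact absurd h hy2
            rw [hyz] at hcy ⊢
            rcases List.mem_append.1 hc' with h | h
            · rw [p2_append]
              exact Or.inr (Or.inl ⟨h, by simp⟩)
            · exact absurd (by simpa using h) hcy
        rw [hpat c y hcy, ew, p2_append, p2_cons] at hp
        rcases hp with h | h | h | h
        · simp [(p2_mem h).1]
        · simp [h.1]
        · exact absurd h.1 hcy
        · exact absurd (p2_mem h).2 hy2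
    have hSw : ∀ c, c ∈ u1 ++ [z] ↔ c ∈ w1 ++ [y] := by
      intro c
      constructor
      · intro h; exact hsub c ((hSuv c).1 h)
      · intro h
        apply (hSuv c).2
        rw [hw3a]
        exact List.mem_append.2 (Or.inl h)
    set A := ev (sq g) (u1 ++ [z]) * ev (sq g) (u1 ++ [z]) with hA
    have hAw : ev (sq g) (w1 ++ [y]) * ev (sq g) (w1 ++ [y]) = A := (zset H hT g hSw).symm
    have habs : ∀ c ∈ u1 ++ [z], A * sq g c = A := fun c hc => (abs H hT g hc).1
    have e1 : ev (sq g) u = A * ev (sq g) u2 := by rw [eu]; exact zbk H hT g hu1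
    have e2 : ev (sq g) v = A * ev (sq g) v2 := by
      rw [ew, zbk H hT g hw1, hAw, hw3b, ev_append, ← mul_assoc]
      congr 1
      apply ev_absR
      intro c hc
      apply habs
      apply (hSuv c).2
      rw [hw3a]
      exact List.mem_append.2 (Or.inr hc)
    set T := u1.filter (fun c => decide (c ≠ z)) with hTdef
    have hTm : ∀ c, c ∈ T ↔ c ∈ u1 ∧ c ≠ z := by
      intro c
      rw [hTdef, List.mem_filter]
      simp
    have hTS : ∀ c, c ≠ z → (c ∈ T ↔ c ∈ u1 ++ [z]) := by
      intro c hc
      rw [hTm]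
      simp [hc]
    have hAT : A * ev (sq g) T = A := by
      apply ev_absR
      intro c hc
      apply habs
      simp [((hTm c).1 hc).1]
    have e3 : ∀ w : List ℕ, A * ev (sq g) w = A * ev (sq g) (T ++ (T ++ w)) := by
      intro w
      rw [ev_append, ev_append, ← mul_assoc, ← mul_assoc, hAT, hAT]
    have eu' : u = (u1 ++ [z]) ++ u2 := by rw [eu]; simp
    have ev'' : v = (v1 ++ [z]) ++ v2 := by rw [ev']; simp
    have hcont' : ∀ a, a ∈ T ++ (T ++ u2) ↔ a ∈ T ++ (T ++ v2) := by
      intro a
      have h1 : a ∈ u ↔ a ∈ v := hcont a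
      by_cases haz : a = z
      · subst haz
        have hT1 : a ∉ T := fun h => ((hTm a).1 h).2 rfl
        simp only [List.mem_append, hT1, hz2, hzv2]
      · have h1' : (a ∈ u1 ++ [z] ∨ a ∈ u2) ↔ (a ∈ v1 ++ [z] ∨ a ∈ v2) := by
          have q1 : a ∈ u ↔ (a ∈ u1 ++ [z] ∨ a ∈ u2) := by rw [eu', List.mem_append]
          have q2 : a ∈ v ↔ (a ∈ v1 ++ [z] ∨ a ∈ v2) := by rw [ev'', List.mem_append]
          rw [← q1, ← q2]
          exact h1
        rw [← hSuv a, ← hTS a haz] at h1'
        have r1 : a ∈ T ++ (T ++ u2) ↔ (a ∈ T ∨ a ∈ u2) := by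
          rw [List.mem_append, List.mem_append]
          tauto
        have r2 : a ∈ T ++ (T ++ v2) ↔ (a ∈ T ∨ a ∈ v2) := by
          rw [List.mem_append, List.mem_append]
          tauto
        rw [r1, r2]
        exact h1'
    have half : ∀ (x1 x2 y1 y2 : List ℕ), (∀ a, a ∈ T ++ (T ++ x2) → a ∈ T ++ (T ++ y2)) →
        z ∉ x2 → (∀ a, a ∈ u1 ++ [z] ↔ a ∈ y1 ++ [z]) →
        (∀ a b, a ≠ b → P2 a b ((x1 ++ [z]) ++ x2) → P2 a b ((y1 ++ [z]) ++ y2)) →
        ∀ a b, a ≠ b → P2 a b (T ++ (T ++ x2)) → P2 a b (T ++ (T ++ y2)) := by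
      intro x1 x2 y1 y2 q1 q2 q3 q4 a b hab hp
      have hb' := q1 b (p2_mem hp).2
      by_cases haT : a ∈ T
      · rw [p2_append]
        right; left
        refine ⟨haT, ?_⟩
        simp only [List.mem_append] at hb' ⊢
        tauto
      · have hx : P2 a b x2 := by
          rw [p2_append, p2_append] at hp
          rcases hp with h | h | h | h | h
          · exact absurd (p2_mem h).1 haT
          · exact absurd h.1 haT
          · exact absurd (p2_mem h).1 haT
          · exact absurd h.1 haT
          · exact h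
        have haz : a ≠ z := fun e => q2 (e ▸ (p2_mem hx).1)
        have h1 : P2 a b ((x1 ++ [z]) ++ x2) := p2_sub hx (List.sublist_append_right _ _)
        have h2 := q4 a b hab h1
        have h3 : a ∉ y1 ++ [z] := by
          rw [← q3 a, ← hTS a haz]
          exact haT
        have h4 : P2 a b y2 := by
          rw [p2_append] at h2
          rcases h2 with h | h | h
          · exact absurd (p2_mem h).1 h3
          · exact absurd h.1 h3
          · exact h
        exact p2_sub h4 ((List.sublist_append_right _ _).trans (List.sublist_append_right _ _))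
    have hpat' : ∀ a b, a ≠ b → (P2 a b (T ++ (T ++ u2)) ↔ P2 a b (T ++ (T ++ v2))) := by
      intro a b hab
      constructor
      · exact half u1 u2 v1 v2 (fun a h => (hcont' a).1 h) hz2 hSuv (by
          intro a b hab h
          rw [← eu'] at h
          rw [← ev'']
          exact (hpat a b hab).1 h) a b hab
      · exact half v1 v2 u1 u2 (fun a h => (hcont' a).2 h) hzv2 (fun a => Iff.rfl) (by
          intro a b hab h
          rw [← ev''] at h
          rw [← eu']
          exact (hpat a b hab).2 h) a b hab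
    have hcard : (T ++ (T ++ u2)).toFinset.card ≤ n := by
      have hss : (T ++ (T ++ u2)).toFinset ⊆ u.toFinset.erase z := by
        intro a ha
        rw [List.mem_toFinset] at ha
        rw [Finset.mem_erase, List.mem_toFinset, eu]
        have h1 : a ∈ T ∨ a ∈ u2 := by
          simp only [List.mem_append] at ha
          tauto
        rcases h1 with h | h
        · have := (hTm a).1 h
          exact ⟨this.2, by simp [this.1]⟩
        · exact ⟨fun e => hz2 (e ▸ h), by simp [h]⟩
      have h1 := Finset.card_le_card hss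
      rw [Finset.card_erase_of_mem (by simpa using hzu)] at h1
      omega
    rw [e1, e2, e3 u2, e3 v2, ih _ _ hcard hcont' hpat']

end

/-- **words in idempotent letters are interval orders** -/
theorem sato' {β : FIC} (H : Beta β) (hm : ModF β) {u v : List ℕ} (hc : ∀ a, a ∈ u ↔ a ∈ v)
    (hp : ∀ a b, a ≠ b → (P2 a b u ↔ P2 a b v)) : RR β (dbl u) (dbl v) := by
  rw [rr_iff, ev_dbl, ev_dbl]
  exact sato_core H.mb (tau_all H hm) (cn β) u.toFinset.card u v (le_refl _) hc hp

end Pool.Agent.Helper44_MVT
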