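import Pool.Agent.Helper44_MVT.Prs

/-!
The identities `x² y_1² … y_r² x² = [x y_1] … [x y_r]`.
-/

namespace Pool.Agent.Helper44_MVT

open Pool.Agent.Helper14_MV Pool.Agent.Helper2_MV

section

variable {M : Type*} [Monoid M]

/-- squares -/
def sq (g : ℕ → M) (c : ℕ) : M := g c * g c

/-- zero blocks -/
def Zb (h : ℕ → M) (c : ℕ) : M := h 0 * h c * h 0 * h c

/-- the identity with `r` letters, evaluated at arbitrary elements -/
def TauM (M : Type*) [Monoid M] (r : ℕ) : Prop :=
  ∀ (g : ℕ → M) (l : List ℕ), l.length = r →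
    sq g 0 * ev (sq g) l * sq g 0 = sq g 0 * ev (Zb (sq g)) l

theorem MB.sq (H : MB M) (g : ℕ → M) (c : ℕ) : sq g c * sq g c = sq g c := H.idem _

theorem MB.zps (H : MB M) (g : ℕ → M) (c : ℕ) : ZP (Helper44_MVT.sq g 0) (Helper44_MVT.sq g c) :=
  H.zp _ _

theorem MB.zb0 (H : MB M) (g : ℕ → M) : Zb (Helper44_MVT.sq g) 0 = Helper44_MVT.sq g 0 := by
  unfold Zb
  rw [H.sq, H.sq, H.sq]

theorem MB.xzb (H : MB M) (g : ℕ → M) (c : ℕ) :
    Helper44_MVT.sq g 0 * Zb (Helper44_MVT.sq g) c = Zb (Helper44_MVT.sq g) c := (H.zps g c).xz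

theorem MB.zbx (H : MB M) (g : ℕ → M) (c : ℕ) :
    Zb (Helper44_MVT.sq g) c * Helper44_MVT.sq g 0 = Zb (Helper44_MVT.sq g) c := (H.zps g c).zx

theorem MB.zby (H : MB M) (g : ℕ → M) (c : ℕ) :
    Zb (Helper44_MVT.sq g) c * Helper44_MVT.sq g c = Zb (Helper44_MVT.sq g) c := (H.zps g c).zy

theorem MB.yzb (H : MB M) (g : ℕ → M) (c : ℕ) :
    Helper44_MVT.sq g c * Zb (Helper44_MVT.sq g) c = Zb (Helper44_MVT.sq g) c := (H.zps g c).yz

theorem MB.zbz (H : MB M) (g : ℕ → M) (c : ℕ) :
    Zb (Helper44_MVT.sq g) c * Zb (Helper44_MVT.sq g) c = Zb (Helper44_MVT.sq g) c :=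
  (H.zps g c).zz

theorem first_occ {a : ℕ} : ∀ {l : List ℕ}, a ∈ l → ∃ A B, l = A ++ a :: B ∧ a ∉ A := by
  intro l
  induction l with
  | nil => intro h; simp at h
  | cons c l ih =>
    intro h
    by_cases hc : a = c
    · exact ⟨[], l, by rw [hc]; rfl, by simp⟩
    · rcases List.mem_cons.1 h with h | h
      · exact absurd h hc
      · obtain ⟨A, B, rfl, hA⟩ := ih h
        exact ⟨c :: A, B, rfl, by simp [hc, hA]⟩

theorem last_occ {a : ℕ} : ∀ {l : List ℕ}, a ∈ l → ∃ A B, l = A ++ a :: B ∧ a ∉ B := by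
  intro l
  induction l with
  | nil => intro h; simp at h
  | cons c l ih =>
    intro h
    by_cases hl : a ∈ l
    · obtain ⟨A, B, rfl, hB⟩ := ih hl
      exact ⟨c :: A, B, rfl, hB⟩
    · rcases List.mem_cons.1 h with h | h
      · exact ⟨[], l, by rw [h]; rfl, hl⟩
      · exact absurd h hl

/-- words with few letters -/
theorem cl (H : MB M) (g : ℕ → M) {n : ℕ}
    (hT : ∀ l : List ℕ, l.length ≤ n →
      sq g 0 * ev (sq g) l * sq g 0 = sq g 0 * ev (Zb (sq g)) l) :
    ∀ (N : ℕ) (v : List ℕ), v.length ≤ N → (∀ i j, 1 ≤ i → i < j → ¬ P2 j i v) →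
      (v.toFinset.erase 0).card ≤ n →
        sq g 0 * ev (sq g) v * sq g 0 = sq g 0 * ev (Zb (sq g)) v := by
  intro N
  induction N with
  | zero =>
    intro v hv _ _
    have : v = [] := List.length_eq_zero_iff.1 (by omega)
    subst this
    exact hT [] (by simp)
  | succ N ih =>
    intro v hv hs hc
    by_cases h0 : 0 ∈ v
    · obtain ⟨p, q, rfl⟩ := List.append_of_mem h0
      have hlen : p.length + q.length + 1 ≤ N + 1 := by
        simp only [List.length_append, List.length_cons] at hv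
        omega
      have hp := ih p (by omega) (fun i j q1 q2 q3 => hs i j q1 q2
        (p2_sub q3 (List.sublist_append_left _ _))) (le_trans (Finset.card_le_card
          (Finset.erase_subset_erase 0 (by
            intro x hx
            simp only [List.mem_toFinset] at hx ⊢
            simp [hx]))) hc)
      have hq := ih q (by omega) (fun i j q1 q2 q3 => hs i j q1 q2
        (p2_sub q3 ((List.sublist_cons_self 0 q).trans (List.sublist_append_right p _))))
          (le_trans (Finset.card_le_card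
          (Finset.erase_subset_erase 0 (by
            intro x hx
            simp only [List.mem_toFinset] at hx ⊢
            simp [hx]))) hc)
      rw [ev_append, ev_cons, ev_append, ev_cons, H.zb0]
      have e1 : sq g 0 * (ev (sq g) p * (sq g 0 * ev (sq g) q)) * sq g 0 =
          (sq g 0 * ev (sq g) p * sq g 0) * (sq g 0 * ev (sq g) q * sq g 0) := by
        have e2 : (sq g 0 * ev (sq g) p * sq g 0) * (sq g 0 * ev (sq g) q * sq g 0) =
            sq g 0 * (ev (sq g) p * ((sq g 0 * sq g 0) * ev (sq g) q)) * sq g 0 := by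
          simp only [mul_assoc]
        rw [e2, H.sq]
      rw [e1, hp, hq]
      simp only [mul_assoc]
    · have hpw : v.Pairwise (fun a b => a ≤ b) := by
        apply pw_of
        intro i j hij hp
        have hi : i ≠ 0 := fun e => h0 (e ▸ (p2_mem hp).2)
        exact hs i j (by omega) hij hp
      rw [ev_dedup (H.sq g) hpw, ev_dedup (H.zbz g) hpw]
      apply hT
      rw [← List.card_toFinset]
      rwa [Finset.erase_eq_of_notMem (by simpa using h0)] at hc

theorem zb_filter (H : MB M) (g : ℕ → M) : ∀ (v : List ℕ) (m : M), m * sq g 0 = m →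
    m * ev (Zb (sq g)) v = m * ev (Zb (sq g)) (v.filter (fun c => decide (c ≠ 0))) := by
  intro v
  induction v with
  | nil => intro m _; rfl
  | cons c v ih =>
    intro m hm
    by_cases hc : c = 0
    · subst hc
      rw [ev_cons, H.zb0, ← mul_assoc, hm, List.filter_cons_of_neg (by simp)]
      exact ih m hm
    · rw [List.filter_cons_of_pos (by simp [hc]), ev_cons, ev_cons, ← mul_assoc, ← mul_assoc]
      apply ih
      rw [mul_assoc, H.zbx]

theorem p2_filter {a b : ℕ} {p : ℕ → Bool} {l : List ℕ} (h : P2 a b (l.filter p)) : P2 a b l :=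
  p2_sub h List.filter_sublist

theorem nfz (H : MB M) (g : ℕ → M) {r : ℕ} {v : List ℕ}
    (hs : ∀ i j, 1 ≤ i → i < j → ¬ P2 j i v) (hL : ∀ c ∈ v, c ≤ r)
    (hm : ∀ c, 1 ≤ c → c ≤ r → c ∈ v) :
    sq g 0 * ev (Zb (sq g)) v = sq g 0 * ev (Zb (sq g)) (List.range' 1 r) := by
  rw [zb_filter H g v _ (H.sq g 0)]
  have hpw : (v.filter (fun c => decide (c ≠ 0))).Pairwise (fun a b => a ≤ b) := by
    apply pw_of
    intro i j hij hp
    have hi : i ≠ 0 := by
      have := (p2_mem hp).2
      simp at this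
      exact this.2
    exact hs i j (by omega) hij (p2_filter hp)
  rw [ev_dedup (H.zbz g) hpw, sorted_eq (R := r) hpw]
  intro c
  simp only [List.mem_filter, decide_eq_true_eq]
  constructor
  · rintro ⟨q1, q2⟩
    exact ⟨by omega, hL c q1⟩
  · rintro ⟨q1, q2⟩
    exact ⟨hm c q1 q2, by omega⟩

theorem few_card {r t : ℕ} {p : List ℕ} (hL : ∀ c ∈ p, c ≤ r) (h1 : 1 ≤ t) (h2 : t ≤ r)
    (ht : t ∉ p) : (p.toFinset.erase 0).card ≤ r - 1 := by
  have : (p.toFinset.erase 0) ⊆ (Finset.Icc 1 r).erase t := by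
    intro c hc
    simp only [Finset.mem_erase, List.mem_toFinset, Finset.mem_Icc] at hc ⊢
    exact ⟨fun e => ht (e ▸ hc.2), by omega, hL c hc.2⟩
  refine le_trans (Finset.card_le_card this) ?_
  rw [Finset.card_erase_of_mem (Finset.mem_Icc.2 ⟨h1, h2⟩), Nat.card_Icc]
  omega

theorem zb_const (H : MB M) (g : ℕ → M) {t : ℕ} : ∀ {q : List ℕ}, (∀ c ∈ q, c = 0 ∨ c = t) →
    t ∈ q → ∀ m : M, m * sq g 0 = m → m * ev (Zb (sq g)) q = m * Zb (sq g) t := by
  intro q
  induction q with
  | nil => intro _ h; simp at h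
  | cons c q ih =>
    intro hq ht m hm
    rw [ev_cons]
    by_cases hct : c = t
    · subst hct
      rw [← mul_assoc]
      apply ev_absR
      intro d hd
      rcases hq d (by simp [hd]) with rfl | rfl
      · rw [H.zb0, mul_assoc, H.zbx]
      · rw [mul_assoc, H.zbz]
    · have hc0 : c = 0 := by
        rcases hq c (by simp) with h | h
        · exact h
        · exact absurd h hct
      subst hc0
      rw [H.zb0, ← mul_assoc, hm]
      apply ih (fun c hc => hq c (by simp [hc])) _ m hm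
      rcases List.mem_cons.1 ht with h | h
      · exact absurd h.symm hct
      · exact h

/-- the core of the induction step -/
theorem trc (H : MB M) (g : ℕ → M) {r : ℕ} (hr : 2 ≤ r)
    (hT : ∀ l : List ℕ, l.length ≤ r - 1 →
      sq g 0 * ev (sq g) l * sq g 0 = sq g 0 * ev (Zb (sq g)) l) {v : List ℕ}
    (hs : ∀ i j, 1 ≤ i → i < j → ¬ P2 j i v) (hL : ∀ c ∈ v, c ≤ r)
    (hm : ∀ c, 1 ≤ c → c ≤ r → c ∈ v) {c c' : ℕ} (hc : 1 ≤ c) (hc' : 1 ≤ c')
    (hp3 : P3 c 0 c' v) :
    sq g 0 * ev (sq g) v * sq g 0 = sq g 0 * ev (Zb (sq g)) (List.range' 1 r) := by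
  obtain ⟨p, q, rfl, hcp, hcq⟩ := p3_iff.1 hp3
  have hsp : ∀ i j, 1 ≤ i → i < j → ¬ P2 j i p := fun i j q1 q2 q3 => hs i j q1 q2
    (p2_sub q3 (List.sublist_append_left _ _))
  have hsq : ∀ i j, 1 ≤ i → i < j → ¬ P2 j i q := fun i j q1 q2 q3 => hs i j q1 q2
    (p2_sub q3 ((List.sublist_cons_self 0 q).trans (List.sublist_append_right p _)))
  have hpq : ∀ i j, 1 ≤ i → i < j → j ∈ p → i ∈ q → False := by
    intro i j q1 q2 q3 q4
    apply hs i j q1 q2
    rw [p2_append]
    exact Or.inr (Or.inl ⟨q3, by simp [q4]⟩)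
  have hLp : ∀ c ∈ p, c ≤ r := fun c hc => hL c (by simp [hc])
  have hLq : ∀ c ∈ q, c ≤ r := fun c hc => hL c (by simp [hc])
  have hCL : ∀ w : List ℕ, (∀ i j, 1 ≤ i → i < j → ¬ P2 j i w) → (∀ c ∈ w, c ≤ r) →
      (∃ t, 1 ≤ t ∧ t ≤ r ∧ t ∉ w) →
        sq g 0 * ev (sq g) w * sq g 0 = sq g 0 * ev (Zb (sq g)) w := by
    rintro w h1 h2 ⟨t, t1, t2, t3⟩
    exact cl H g hT w.length w (le_refl _) h1 (few_card h2 t1 t2 t3)
  have e1 : sq g 0 * ev (sq g) (p ++ 0 :: q) * sq g 0 =
      (sq g 0 * ev (sq g) p * sq g 0) * (sq g 0 * ev (sq g) q * sq g 0) := by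
    rw [ev_append, ev_cons]
    have e2 : (sq g 0 * ev (sq g) p * sq g 0) * (sq g 0 * ev (sq g) q * sq g 0) =
        sq g 0 * (ev (sq g) p * ((sq g 0 * sq g 0) * ev (sq g) q)) * sq g 0 := by
      simp only [mul_assoc]
    rw [e2, H.sq]
  by_cases hpa : ∃ t, 1 ≤ t ∧ t ≤ r ∧ t ∉ p
  · by_cases hqa : ∃ t, 1 ≤ t ∧ t ≤ r ∧ t ∉ q
    · -- both parts miss a letter
      rw [e1, hCL p hsp hLp hpa, hCL q hsq hLq hqa, ← nfz H g hs hL hm, ev_append, ev_cons,
        H.zb0]
      simp only [mul_assoc]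
    · -- `q` has all letters
      push Not at hqa
      have h1q : 1 ∈ q := hqa 1 (by omega) (by omega)
      have hp01 : ∀ c ∈ p, c = 0 ∨ c = 1 := by
        intro d hd
        by_contra hcon
        exact hpq 1 d (by omega) (by omega) hd h1q
      have h1p : 1 ∈ p := by
        rcases hp01 c hcp with h | h
        · omega
        · exact h ▸ hcp
      obtain ⟨q1, q2, rfl, hq2⟩ := last_occ h1q
      have hq1 : ∀ c ∈ q1, c = 0 ∨ c = 1 := by
        intro d hd
        by_contra hcon
        refine hsq 1 d (by omega) (by omega) ?_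
        rw [p2_append]
        exact Or.inr (Or.inl ⟨hd, by simp⟩)
      have hsq2 : ∀ i j, 1 ≤ i → i < j → ¬ P2 j i q2 := fun i j r1 r2 r3 => hsq i j r1 r2
        (p2_sub r3 ((List.sublist_cons_self 1 q2).trans (List.sublist_append_right q1 _)))
      have hLq2 : ∀ c ∈ q2, c ≤ r := fun c hc => hLq c (by simp [hc])
      have a1 : sq g 0 * ev (sq g) p * sq g 0 = Zb (sq g) 1 := by
        rw [hCL p hsp hLp hpa, zb_const H g hp01 h1p _ (H.sq g 0), H.xzb]
      have a2 : Zb (sq g) 1 * ev (sq g) q1 = Zb (sq g) 1 := by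
        apply ev_absR
        intro d hd
        rcases hq1 d hd with rfl | rfl
        · exact H.zbx g 1
        · exact H.zby g 1
      have a3 := hCL q2 hsq2 hLq2 ⟨1, by omega, by omega, hq2⟩
      have a4 : Zb (sq g) 1 * (sq g 0 * ev (sq g) (q1 ++ 1 :: q2) * sq g 0) =
          Zb (sq g) 1 * ev (Zb (sq g)) q2 := by
        rw [ev_append, ev_cons]
        calc Zb (sq g) 1 * (sq g 0 * (ev (sq g) q1 * (sq g 1 * ev (sq g) q2)) * sq g 0)
            = (((Zb (sq g) 1 * sq g 0) * ev (sq g) q1) * sq g 1) * (ev (sq g) q2 * sq g 0) := by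
              simp only [mul_assoc]
          _ = (Zb (sq g) 1 * sq g 0) * (ev (sq g) q2 * sq g 0) := by
              rw [H.zbx, a2, H.zby]
          _ = Zb (sq g) 1 * (sq g 0 * ev (sq g) q2 * sq g 0) := by simp only [mul_assoc]
          _ = Zb (sq g) 1 * (sq g 0 * ev (Zb (sq g)) q2) := by rw [a3]
          _ = Zb (sq g) 1 * ev (Zb (sq g)) q2 := by rw [← mul_assoc, H.zbx]
      rw [e1, a1, a4]
      have a5 : Zb (sq g) 1 * ev (Zb (sq g)) q2 = sq g 0 * ev (Zb (sq g)) (1 :: q2) := by
        rw [ev_cons, ← mul_assoc, H.xzb]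
      rw [a5]
      apply nfz H g
      · intro i j r1 r2 r3
        exact hsq i j r1 r2 (p2_sub r3 (List.sublist_append_right q1 _))
      · intro c hc
        exact hLq c (by
          rw [List.mem_append]
          exact Or.inr hc)
      · intro d d1 d2
        rcases List.mem_append.1 (hqa d d1 d2) with h | h
        · rcases hq1 d h with e | e
          · omega
          · rw [e]; simp
        · exact h
  · -- `p` has all letters
    push Not at hpa
    have hrp : r ∈ p := hpa r (by omega) (by omega)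
    have hq0r : ∀ c ∈ q, c = 0 ∨ c = r := by
      intro d hd
      by_contra hcon
      have := hLq d hd
      exact hpq d r (by omega) (by omega) hrp hd
    have hrq : r ∈ q := by
      rcases hq0r c' hcq with h | h
      · omega
      · exact h ▸ hcq
    obtain ⟨p1, p3, rfl, hp1⟩ := first_occ hrp
    have hp3' : ∀ c ∈ p3, c = 0 ∨ c = r := by
      intro d hd
      by_contra hcon
      have hdr := hLp d (by simp [hd])
      refine hsp d r (by omega) (by omega) ?_
      rw [p2_append, p2_cons]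
      exact Or.inr (Or.inr (Or.inl ⟨rfl, hd⟩))
    have hsp1 : ∀ i j, 1 ≤ i → i < j → ¬ P2 j i p1 := fun i j r1 r2 r3 => hsp i j r1 r2
      (p2_sub r3 (List.sublist_append_left p1 _))
    have hLp1 : ∀ c ∈ p1, c ≤ r := fun c hc => hLp c (by simp [hc])
    have b1 : sq g 0 * ev (sq g) q * sq g 0 = Zb (sq g) r := by
      have : ∃ t, 1 ≤ t ∧ t ≤ r ∧ t ∉ q := by
        refine ⟨1, by omega, by omega, ?_⟩
        intro h1
        rcases hq0r 1 h1 with e | e <;> omega
      rw [hCL q hsq hLq this, zb_const H g hq0r hrq _ (H.sq g 0), H.xzb]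
    have b2 : ev (sq g) p3 * Zb (sq g) r = Zb (sq g) r := by
      apply ev_absL
      intro d hd
      rcases hp3' d hd with rfl | rfl
      · exact H.xzb g r
      · exact H.yzb g d
    have b3 := hCL p1 hsp1 hLp1 ⟨r, by omega, le_refl r, hp1⟩
    rw [e1, b1, ev_append, ev_cons]
    calc sq g 0 * (ev (sq g) p1 * (sq g r * ev (sq g) p3)) * sq g 0 * Zb (sq g) r
        = sq g 0 * (ev (sq g) p1 * (sq g r * (ev (sq g) p3 * (sq g 0 * Zb (sq g) r)))) := by
          simp only [mul_assoc]
      _ = sq g 0 * (ev (sq g) p1 * (sq g 0 * Zb (sq g) r)) := by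
          rw [H.xzb, b2, H.yzb]
      _ = (sq g 0 * ev (sq g) p1 * sq g 0) * Zb (sq g) r := by simp only [mul_assoc]
      _ = sq g 0 * ev (Zb (sq g)) p1 * Zb (sq g) r := by rw [b3]
      _ = sq g 0 * ev (Zb (sq g)) (p1 ++ [r]) := by
          rw [ev_append, ev_cons, ev_nil, mul_one, mul_assoc]
      _ = sq g 0 * ev (Zb (sq g)) (List.range' 1 r) := by
          apply nfz H g
          · intro i j r1 r2 r3
            refine hsp i j r1 r2 (p2_sub r3 ?_)
            exact List.Sublist.append (List.Sublist.refl _)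
              (List.Sublist.cons_cons r (List.nil_sublist p3))
          · intro d hd
            rcases List.mem_append.1 hd with h | h
            · exact hLp1 d h
            · simp at h; omega
          · intro d d1 d2
            rcases List.mem_append.1 (hpa d d1 d2) with h | h
            · simp [h]
            · rcases List.mem_cons.1 h with h | h
              · simp [h]
              · rcases hp3' d h with e | e
                · omega
                · simp [e]

end

end Pool.Agent.Helper44_MVT
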