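import Pool.Agent.Helper44_MVT.Tau

/-!
All identities `x² y_1² … y_r² x² = [x y_1] … [x y_r]` hold if `L(V)` is modular.
-/

namespace Pool.Agent.Helper44_MVT

open Pool.Agent.Helper14_MV Pool.Agent.Helper2_MV

theorem ev_range {M : Type*} [Monoid M] (h h' : ℕ → M) (l : List ℕ)
    (e : ∀ i, i < l.length → h' (i + 1) = h (l.getD i 0)) :
    ev h' (List.range' 1 l.length) = ev h l := by
  unfold ev
  congr 1
  apply List.ext_getElem
  · simp
  · intro i h1 h2
    simp only [List.length_map, List.length_range'] at h1 h2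
    rw [List.getElem_map, List.getElem_map, List.getElem_range']
    have := e i h1
    rw [List.getD_eq_getElem _ _ h1] at this
    rw [← this]
    congr 1
    omega

/-- the induction step -/
theorem tr {β : FIC} (H : Beta β) {r : ℕ} (hr : 2 ≤ r) (hT : ∀ j, j < r → TauM (MM β) j)
    (hn : ¬ PR β r) : TauM (MM β) r := by
  unfold PR at hn
  push Not at hn
  obtain ⟨v, hv, c, c', hc1, hc2, hc1', hc2', hp⟩ := hn
  intro g l hl
  set g' : ℕ → MM β := fun i => if i = 0 then g 0 else if i ≤ r then g (l.getD (i - 1) 0) else 1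
    with hg'
  have g0 : g' 0 = g 0 := by simp [hg']
  have gi : ∀ i, i < r → g' (i + 1) = g (l.getD i 0) := by
    intro i hi
    have q1 : i + 1 ≤ r := hi
    simp [hg', q1]
  have gbig : ∀ i, r < i → g' i = 1 := by
    intro i hi
    have q1 : i ≠ 0 := by omega
    have q2 : ¬ i ≤ r := by omega
    simp only [hg', q1, q2, if_false]
  have s0 : sq g' 0 = sq g 0 := by simp only [sq, g0]
  have si : ∀ i, i < l.length → sq g' (i + 1) = sq g (l.getD i 0) := by
    intro i hi
    simp only [sq, gi i (by omega)]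
  have zi : ∀ i, i < l.length → Zb (sq g') (i + 1) = Zb (sq g) (l.getD i 0) := by
    intro i hi
    simp only [Zb, s0, si i hi]
  have e1 : ev (sq g') (List.range' 1 r) = ev (sq g) l := by
    rw [← hl]; exact ev_range _ _ l si
  have e2 : ev (Zb (sq g')) (List.range' 1 r) = ev (Zb (sq g)) l := by
    rw [← hl]; exact ev_range _ _ l zi
  set u0 := dbl (0 :: (List.range' 1 r ++ [0])) with hu0
  have hmem : ∀ i, i ≤ r → i ∈ (0 :: (List.range' 1 r ++ [0])) := by
    intro i hi
    simp only [List.mem_cons, List.mem_append, mem_rg, List.not_mem_nil, or_false]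
    omega
  have hself : ∀ i, i ≤ r → P2 i i u0 := fun i hi => p2_dbl_self (hmem i hi)
  have hvm : ∀ i, i ≤ r → i ∈ v := fun i hi => (p2_mem (inv1 H hv (hself i hi))).1
  have hvs : ∀ i j, 1 ≤ i → i < j → j ≤ r → ¬ P2 j i v := by
    intro i j h1 h2 h3
    refine inv2 H hv (by omega) ?_ (p2_mem (hself i (by omega))).1 (p2_mem (hself j h3)).1
    rw [hu0, p2_dbl (by omega), p2_cons, p2_append]
    rintro (h | h | h | h)
    · omega
    · have := p2_range' h
      omega
    · have := h.2
      simp at this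
      omega
    · have := (p2_mem h).1
      simp at this
      omega
  set v' := v.filter (fun i => decide (i ≤ r)) with hv'
  have hv1 : ev (sq g') v = ev (sq g') v' := by
    rw [hv']
    clear_value u0
    clear hp hvm hvs hv hself hu0 hmem hv' v'
    induction v with
    | nil => rfl
    | cons d v ih =>
      by_cases hd : d ≤ r
      · rw [List.filter_cons_of_pos (by simpa using hd), ev_cons, ev_cons, ih]
      · rw [List.filter_cons_of_neg (by simpa using hd), ev_cons, ih]
        have : sq g' d = 1 := by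
          unfold sq
          rw [gbig d (by omega), mul_one]
        rw [this, one_mul]
  have hs' : ∀ i j, 1 ≤ i → i < j → ¬ P2 j i v' := by
    intro i j h1 h2 h3
    have hj := (p2_mem h3).1
    rw [hv', List.mem_filter] at hj
    exact hvs i j h1 h2 (by simpa using hj.2) (p2_filter h3)
  have hL' : ∀ i ∈ v', i ≤ r := by
    intro i hi
    rw [hv', List.mem_filter] at hi
    simpa using hi.2
  have hm' : ∀ i, 1 ≤ i → i ≤ r → i ∈ v' := by
    intro i h1 h2
    rw [hv', List.mem_filter]
    exact ⟨hvm i h2, by simpa using h2⟩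
  have hp' : P3 c 0 c' v' := by
    obtain ⟨A, B, hAB, hA, hB⟩ := p3_iff.1 hp
    refine p3_iff.2 ⟨A.filter (fun i => decide (i ≤ r)), B.filter (fun i => decide (i ≤ r)), ?_,
      ?_, ?_⟩
    · rw [hv', hAB, List.filter_append, List.filter_cons_of_pos (by simp)]
    · rw [List.mem_filter]
      exact ⟨hA, by simpa using hc2⟩
    · rw [List.mem_filter]
      exact ⟨hB, by simpa using hc2'⟩
  have hTT : ∀ m : List ℕ, m.length ≤ r - 1 →
      sq g' 0 * ev (sq g') m * sq g' 0 = sq g' 0 * ev (Zb (sq g')) m := by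
    intro m hm
    exact hT m.length (by omega) g' m rfl
  have main := trc H.mb g' hr hTT hs' hL' hm' hc1 hc1' hp'
  have hev := ev_eq hv (sq g')
  rw [hu0, ev_dbl, ev_cons, ev_append, ev_cons, ev_nil, mul_one] at hev
  have e3 : ev (fun c => sq g' c * sq g' c) (List.range' 1 r) = ev (sq g') (List.range' 1 r) :=
    ev_congr (fun c _ => H.mb.sq g' c)
  rw [e3, H.mb.sq g' 0] at hev
  rw [← s0, ← e1, ← e2, ← main, ← hv1, ← hev]
  have : sq g' 0 * (sq g' 0 * (ev (sq g') (List.range' 1 r) * sq g' 0)) * sq g' 0 =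
      (sq g' 0 * sq g' 0) * ev (sq g') (List.range' 1 r) * (sq g' 0 * sq g' 0) := by
    simp only [mul_assoc]
  rw [this, H.mb.sq]

theorem ev_const {M : Type*} [Monoid M] {h : ℕ → M} {Y : M} (hY : Y * Y = Y) :
    ∀ {l : List ℕ}, l ≠ [] → (∀ c ∈ l, h c = Y) → ev h l = Y := by
  intro l
  induction l with
  | nil => intro h; exact absurd rfl h
  | cons c l ih =>
    intro _ hc
    rw [ev_cons, hc c (by simp)]
    by_cases h0 : l = []
    · subst h0
      rw [ev_nil, mul_one]
    · rw [ih h0 (fun c h => hc c (by simp [h])), hY]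

/-- one letter -/
theorem t1 {β : FIC} (H : Beta β) {R : ℕ} (hR : 1 ≤ R) (hn : ¬ PR β R) :
    TauM (MM β) 1 := by
  unfold PR at hn
  push Not at hn
  obtain ⟨v, hv, c, c', hc1, hc2, hc1', hc2', hp⟩ := hn
  intro g l hl
  obtain ⟨y, rfl⟩ := List.length_eq_one_iff.1 hl
  rw [ev_cons, ev_nil, mul_one, ev_cons, ev_nil, mul_one, H.mb.xzb]
  set g' : ℕ → MM β := fun i => if i = 0 then sq g 0 else if i ≤ R then sq g y else 1
    with hg'
  have g0 : g' 0 = sq g 0 := by simp [hg']
  have gi : ∀ i, 1 ≤ i → i ≤ R → g' i = sq g y := by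
    intro i q1 q2
    have q3 : i ≠ 0 := by omega
    simp only [hg', q3, q2, if_false, if_true]
  have gg : ∀ i, g' i = sq g 0 ∨ g' i = sq g y ∨ g' i = 1 := by
    intro i
    by_cases q1 : i = 0
    · left; rw [q1, g0]
    · by_cases q2 : i ≤ R
      · right; left; exact gi i (by omega) q2
      · right; right
        simp only [hg', q1, q2, if_false]
  have hZ := H.mb.zps g y
  have hev := ev_eq hv g'
  have hd : ev (fun c => g' c * g' c) (List.range' 1 R) = sq g y := by
    apply ev_const (H.mb.sq g y)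
    · intro h
      have := congrArg List.length h
      simp at this
      omega
    · intro c hc
      have := mem_rg.1 hc
      rw [gi c (by omega) (by omega), H.mb.sq]
  rw [ev_dbl, ev_cons, ev_append, ev_cons, ev_nil, mul_one, hd, g0, H.mb.sq] at hev
  obtain ⟨A, B, rfl, hA, hB⟩ := p3_iff.1 hp
  obtain ⟨A1, A2, rfl⟩ := List.append_of_mem hA
  obtain ⟨B1, B2, rfl⟩ := List.append_of_mem hB
  have hw : ∀ l : List ℕ, ∀ m ∈ l.map g', m = sq g 0 ∨ m = sq g y ∨ m = 1 := by
    intro l m hm
    obtain ⟨c, _, rfl⟩ := List.mem_map.1 hm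
    exact gg c
  have h4 := hZ.four (hw A1) (hw A2) (hw B1)
  have hB2 : Zb (sq g) y * ev g' B2 = Zb (sq g) y := by
    apply ev_absR
    intro d _
    rcases gg d with e | e | e
    · rw [e]; exact H.mb.zbx g y
    · rw [e]; exact H.mb.zby g y
    · rw [e, mul_one]
  have hfin : sq g 0 * ev g' ((A1 ++ c :: A2) ++ 0 :: (B1 ++ c' :: B2)) * sq g 0 =
      Zb (sq g) y := by
    rw [ev_append, ev_append, ev_cons, ev_cons, ev_append, ev_cons, g0, gi c hc1 hc2,
      gi c' hc1' hc2']
    calc sq g 0 * (ev g' A1 * (sq g y * ev g' A2) * (sq g 0 * (ev g' B1 * (sq g y * ev g' B2)))) *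
          sq g 0
        = (sq g 0 * ev g' A1 * sq g y * ev g' A2 * sq g 0 * ev g' B1 * sq g y) * ev g' B2 *
          sq g 0 := by simp only [mul_assoc]
      _ = Zb (sq g) y * ev g' B2 * sq g 0 := by
          have : sq g 0 * ev g' A1 * sq g y * ev g' A2 * sq g 0 * ev g' B1 * sq g y =
              Zb (sq g) y := h4
          rw [this]
      _ = Zb (sq g) y := by rw [hB2, H.mb.zbx]
  rw [← hfin, ← hev]
  have : sq g 0 * (sq g 0 * (sq g y * sq g 0)) * sq g 0 =
      (sq g 0 * sq g 0) * sq g y * (sq g 0 * sq g 0) := by simp only [mul_assoc]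
  rw [this, H.mb.sq]

/-- **all `tau_r` hold** -/
theorem tau_all {β : FIC} (H : Beta β) (hm : ModF β) : ∀ r, TauM (MM β) r := by
  intro r
  induction r using Nat.strong_induction_on with
  | _ r ih =>
    rcases Nat.lt_or_ge r 2 with h | h
    · rcases Nat.lt_or_ge r 1 with h0 | h1
      · intro g l hl
        have : l = [] := List.length_eq_zero_iff.1 (by omega)
        subst this
        rw [ev_nil, ev_nil, mul_one, H.mb.sq]
      · have : r = 1 := by omega
        subst this
        exact t1 H (R := 2) (by omega) (not_PR H hm (le_refl 2))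
    · exact tr H h ih (not_PR H hm h)

end Pool.Agent.Helper44_MVT
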