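import Pool.Agent.Helper44_MVT.Pat

/-!
The words of the pentagon and the effect of the insertion of the square of `φ 1`.
-/

namespace Pool.Agent.Helper44_MVT

open Pool.Agent.Helper14_MV Pool.Agent.Helper2_MV

/-- the end of the word -/
def RW (B E q D0 G0 : List ℕ) : List ℕ :=
  (G0 ++ G0) ++ ((D0 ++ D0) ++ (B ++ ((D0 ++ D0) ++ (E ++ ((G0 ++ G0) ++ q)))))

theorem rw_p2 {y z : ℕ} {B E q D0 G0 : List ℕ} (hy : y ∈ D0) (hz : z ∈ RW B E q D0 G0) :
    P2 y z (RW B E q D0 G0) := by
  unfold RW at hz ⊢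
  rw [p2_append]
  right; right
  rcases List.mem_append.1 hz with hz | hz
  · have hz' : z ∈ G0 := by simpa using hz
    rw [p2_append]
    right; left
    exact ⟨by simp [hy], by simp [hz']⟩
  · rcases List.mem_append.1 hz with hz | hz
    · have hz' : z ∈ D0 := by simpa using hz
      rw [p2_append]
      right; left
      exact ⟨by simp [hy], by simp [hz']⟩
    · rw [p2_append]
      right; left
      exact ⟨by simp [hy], hz⟩

theorem rw_p3 {y z : ℕ} {B E q D0 G0 : List ℕ} (hy : y ∈ D0) (h0 : 0 ∈ D0)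
    (hz : z ∈ RW B E q D0 G0) : P3 y 0 z (RW B E q D0 G0) := by
  unfold RW at hz ⊢
  have hD : P2 y 0 (D0 ++ D0) := by
    rw [p2_append]; exact Or.inr (Or.inl ⟨hy, h0⟩)
  rw [p3_append]
  right; right; right
  rw [p3_append]
  right; left
  refine ⟨hD, ?_⟩
  rcases List.mem_append.1 hz with hz | hz
  · have hz' : z ∈ G0 := by simpa using hz
    simp [hz']
  · rcases List.mem_append.1 hz with hz | hz
    · have hz' : z ∈ D0 := by simpa using hz
      simp [hz']
    · exact hz

theorem mem_D_RW {z : ℕ} {B E q D0 G0 : List ℕ} (h : z ∈ D0) : z ∈ RW B E q D0 G0 := by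
  unfold RW
  simp [h]

theorem D_sub_RW {B E q D0 G0 : List ℕ} : (D0 ++ D0).Sublist (RW B E q D0 G0) := by
  unfold RW
  exact (List.sublist_append_left _ _).trans (List.sublist_append_right _ _)

theorem pat2a {y z : ℕ} {B E q D0 G0 : List ℕ} (h : P2 y z ((D0 ++ D0) ++ RW B E q D0 G0)) :
    P2 y z (RW B E q D0 G0) := by
  rw [p2_append] at h
  rcases h with h | ⟨h1, h2⟩ | h
  · exact p2_sub h D_sub_RW
  · exact rw_p2 (by simpa using h1) h2
  · exact h

theorem pat2 (y z : ℕ) (p B E q D0 G0 : List ℕ) :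
    P2 y z (p ++ ((D0 ++ D0) ++ RW B E q D0 G0)) ↔ P2 y z (p ++ RW B E q D0 G0) := by
  constructor
  · intro h
    rw [p2_append] at h ⊢
    rcases h with h | ⟨h1, h2⟩ | h
    · exact Or.inl h
    · right; left
      refine ⟨h1, ?_⟩
      rcases List.mem_append.1 h2 with h2 | h2
      · exact mem_D_RW (by simpa using h2)
      · exact h2
    · exact Or.inr (Or.inr (pat2a h))
  · intro h
    exact p2_sub h (List.Sublist.append (List.Sublist.refl _) (List.sublist_append_right _ _))

theorem pat3 (y z : ℕ) (p B E q D0 G0 : List ℕ)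
    (h : P3 y 0 z (p ++ ((D0 ++ D0) ++ RW B E q D0 G0))) :
    P3 y 0 z (p ++ RW B E q D0 G0) ∨ (y ∈ D0 ∧ 0 ∈ G0) := by
  have e : RW B E q D0 G0 = (G0 ++ G0) ++ ((D0 ++ D0) ++ (B ++ ((D0 ++ D0) ++
    (E ++ ((G0 ++ G0) ++ q))))) := rfl
  rw [p3_append] at h
  rw [p3_append]
  rcases h with h | ⟨h1, h2⟩ | ⟨h1, h2⟩ | h
  · exact Or.inl (Or.inl h)
  · left; right; left
    refine ⟨h1, ?_⟩
    rcases List.mem_append.1 h2 with h2 | h2
    · exact mem_D_RW (by simpa using h2)
    · exact h2
  · left; right; right; left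
    exact ⟨h1, pat2a h2⟩
  · rw [p3_append] at h
    rcases h with h | ⟨h1, h2⟩ | ⟨h1, h2⟩ | h
    · left; right; right; right
      exact p3_sub h D_sub_RW
    · left; right; right; right
      have h3 := p2_mem h1
      exact rw_p3 (by simpa using h3.1) (by simpa using h3.2) h2
    · have hy : y ∈ D0 := by simpa using h1
      rw [e, p2_append] at h2
      rcases h2 with h2 | ⟨h2, h3⟩ | h2
      · right
        exact ⟨hy, by simpa using (p2_mem h2).1⟩
      · right
        exact ⟨hy, by simpa using h2⟩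
      · left; right; right; right
        rw [p2_append] at h2
        rcases h2 with h2 | ⟨h2, h3⟩ | h2
        · have h3 := p2_mem h2
          exact rw_p3 hy (by simpa using h3.1) (mem_D_RW (by simpa using h3.2))
        · refine rw_p3 hy (by simpa using h2) ?_
          rw [e, List.mem_append]
          exact Or.inr (List.mem_append.2 (Or.inr h3))
        · rw [e, p3_append]
          right; right; right
          rw [p3_append]
          right; right; left
          exact ⟨h1, h2⟩
    · exact Or.inl (Or.inr (Or.inr (Or.inr h)))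

/-- the word `d b_1 … b_k a d e_1 … e_k a` -/
def ww (k : ℕ) : List ℕ :=
  1 :: (List.range' 3 k ++ 2 :: 1 :: (List.range' (3 + k) k ++ [2]))

/-- the word `x w x` -/
def cw (k : ℕ) : List ℕ := 0 :: (ww k ++ [0])

/-- the word of the pentagon -/
def CC (k : ℕ) : List ℕ := dbl (cw k)

theorem p2_range' {a b s n : ℕ} (h : P2 a b (List.range' s n)) : a < b := by
  have h1 : List.Pairwise (fun a b => a < b) (List.range' s n) := List.pairwise_lt_range'
  have h2 := List.Pairwise.sublist h h1
  simpa using h2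

theorem mem_rg {a s n : ℕ} : a ∈ List.range' s n ↔ s ≤ a ∧ a < s + n := by
  rw [List.mem_range'_1]

theorem mem_cw {k c : ℕ} : c ∈ cw k ↔ c ≤ 2 * k + 2 := by
  unfold cw ww
  simp only [List.mem_cons, List.mem_append, mem_rg, List.not_mem_nil, or_false]
  omega

theorem cc_self {k c : ℕ} (hc : c ≤ 2 * k + 2) : P2 c c (CC k) :=
  p2_dbl_self (mem_cw.2 hc)

/-- the chain -/
theorem cc_chain {k i j : ℕ} (hi : 3 ≤ i) (hij : i < j) : ¬ P2 j i (CC k) := by
  unfold CC
  rw [p2_dbl (by omega)]
  unfold cw ww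
  simp only [p2_append, p2_cons, List.mem_cons, List.mem_append, mem_rg, List.not_mem_nil,
    or_false]
  intro h
  have hn : ¬ P2 j i [] := not_p2_nil
  have h1 : ∀ s n, P2 j i (List.range' s n) → j < i := fun s n h => p2_range' h
  have h2 := h1 3 k
  have h3 := h1 (3 + k) k
  by_cases q1 : P2 j i (List.range' 3 k)
  · have := h2 q1
    omega
  by_cases q2 : P2 j i (List.range' (3 + k) k)
  · have := h3 q2
    omega
  simp only [q1, q2, hn, false_or, or_false, and_false, false_and] at h
  omega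

theorem cc_a_b {k i : ℕ} (hi : 3 ≤ i) (hk : i ≤ k + 2) : ¬ P2 2 i (CC k) := by
  unfold CC
  rw [p2_dbl (by omega)]
  unfold cw ww
  simp only [p2_append, p2_cons, List.mem_cons, List.mem_append, mem_rg, List.not_mem_nil,
    or_false]
  intro h
  have hn : ¬ P2 2 i [] := not_p2_nil
  by_cases q1 : P2 2 i (List.range' 3 k)
  · have := mem_rg.1 (p2_mem q1).1
    omega
  by_cases q2 : P2 2 i (List.range' (3 + k) k)
  · have := mem_rg.1 (p2_mem q2).1
    omega
  simp only [q1, q2, hn, false_or, or_false, and_false, false_and] at h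
  omega

theorem cc_e_d {k i : ℕ} (hi : k + 3 ≤ i) : ¬ P2 i 1 (CC k) := by
  unfold CC
  rw [p2_dbl (by omega)]
  unfold cw ww
  simp only [p2_append, p2_cons, List.mem_cons, List.mem_append, mem_rg, List.not_mem_nil,
    or_false]
  intro h
  have hn : ¬ P2 i 1 [] := not_p2_nil
  by_cases q1 : P2 i 1 (List.range' 3 k)
  · have := mem_rg.1 (p2_mem q1).2
    omega
  by_cases q2 : P2 i 1 (List.range' (3 + k) k)
  · have := mem_rg.1 (p2_mem q2).2
    omega
  simp only [q1, q2, hn, false_or, or_false, and_false, false_and] at h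
  omega

theorem cc_a_d {k : ℕ} : P2 2 1 (CC k) := by
  unfold CC
  rw [p2_dbl (by omega)]
  unfold cw ww
  simp only [p2_append, p2_cons, List.mem_cons, List.mem_append]
  tauto

end Pool.Agent.Helper44_MVT
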